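import Pool.Agent.H566P.Spec

/-! Task ACC: coding facts. -/

set_option autoImplicit false

namespace Pool.Agent.H566P

open Set MeasureTheory
open Pool.Agent.H899R2.VP (St Adj PIso BF IsoOn idOn inv comp zipSet)
open Pool.Agent.H533R2.VO (RS lift put OS Ic RIso Dich VC BlkV S_FINAL)

private theorem ACC_pos (i : ℕ) : 0 < ar i := by
  unfold ar
  split_ifs <;> omega

private theorem ACC_ar0 : ar 0 = 2 := by simp [ar]

private theorem ACC_ar1 (n : ℕ) : ar (2 * n + 1) = 2 := by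
  unfold ar
  rw [if_pos]
  right
  omega

private theorem ACC_ar2 (n : ℕ) : ar (2 * n + 2) = 1 := by
  unfold ar
  rw [if_neg]
  omega

private theorem ACC_cases (i : ℕ) : i = 0 ∨ (∃ n, i = 2 * n + 1) ∨ ∃ n, i = 2 * n + 2 := by
  rcases Nat.eq_zero_or_pos i with h | h
  · exact Or.inl h
  · rcases Nat.even_or_odd' i with ⟨k, hk | hk⟩
    · exact Or.inr (Or.inr ⟨k - 1, by omega⟩)
    · exact Or.inr (Or.inl ⟨k, hk⟩)

private theorem ACC_a0 {m : ℕ} (h : 0 < m) (v : Fin m → ℕ) : a0 v = v ⟨0, h⟩ := by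
  unfold a0
  rw [dif_pos h]

private theorem ACC_a1 {m : ℕ} (h : 1 < m) (v : Fin m → ℕ) : a1 v = v ⟨1, h⟩ := by
  unfold a1
  rw [dif_pos h]

private theorem ACC_a0v (i x y : ℕ) : a0 (v2 i x y) = x := by
  rw [ACC_a0 (ACC_pos i)]
  rfl

private theorem ACC_a1v (i x y : ℕ) (h : ar i = 2) : a1 (v2 i x y) = y := by
  rw [ACC_a1 (by omega)]
  rfl

private theorem ACC_eq2 (i : ℕ) (h : ar i = 2) (v : Fin (ar i) → ℕ) :
    v = v2 i (a0 v) (a1 v) := by
  funext k
  unfold v2
  by_cases hk : k.1 = 0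
  · rw [if_pos hk, ACC_a0 (ACC_pos i)]
    congr 1
    exact Fin.ext hk
  · rw [if_neg hk, ACC_a1 (by omega)]
    congr 1
    apply Fin.ext
    have := k.2
    show k.1 = 1
    omega

private theorem ACC_eq1 (i : ℕ) (h : ar i = 1) (v : Fin (ar i) → ℕ) :
    v = v2 i (a0 v) (a0 v) := by
  funext k
  unfold v2
  have hk : k.1 = 0 := by
    have := k.2
    omega
  rw [if_pos hk, ACC_a0 (ACC_pos i)]
  congr 1
  exact Fin.ext hk

/-- all the facts on a relation follow from the facts on `lt`, `ac`, `co` -/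
private theorem ACC_val (R : R2) (i : ℕ) (v : Fin (ar i) → ℕ) :
    (i = 0 ∧ (R i v = true ↔ lt R (a0 v) (a1 v))) ∨
    (∃ n, i = 2 * n + 1 ∧ (R i v = true ↔ ac R n (a0 v) (a1 v))) ∨
    (∃ n, i = 2 * n + 2 ∧ (R i v = true ↔ co R n (a0 v))) := by
  rcases ACC_cases i with rfl | ⟨n, rfl⟩ | ⟨n, rfl⟩
  · refine Or.inl ⟨rfl, ?_⟩
    conv_lhs => rw [ACC_eq2 0 ACC_ar0 v]
    rfl
  · refine Or.inr (Or.inl ⟨n, rfl, ?_⟩)
    conv_lhs => rw [ACC_eq2 _ (ACC_ar1 n) v]
    rfl
  · refine Or.inr (Or.inr ⟨n, rfl, ?_⟩)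
    conv_lhs => rw [ACC_eq1 _ (ACC_ar2 n) v]
    rfl

private theorem ACC_iso_of_riso {R R' : R2} (h : RIso R R') :
    IsoOn (lift R) (lift R') univ univ ∅ := by
  obtain ⟨σ, hσ⟩ := h
  refine ⟨{w | w.2 = σ w.1}, empty_subset _, fun _ _ => ⟨trivial, trivial⟩, ⟨?_, ?_, ?_⟩, ?_, ?_⟩
  · rintro ⟨u, u'⟩ hu ⟨v, v'⟩ hv
    simp only [Set.mem_ofPred_eq] at hu hv
    simp only
    rw [hu, hv]
    exact σ.injective.eq_iff.symm
  · intro u _ v _
    rfl
  · intro i t ht
    have h1 : (fun k => (t k).2) = ⇑σ ∘ fun k => (t k).1 := funext fun k => ht k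
    show R i (fun k => (t k).1) = R' i (fun k => (t k).2)
    rw [h1, hσ]
  · intro x _
    exact ⟨σ x, rfl⟩
  · intro y _
    exact ⟨σ.symm y, by simp⟩

private theorem ACC_riso_of_iso {R R' : R2} (h : IsoOn (lift R) (lift R') univ univ ∅) :
    RIso R R' := by
  obtain ⟨q, -, -, h3, h4, h5⟩ := h
  choose f hf using fun x => h4 x trivial
  have hinj : Function.Injective f := fun x y hxy => (h3.1 _ (hf x) _ (hf y)).2 hxy
  have hsurj : Function.Surjective f := by
    intro y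
    obtain ⟨x, hx⟩ := h5 y trivial
    exact ⟨x, (h3.1 _ (hf x) _ hx).1 rfl⟩
  refine ⟨Equiv.ofBijective f ⟨hinj, hsurj⟩, ?_⟩
  intro i v
  have := h3.2.2 i (fun k => (v k, f (v k))) (fun k => hf (v k))
  exact this.symm

private theorem ACC_bool {b c : Bool} (h : b = true ↔ c = true) : b = c := by
  cases b <;> cases c <;> simp at h ⊢

private theorem ACC_mk (L : ℕ → ℕ → Prop) (A : ℕ → ℕ → ℕ → Prop) (C : ℕ → ℕ → Prop) (i : ℕ)
    (v : Fin (ar i) → ℕ) : mk L A C i v = true ↔ (if i = 0 then L (a0 v) (a1 v) else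
      if i % 2 = 1 then A (i / 2) (a0 v) (a1 v) else C (i / 2 - 1) (a0 v)) := by
  unfold mk
  exact @decide_eq_true_iff _ (_)

theorem t_ACC : S_ACC := by
  refine ⟨?_, ?_, ?_, ?_, ?_, ?_, ?_, ?_, ?_, ?_, ?_, ?_⟩
  · intro L A C x y
    unfold lt
    rw [ACC_mk, if_pos rfl, ACC_a0v, ACC_a1v _ _ _ ACC_ar0]
  · intro L A C n x y
    unfold ac
    rw [ACC_mk, if_neg (by omega), if_pos (by omega), ACC_a0v,
      ACC_a1v _ _ _ (ACC_ar1 n)]
    have : (2 * n + 1) / 2 = n := by omega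
    rw [this]
  · intro L A C n x
    unfold co
    rw [ACC_mk, if_neg (by omega), if_neg (by omega), ACC_a0v]
    have : (2 * n + 2) / 2 - 1 = n := by omega
    rw [this]
  · intro R R' h1 h2 h3
    funext i v
    apply ACC_bool
    rcases ACC_cases i with rfl | ⟨n, rfl⟩ | ⟨n, rfl⟩
    · rw [ACC_eq2 0 ACC_ar0 v]
      exact h1 _ _
    · rw [ACC_eq2 _ (ACC_ar1 n) v]
      exact h2 n _ _
    · rw [ACC_eq1 _ (ACC_ar2 n) v]
      exact h3 n _
  · intro R R' p
    constructor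
    · rintro ⟨h1, -, h3⟩
      have key : ∀ i, ∀ u ∈ p, ∀ v ∈ p, R i (v2 i u.1 v.1) = R' i (v2 i u.2 v.2) := by
        intro i u hu v hv
        have h := h3 i (fun k => if k.1 = 0 then u else v) (fun k => by
          by_cases hk : k.1 = 0
          · simp only [hk, if_true]; exact hu
          · simp only [hk, if_false]; exact hv)
        have e1 : (fun k : Fin (ar i) => (if k.1 = 0 then u else v).1) = v2 i u.1 v.1 := by
          funext k
          unfold v2
          split_ifs <;> rfl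
        have e2 : (fun k : Fin (ar i) => (if k.1 = 0 then u else v).2) = v2 i u.2 v.2 := by
          funext k
          unfold v2
          split_ifs <;> rfl
        rw [e1, e2] at h
        exact h
      refine ⟨h1, ?_, ?_, ?_⟩
      · intro u hu v hv
        unfold lt
        rw [key 0 u hu v hv]
      · intro n u hu v hv
        unfold ac
        rw [key _ u hu v hv]
      · intro n u hu
        unfold co
        rw [key _ u hu u hu]
    · rintro ⟨h1, h2, h3, h4⟩
      refine ⟨h1, fun _ _ _ _ => rfl, ?_⟩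
      intro i t ht
      show R i (fun k => (t k).1) = R' i (fun k => (t k).2)
      apply ACC_bool
      rcases ACC_cases i with rfl | ⟨n, rfl⟩ | ⟨n, rfl⟩
      · rw [ACC_eq2 0 ACC_ar0 (fun k => (t k).1), ACC_eq2 0 ACC_ar0 (fun k => (t k).2)]
        have h := h2 _ (ht ⟨0, ACC_pos 0⟩) _ (ht ⟨1, by rw [ACC_ar0]; omega⟩)
        rw [ACC_a0 (ACC_pos 0), ACC_a0 (ACC_pos 0), ACC_a1 (by rw [ACC_ar0]; omega),
          ACC_a1 (by rw [ACC_ar0]; omega)]
        exact h
      · have h5 : 1 < ar (2 * n + 1) := by rw [ACC_ar1]; omega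
        rw [ACC_eq2 _ (ACC_ar1 n) (fun k => (t k).1), ACC_eq2 _ (ACC_ar1 n) (fun k => (t k).2)]
        have h := h3 n _ (ht ⟨0, ACC_pos _⟩) _ (ht ⟨1, h5⟩)
        rw [ACC_a0 (ACC_pos _), ACC_a0 (ACC_pos _), ACC_a1 h5, ACC_a1 h5]
        exact h
      · rw [ACC_eq1 _ (ACC_ar2 n) (fun k => (t k).1), ACC_eq1 _ (ACC_ar2 n) (fun k => (t k).2)]
        have h := h4 n _ (ht ⟨0, ACC_pos _⟩)
        rw [ACC_a0 (ACC_pos _), ACC_a0 (ACC_pos _)]
        exact h
  · intro R R'
    constructor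
    · rintro ⟨σ, hσ⟩
      have key : ∀ i x y, R' i (v2 i (σ x) (σ y)) = R i (v2 i x y) := by
        intro i x y
        have h := hσ i (v2 i x y)
        have e1 : ⇑σ ∘ v2 i x y = v2 i (σ x) (σ y) := by
          funext k
          show σ (v2 i x y k) = v2 i (σ x) (σ y) k
          unfold v2
          split_ifs <;> rfl
        rw [e1] at h
        exact h
      refine ⟨σ, ?_, ?_, ?_⟩
      · intro x y
        unfold lt
        rw [key]
      · intro n x y
        unfold ac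
        rw [key]
      · intro n x
        unfold co
        rw [key]
    · rintro ⟨σ, h1, h2, h3⟩
      refine ⟨σ, ?_⟩
      intro i v
      have e1 : ∀ x y, ⇑σ ∘ v2 i x y = v2 i (σ x) (σ y) := by
        intro x y
        funext k
        show σ (v2 i x y k) = v2 i (σ x) (σ y) k
        unfold v2
        split_ifs <;> rfl
      apply ACC_bool
      rcases ACC_cases i with rfl | ⟨n, rfl⟩ | ⟨n, rfl⟩
      · rw [ACC_eq2 0 ACC_ar0 v, e1]
        exact h1 _ _
      · rw [ACC_eq2 _ (ACC_ar1 n) v, e1]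
        exact h2 n _ _
      · rw [ACC_eq1 _ (ACC_ar2 n) v, e1]
        exact h3 n _
  · intro R R'
    exact ⟨ACC_iso_of_riso, ACC_riso_of_iso⟩
  · intro x y
    have h : Measurable (fun R : R2 => R 0 (v2 0 x y)) :=
      (measurable_pi_apply (v2 0 x y)).comp (measurable_pi_apply 0)
    exact h (measurableSet_singleton true)
  · intro n x y
    have h : Measurable (fun R : R2 => R (2 * n + 1) (v2 (2 * n + 1) x y)) :=
      (measurable_pi_apply (v2 (2 * n + 1) x y)).comp (measurable_pi_apply (2 * n + 1))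
    exact h (measurableSet_singleton true)
  · intro n x
    have h : Measurable (fun R : R2 => R (2 * n + 2) (v2 (2 * n + 2) x x)) :=
      (measurable_pi_apply (v2 (2 * n + 2) x x)).comp (measurable_pi_apply (2 * n + 2))
    exact h (measurableSet_singleton true)
  · intro Ω _ Φ h1 h2 h3
    refine measurable_pi_iff.2 fun i => measurable_pi_iff.2 fun v => measurable_to_bool ?_
    have e : (fun ω => Φ ω i v) ⁻¹' {true} = {ω | Φ ω i v = true} := rfl
    rw [e]
    rcases ACC_cases i with rfl | ⟨n, rfl⟩ | ⟨n, rfl⟩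
    · rw [ACC_eq2 0 ACC_ar0 v]
      exact h1 _ _
    · rw [ACC_eq2 _ (ACC_ar1 n) v]
      exact h2 n _ _
    · rw [ACC_eq1 _ (ACC_ar2 n) v]
      exact h3 n _
  · intro Ω _ Φ h1 h2 h3
    refine continuous_pi fun i => continuous_pi fun v => (continuous_bool_rng true).2 ?_
    have e : (fun ω => Φ ω i v) ⁻¹' {true} = {ω | Φ ω i v = true} := rfl
    rw [e]
    rcases ACC_cases i with rfl | ⟨n, rfl⟩ | ⟨n, rfl⟩
    · rw [ACC_eq2 0 ACC_ar0 v]
      exact h1 _ _
    · rw [ACC_eq2 _ (ACC_ar1 n) v]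
      exact h2 n _ _
    · rw [ACC_eq1 _ (ACC_ar2 n) v]
      exact h3 n _

end Pool.Agent.H566P
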