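import Pool.Agent.H566P.Spec
import Pool.Agent.H565R2.FO2.USec

/-! CNT: countably many structures. -/

set_option autoImplicit false

namespace Pool.Agent.H566P

open Set MeasureTheory
open Pool.Agent.H899R2.VP (St Adj PIso BF IsoOn idOn inv comp zipSet)
open Pool.Agent.H533R2.VO (RS lift put OS Ic RIso Dich VC BlkV S_FINAL)

theorem CNT_trans {a : ℕ → ℕ} {M N K : St a} {X Y Z : Set ℕ} (h : IsoOn M N X Y ∅)
    (h' : IsoOn N K Y Z ∅) : IsoOn M K X Z ∅ := (h.trans h').mono (empty_subset _)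

theorem CNT_symm {a : ℕ → ℕ} {M N : St a} {X Y : Set ℕ} (h : IsoOn M N X Y ∅) :
    IsoOn N M Y X ∅ := h.symm.mono (empty_subset _)

theorem CNT_point {a : ℕ → ℕ} {M N : St a} (h : IsoOn M N univ univ ∅) (x : ℕ) :
    ∃ y, IsoOn M N univ univ {(x, y)} := by
  obtain ⟨q, -, hq2, hq3, hq4, hq5⟩ := h
  obtain ⟨y, hy⟩ := hq4 x (mem_univ x)
  exact ⟨y, q, singleton_subset_iff.2 hy, hq2, hq3, hq4, hq5⟩

theorem CNT_empty (hA : S_ACC) (R R' : R2) : IsoOn (lift R) (lift R') ∅ ∅ ∅ := by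
  obtain ⟨-, -, -, -, hP, -⟩ := hA
  refine ⟨∅, empty_subset _, empty_subset _, (hP R R' ∅).2 ?_, ?_, ?_⟩
  · refine ⟨?_, ?_, ?_, ?_⟩
    · intro u hu; exact hu.elim
    · intro u hu; exact hu.elim
    · intro n u hu; exact hu.elim
    · intro n u hu; exact hu.elim
  · intro x hx; exact hx.elim
  · intro x hx; exact hx.elim

theorem t_CNT (hA : S_ACC) (h1 : S_PC) (h2 : S_LABC) (h3 : S_GLU) (h4 : S_TYP) (h5 : S_PIC) :
    S_CNT := by
  classical
  intro Γ _ g Δ α B hg hB hVC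
  haveI : Countable Γ := hg.countable
  have hRI : ∀ R R' : R2, RIso R R' ↔ IsoOn (lift R) (lift R') univ univ ∅ := by
    obtain ⟨-, -, -, -, -, -, h, -⟩ := hA
    exact h
  obtain ⟨L, hL⟩ : ∃ L : Set (Γ → Bool × Bool), L = {p | ∃ R ∈ B, ∃ x y, lab g R x y = p} :=
    ⟨_, rfl⟩
  have hLc : L.Countable := by rw [hL]; exact h2 Γ g Δ α B hg hB
  haveI : Countable L := hLc.to_subtype
  choose F hF using h1 Γ g Δ α B hg hB hVC
  let P : ℕ → B → (Γ → Bool × Bool) → ℕ → Prop := fun x R p n =>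
    IsoOn (lift (F p n).1) (lift (der g (stb Δ p) R.1)) (F p n).2 (I g R.1 x p) ∅
  have hex : ∀ x R p, ∃ n, P x R p n := fun x R p => hF p R.1 R.2 x
  let J : ℕ → B → (L → ℕ) := fun x R p => Nat.find (hex x R p.1)
  have hJm : ∀ x, Measurable (J x) := by
    intro x
    rw [measurable_pi_iff]
    intro p
    refine measurable_find (fun R => hex x R p.1) (fun n => ?_)
    exact measurable_subtype_coe (h4 Γ g (stb Δ p.1) (F p.1 n).1 (F p.1 n).2 x p.1)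
  have hJE : ∀ R R' : B, RIso R.1 R'.1 → ∀ x, ∃ y, J x R = J y R' := by
    intro R R' hRR x
    obtain ⟨y, hy⟩ := CNT_point ((hRI _ _).1 hRR) x
    refine ⟨y, ?_⟩
    funext p
    have h6 := h5 Γ g (stb Δ p.1) R.1 R'.1 x y p.1 hy
    apply Nat.find_congr'
    intro n
    exact ⟨fun h => CNT_trans h h6, fun h => CNT_trans h (CNT_symm h6)⟩
  have hU : (⋃ x : ℕ, Set.range (J x)).Countable := by
    by_contra hunc
    haveI : StandardBorelSpace B := hB.meas.standardBorel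
    obtain ⟨h, hc, hh⟩ := Pool.Agent.H565R2.FO2.perfect_of_uncountable (Y := B) (X := R2)
      Subtype.val measurable_subtype_coe J hJm (fun R R' => RIso R.1 R'.1) hJE hunc
    apply hB.few
    refine ⟨fun A => (h A).1, hc, fun A => (h A).2, fun A A' hAA => ?_⟩
    by_contra hne
    exact hh A A' hne hAA
  -- enumeration of the values
  obtain ⟨e, he⟩ : ∃ e : ℕ → (L → ℕ), (⋃ x : ℕ, Set.range (J x)) ⊆ Set.range e := by
    rcases (⋃ x : ℕ, Set.range (J x)).eq_empty_or_nonempty with h0 | h0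
    · exact ⟨fun _ _ => 0, by rw [h0]; exact empty_subset _⟩
    · obtain ⟨e, he⟩ := hU.exists_eq_range h0
      exact ⟨e, he.le⟩
  refine ⟨fun n => if h : ∃ R : B, ∃ x, J x R = e n then h.choose.1 else fun _ _ => false, ?_⟩
  intro R' hR'
  obtain ⟨n, hn⟩ := he (mem_iUnion.2 ⟨0, ⟨⟨R', hR'⟩, rfl⟩⟩ :
    J 0 ⟨R', hR'⟩ ∈ (⋃ x : ℕ, Set.range (J x)))
  have hex2 : ∃ R : B, ∃ x, J x R = e n := ⟨⟨R', hR'⟩, 0, hn.symm⟩
  refine ⟨n, ?_⟩
  simp only [dif_pos hex2]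
  obtain ⟨x, hx⟩ := hex2.choose_spec
  obtain ⟨R, hR⟩ : ∃ R : B, R = hex2.choose := ⟨_, rfl⟩
  rw [← hR] at hx ⊢
  rw [hRI]
  obtain ⟨t, ht, -⟩ := hB.mb R.1 R.2
  obtain ⟨t', ht', -⟩ := hB.mb R' hR'
  refine h3 Γ g Δ R.1 R' t t' hg ht ht' x 0 ?_
  intro p
  by_cases hp : p ∈ L
  · have h6 : Nat.find (hex x R p) = Nat.find (hex 0 ⟨R', hR'⟩ p) :=
      congrFun (hx.trans hn) ⟨p, hp⟩
    have h7 : P x R p (Nat.find (hex x R p)) := Nat.find_spec (hex x R p)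
    have h8 : P 0 ⟨R', hR'⟩ p (Nat.find (hex 0 ⟨R', hR'⟩ p)) :=
      Nat.find_spec (hex 0 ⟨R', hR'⟩ p)
    rw [← h6] at h8
    exact CNT_trans (CNT_symm h7) h8
  · have h6 : ∀ (R : R2), R ∈ B → ∀ x, I g R x p = ∅ := by
      intro R hR x
      rw [eq_empty_iff_forall_notMem]
      intro y hy
      apply hp
      rw [hL]
      exact ⟨R, hR, x, y, hy⟩
    rw [h6 R.1 R.2 x, h6 R' hR' 0]
    exact CNT_empty hA _ _

end Pool.Agent.H566P
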