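import Pool.Agent.H566P.Spec

/-! DERL: the cut intervals carry actions of the stabilisers. -/

set_option autoImplicit false

namespace Pool.Agent.H566P

open Set

theorem DERL_v2 (f : ℕ → ℕ) (i x y : ℕ) : f ∘ v2 i x y = v2 i (f x) (f y) := by
  funext k
  simp only [Function.comp, v2]
  split_ifs <;> rfl

theorem DERL_lt (R : R2) (f : ℕ → ℕ) (x y : ℕ) : lt (pull R f) x y ↔ lt R (f x) (f y) := by
  unfold lt pull
  rw [DERL_v2]

theorem DERL_ac (R : R2) (f : ℕ → ℕ) (n x y : ℕ) :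
    ac (pull R f) n x y ↔ ac R n (f x) (f y) := by
  unfold ac pull
  rw [DERL_v2]

open Classical in
/-- the action in the coordinates given by `f` -/
noncomputable def DERL_t {Γ : Type} (t : Γ → ℕ → ℕ) (f : ℕ → ℕ) : Γ → ℕ → ℕ := fun γ n =>
  if h : ∃ m, f m = t γ (f n) then h.choose else 0

theorem t_DERL (hA : S_ACC) (hL : S_LBF) : S_DERL := by
  intro Γ _ g Δ R t hg hLA x p f hf hr
  obtain ⟨hA1, hA2, -⟩ := hA
  have hlab := (hL Γ g Δ R t hg hLA x).1
  have hmem : ∀ n, lab g R x (f n) = p := by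
    intro n
    have : f n ∈ I g R x p := by rw [← hr]; exact mem_range_self n
    exact this
  have hspec : ∀ γ ∈ stb Δ p, ∀ n, f (DERL_t t f γ n) = t γ (f n) := by
    intro γ hγ n
    have h1 : γ ∈ Δ ∧ sh γ p = p := hγ
    have h2 : lab g R x (t γ (f n)) = p := by
      rw [hlab γ h1.1, hmem, h1.2]
    have h3 : t γ (f n) ∈ range f := by rw [hr]; exact h2
    obtain ⟨m, hm⟩ := h3
    have h4 : ∃ m, f m = t γ (f n) := ⟨m, hm⟩
    unfold DERL_t
    rw [dif_pos h4]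
    exact h4.choose_spec
  have hsub : ∀ γ ∈ stb Δ p, γ ∈ Δ := fun γ hγ => (show γ ∈ Δ ∧ sh γ p = p from hγ).1
  have hlt : ∀ y z, lt (pull (der g (stb Δ p) R) f) y z ↔ lt R (f y) (f z) := by
    intro y z
    rw [DERL_lt]
    exact hA1 _ _ _ _ _
  have hac : ∀ n y z, ac (pull (der g (stb Δ p) R) f) n y z ↔
      g n ∈ stb Δ p ∧ ac R n (f y) (f z) := by
    intro n y z
    rw [DERL_ac]
    exact hA2 _ _ _ _ _ _
  refine ⟨DERL_t t f, ?_, ?_, ?_, ?_, ?_, ?_, ?_⟩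
  · intro y
    rw [hlt]
    exact hLA.irr _
  · intro y z w h1 h2
    rw [hlt] at h1 h2 ⊢
    exact hLA.tr _ _ _ h1 h2
  · intro y z hyz
    rw [hlt, hlt]
    exact hLA.tot _ _ (fun h => hyz (hf h))
  · intro y
    apply hf
    rw [hspec 1 (stb Δ p).one_mem, hLA.one]
  · intro γ hγ δ hδ y
    apply hf
    rw [hspec _ ((stb Δ p).mul_mem hγ hδ), hspec γ hγ, hspec δ hδ,
      hLA.mul γ (hsub γ hγ) δ (hsub δ hδ)]
  · intro γ hγ y z h
    rw [hlt] at h ⊢
    rw [hspec γ hγ, hspec γ hγ]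
    exact hLA.mono γ (hsub γ hγ) _ _ h
  · intro n y z
    rw [hac, hLA.act]
    constructor
    · rintro ⟨h1, -, h3⟩
      refine ⟨h1, hf ?_⟩
      rw [hspec _ h1, h3]
    · rintro ⟨h1, h2⟩
      refine ⟨h1, hsub _ h1, ?_⟩
      rw [← hspec _ h1, h2]

end Pool.Agent.H566P
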