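import Pool.Agent.H566P.Spec

/-! GLU: gluing isomorphisms of the pieces. -/

set_option autoImplicit false

namespace Pool.Agent.H566P

open Set MeasureTheory
open Pool.Agent.H899R2.VP (St Adj PIso BF IsoOn idOn inv comp zipSet)
open Pool.Agent.H533R2.VO (RS lift put OS Ic RIso Dich VC BlkV S_FINAL)

section glu

variable {Γ : Type} [Group Γ]

private theorem GLU_sh_mul (γ δ : Γ) (p : Γ → Bool × Bool) : sh γ (sh δ p) = sh (γ * δ) p := by
  funext ε
  simp only [sh, mul_inv_rev, mul_assoc]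

private theorem GLU_sh_one (p : Γ → Bool × Bool) : sh 1 p = p := by
  funext ε
  simp only [sh, inv_one, one_mul]

private theorem GLU_orb_symm {Δ : Subgroup Γ} {p q : Γ → Bool × Bool} (h : orb Δ p q) :
    orb Δ q p := by
  obtain ⟨γ, hγ, rfl⟩ := h
  exact ⟨γ⁻¹, Δ.inv_mem hγ, by rw [GLU_sh_mul, inv_mul_cancel, GLU_sh_one]⟩

private theorem GLU_orb_trans {Δ : Subgroup Γ} {p q r : Γ → Bool × Bool} (h : orb Δ p q)
    (h' : orb Δ q r) : orb Δ p r := by
  obtain ⟨γ, hγ, rfl⟩ := h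
  obtain ⟨δ, hδ, rfl⟩ := h'
  exact ⟨δ * γ, Δ.mul_mem hδ hγ, by rw [GLU_sh_mul]⟩

private theorem GLU_orb_refl {Δ : Subgroup Γ} (p : Γ → Bool × Bool) : orb Δ p p :=
  ⟨1, Δ.one_mem, GLU_sh_one p⟩

private noncomputable def GLU_rho (Δ : Subgroup Γ) (q : Γ → Bool × Bool) : Γ → Bool × Bool :=
  Classical.epsilon (fun r => orb Δ r q)

private theorem GLU_rho_spec (Δ : Subgroup Γ) (q : Γ → Bool × Bool) : orb Δ (GLU_rho Δ q) q :=
  Classical.epsilon_spec (p := fun r => orb Δ r q) ⟨q, GLU_orb_refl q⟩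

private theorem GLU_rho_eq {Δ : Subgroup Γ} {q r : Γ → Bool × Bool} (h : orb Δ q r) :
    GLU_rho Δ q = GLU_rho Δ r := by
  unfold GLU_rho
  congr 1
  funext s
  exact propext ⟨fun h1 => GLU_orb_trans h1 h, fun h1 => GLU_orb_trans h1 (GLU_orb_symm h)⟩

private theorem GLU_ix {g : ℕ → Γ} (hg : Function.Surjective g) (γ : Γ) : g (ix g γ) = γ := by
  unfold ix
  rw [dif_pos (hg γ)]
  exact (hg γ).choose_spec

end glu

theorem t_GLU (hA : S_ACC) (hL : S_LBF) : S_GLU := by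
  intro Γ _ g Δ R R' t t' hg hR hR' x x' H
  obtain ⟨A1, A2, A3, -, A5, -⟩ := hA
  obtain ⟨L1, L2, -, -, L5, L6⟩ := hL Γ g Δ R t hg hR x
  obtain ⟨L1', L2', -, -, L5', L6'⟩ := hL Γ g Δ R' t' hg hR' x'
  choose Q _ hQ2 hQ3 hQ4 hQ5 using H
  have hs : ∀ q : Γ → Bool × Bool, ∃ s ∈ Δ, sh s (GLU_rho Δ q) = q := fun q => GLU_rho_spec Δ q
  choose s hsΔ hsq using hs
  have hsi : ∀ q, (s q)⁻¹ ∈ Δ := fun q => Δ.inv_mem (hsΔ q)
  have hsq' : ∀ q, sh (s q)⁻¹ q = GLU_rho Δ q := by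
    intro q
    have h1 : sh (s q)⁻¹ (sh (s q) (GLU_rho Δ q)) = GLU_rho Δ q := by
      rw [GLU_sh_mul, inv_mul_cancel, GLU_sh_one]
    rw [hsq q] at h1
    exact h1
  -- cancellation
  have cin : ∀ γ ∈ Δ, ∀ y, t γ (t γ⁻¹ y) = y := by
    intro γ hγ y
    rw [← hR.mul γ hγ _ (Δ.inv_mem hγ), mul_inv_cancel, hR.one]
  have cin2 : ∀ γ ∈ Δ, ∀ y, t γ⁻¹ (t γ y) = y := by
    intro γ hγ y
    rw [← hR.mul _ (Δ.inv_mem hγ) _ hγ, inv_mul_cancel, hR.one]
  have cin' : ∀ γ ∈ Δ, ∀ y, t' γ (t' γ⁻¹ y) = y := by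
    intro γ hγ y
    rw [← hR'.mul γ hγ _ (Δ.inv_mem hγ), mul_inv_cancel, hR'.one]
  have cin2' : ∀ γ ∈ Δ, ∀ y, t' γ⁻¹ (t' γ y) = y := by
    intro γ hγ y
    rw [← hR'.mul _ (Δ.inv_mem hγ) _ hγ, inv_mul_cancel, hR'.one]
  -- the pieces
  have hP : ∀ p, _ := fun p => (A5 _ _ _).1 (hQ3 p)
  set W : Set (ℕ × ℕ) := {w | lab g R x w.1 = lab g R' x' w.2 ∧
    (t (s (lab g R x w.1))⁻¹ w.1, t' (s (lab g R x w.1))⁻¹ w.2) ∈ Q (GLU_rho Δ (lab g R x w.1))}
    with hW
  refine ⟨W, empty_subset _, fun _ _ => ⟨mem_univ _, mem_univ _⟩, ?_, ?_, ?_⟩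
  · rw [A5]
    refine ⟨?_, ?_, ?_, ?_⟩
    · rintro u ⟨hu1, hu2⟩ v ⟨hv1, hv2⟩
      constructor
      · intro huv
        rw [← huv] at hv2
        have h1 := ((hP _).1 _ hu2 _ hv2).1 rfl
        simp only at h1
        have h2 := congrArg (t' (s (lab g R x u.1))) h1
        rwa [cin' _ (hsΔ _), cin' _ (hsΔ _)] at h2
      · intro huv
        have hlab : lab g R x u.1 = lab g R x v.1 := by rw [hu1, hv1, huv]
        rw [← hlab] at hv2
        have h1 := ((hP _).1 _ hu2 _ hv2).2 (by simp only; rw [huv])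
        simp only at h1
        have h2 := congrArg (t (s (lab g R x u.1))) h1
        rwa [cin _ (hsΔ _), cin _ (hsΔ _)] at h2
    · rintro u ⟨hu1, hu2⟩ v ⟨hv1, hv2⟩
      by_cases hlab : lab g R x u.1 = lab g R x v.1
      · rw [← hlab] at hv2
        have h1 := (hP _).2.1 _ hu2 _ hv2
        simp only [der] at h1
        rw [A1, A1, L5 _ (hsi _), L5' _ (hsi _)] at h1
        exact h1
      · rw [L2 _ _ hlab, L2' _ _ (by rw [← hu1, ← hv1]; exact hlab), hu1, hv1]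
    · rintro n u ⟨hu1, hu2⟩ v ⟨hv1, hv2⟩
      rw [hR.act, hR'.act]
      by_cases hn : g n ∈ Δ
      · by_cases hlab : lab g R x v.1 = sh (g n) (lab g R x u.1)
        · have horb : orb Δ (lab g R x u.1) (lab g R x v.1) := ⟨g n, hn, hlab.symm⟩
          have hrho := GLU_rho_eq horb
          set q := lab g R x u.1 with hq
          set q2 := lab g R x v.1 with hq2
          rw [← hrho] at hv2
          set σ : Γ := (s q2)⁻¹ * g n * s q with hσ
          have hσΔ : σ ∈ Δ := Δ.mul_mem (Δ.mul_mem (hsi _) hn) (hsΔ _)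
          have hσs : σ ∈ stb Δ (GLU_rho Δ q) := by
            refine ⟨hσΔ, ?_⟩
            rw [hσ, ← GLU_sh_mul, ← GLU_sh_mul, hsq, ← hlab, hsq', ← hrho]
          have h1 := (hP _).2.2.1 (ix g σ) _ hu2 _ hv2
          simp only [der] at h1
          rw [A2, A2, hR.act, hR'.act, GLU_ix hg] at h1
          have e1 : t σ (t (s q)⁻¹ u.1) = t (s q2)⁻¹ v.1 ↔ t (g n) u.1 = v.1 := by
            have e2 : t σ (t (s q)⁻¹ u.1) = t (s q2)⁻¹ (t (g n) u.1) := by
              rw [← hR.mul _ hσΔ _ (hsi _), ← hR.mul _ (hsi _) _ hn, hσ, mul_inv_cancel_right]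
            rw [e2]
            constructor
            · intro h
              have h2 := congrArg (t (s q2)) h
              rwa [cin _ (hsΔ _), cin _ (hsΔ _)] at h2
            · intro h
              rw [h]
          have e1' : t' σ (t' (s q)⁻¹ u.2) = t' (s q2)⁻¹ v.2 ↔ t' (g n) u.2 = v.2 := by
            have e2 : t' σ (t' (s q)⁻¹ u.2) = t' (s q2)⁻¹ (t' (g n) u.2) := by
              rw [← hR'.mul _ hσΔ _ (hsi _), ← hR'.mul _ (hsi _) _ hn, hσ, mul_inv_cancel_right]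
            rw [e2]
            constructor
            · intro h
              have h2 := congrArg (t' (s q2)) h
              rwa [cin' _ (hsΔ _), cin' _ (hsΔ _)] at h2
            · intro h
              rw [h]
          rw [e1, e1'] at h1
          constructor
          · rintro ⟨_, h2⟩
            exact ⟨hn, (h1.1 ⟨hσs, hσΔ, h2⟩).2.2⟩
          · rintro ⟨_, h2⟩
            exact ⟨hn, (h1.2 ⟨hσs, hσΔ, h2⟩).2.2⟩
        · constructor
          · rintro ⟨_, h2⟩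
            exact absurd (by rw [← h2, L1 _ hn]) hlab
          · rintro ⟨_, h2⟩
            exact absurd (by rw [hv1, hu1, ← h2, L1' _ hn]) hlab
      · exact ⟨fun h => absurd h.1 hn, fun h => absurd h.1 hn⟩
    · rintro i u ⟨hu1, hu2⟩
      set q := lab g R x u.1 with hq
      have h1 := (hP _).2.2.2 (Nat.pair i (ix g (s q))) _ hu2
      simp only [der] at h1
      rw [A3, A3, Nat.unpair_pair] at h1
      simp only at h1
      have e1 : (∃ z, ac R (ix g (s q)) (t (s q)⁻¹ u.1) z ∧ co R i z) ↔ co R i u.1 := by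
        constructor
        · rintro ⟨z, hz, hc⟩
          rw [hR.act, GLU_ix hg, cin _ (hsΔ _)] at hz
          rw [hz.2]
          exact hc
        · intro hc
          refine ⟨u.1, ?_, hc⟩
          rw [hR.act, GLU_ix hg, cin _ (hsΔ _)]
          exact ⟨hsΔ _, rfl⟩
      have e1' : (∃ z, ac R' (ix g (s q)) (t' (s q)⁻¹ u.2) z ∧ co R' i z) ↔ co R' i u.2 := by
        constructor
        · rintro ⟨z, hz, hc⟩
          rw [hR'.act, GLU_ix hg, cin' _ (hsΔ _)] at hz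
          rw [hz.2]
          exact hc
        · intro hc
          refine ⟨u.2, ?_, hc⟩
          rw [hR'.act, GLU_ix hg, cin' _ (hsΔ _)]
          exact ⟨hsΔ _, rfl⟩
      rw [e1, e1'] at h1
      exact h1
  · intro y _
    set q := lab g R x y with hq
    have hy : t (s q)⁻¹ y ∈ I g R x (GLU_rho Δ q) := by
      show lab g R x _ = _
      rw [L1 _ (hsi _), ← hq, hsq']
    obtain ⟨y1, h1⟩ := hQ4 _ _ hy
    have h2 : lab g R' x' y1 = GLU_rho Δ q := (hQ2 _ h1).2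
    refine ⟨t' (s q) y1, ?_, ?_⟩
    · show lab g R x y = lab g R' x' (t' (s q) y1)
      rw [L1' _ (hsΔ _), h2, hsq]
    · show (t (s q)⁻¹ y, t' (s q)⁻¹ (t' (s q) y1)) ∈ Q (GLU_rho Δ q)
      rw [cin2' _ (hsΔ _)]
      exact h1
  · intro y _
    set q := lab g R' x' y with hq
    have hy : t' (s q)⁻¹ y ∈ I g R' x' (GLU_rho Δ q) := by
      show lab g R' x' _ = _
      rw [L1' _ (hsi _), ← hq, hsq']
    obtain ⟨y1, h1⟩ := hQ5 _ _ hy
    have h2 : lab g R x y1 = GLU_rho Δ q := (hQ2 _ h1).1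
    have h3 : lab g R x (t (s q) y1) = q := by
      rw [L1 _ (hsΔ _), h2, hsq]
    refine ⟨t (s q) y1, ?_, ?_⟩
    · show lab g R x (t (s q) y1) = lab g R' x' y
      rw [h3]
    · show (t (s (lab g R x (t (s q) y1)))⁻¹ (t (s q) y1),
        t' (s (lab g R x (t (s q) y1)))⁻¹ y) ∈ Q (GLU_rho Δ (lab g R x (t (s q) y1)))
      rw [h3, cin2 _ (hsΔ _)]
      exact h1

end Pool.Agent.H566P
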