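import Pool.Agent.H566P.Spec

/-! IDX: stabilisers of cuts have infinite index (helper92). -/

set_option autoImplicit false

namespace Pool.Agent.H566P

open Set MeasureTheory
open Pool.Agent.H899R2.VP (St Adj PIso BF IsoOn idOn inv comp zipSet)
open Pool.Agent.H533R2.VO (RS lift put OS Ic RIso Dich VC BlkV S_FINAL)

private theorem IDX_max {Γ : Type} [Group Γ] {g : ℕ → Γ} {Δ : Subgroup Γ} {R : R2}
    {t : Γ → ℕ → ℕ} (h : LA g Δ R t) (F : Finset ℕ) : ∃ M, ∀ m ∈ F, m = M ∨ lt R m M := by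
  classical
  induction F using Finset.induction_on with
  | empty => exact ⟨0, fun m hm => absurd hm (Finset.notMem_empty m)⟩
  | insert a F _ ih =>
    obtain ⟨M, hM⟩ := ih
    by_cases ha : a = M
    · refine ⟨M, fun m hm => ?_⟩
      rcases Finset.mem_insert.1 hm with h1 | h1
      · exact Or.inl (h1.trans ha)
      · exact hM m h1
    · rcases h.tot a M ha with h1 | h1
      · refine ⟨M, fun m hm => ?_⟩
        rcases Finset.mem_insert.1 hm with h2 | h2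
        · exact Or.inr (h2 ▸ h1)
        · exact hM m h2
      · refine ⟨a, fun m hm => ?_⟩
        rcases Finset.mem_insert.1 hm with h2 | h2
        · exact Or.inl h2
        · rcases hM m h2 with h3 | h3
          · exact Or.inr (h3 ▸ h1)
          · exact Or.inr (h.tr _ _ _ h3 h1)

theorem t_IDX (hL : S_LBF) : S_IDX := by
  intro Γ _ g Δ R t hg hLA hub x y
  obtain ⟨h1, _, h3, _, h5, _⟩ := hL Γ g Δ R t hg hLA x
  refine ⟨fun γ h => h.1, ?_⟩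
  by_contra hne
  set S := stb Δ (lab g R x y) with hS
  have hfi : (S.subgroupOf Δ).FiniteIndex := ⟨hne⟩
  have hfin : Finite (Δ ⧸ (S.subgroupOf Δ)) := Subgroup.finite_quotient_of_finiteIndex
  obtain ⟨⟨δ, hδ, hyδ⟩, _⟩ := hub x y
  obtain ⟨M, hM⟩ := IDX_max hLA
    ((Set.finite_range (fun q : Δ ⧸ (S.subgroupOf Δ) => t ((q.out : Δ) * δ : Γ) x)).toFinset)
  obtain ⟨⟨γ, hγ, hMγ⟩, _⟩ := hub y M
  -- the representative of the coset of γ
  obtain ⟨h, hh⟩ := QuotientGroup.mk_out_eq_mul (S.subgroupOf Δ) ⟨γ, hγ⟩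
  set q : Δ ⧸ (S.subgroupOf Δ) := QuotientGroup.mk ⟨γ, hγ⟩ with hq
  have hσ : ((h : Δ) : Γ) ∈ S := Subgroup.mem_subgroupOf.1 h.2
  have hout : ((q.out : Δ) : Γ) = γ * ((h : Δ) : Γ) := by
    rw [hh]
    rfl
  have hσ' : (((h : Δ) : Γ))⁻¹ ∈ S := S.inv_mem hσ
  have hσΔ : (((h : Δ) : Γ))⁻¹ ∈ Δ := hσ'.1
  have hlab : lab g R x (t (((h : Δ) : Γ))⁻¹ y) = lab g R x y := by
    rw [h1 _ hσΔ y]
    exact hσ'.2
  have hoΔ : ((q.out : Δ) : Γ) ∈ Δ := (q.out : Δ).2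
  have hγe : t γ y = t ((q.out : Δ) : Γ) (t (((h : Δ) : Γ))⁻¹ y) := by
    rw [← hLA.mul _ hoΔ _ hσΔ, hout, mul_inv_cancel_right]
  have hkey : ¬ lt R (t ((q.out : Δ) * δ : Γ) x) (t γ y) := by
    intro hlt
    rw [hγe, hLA.mul _ hoΔ _ hδ, h5 _ hoΔ] at hlt
    have h6 : (lab g R x (t (((h : Δ) : Γ))⁻¹ y) δ).1 = true :=
      ((h3 _ δ).1).2 ⟨hδ, hlt⟩
    rw [hlab] at h6
    have h7 := (((h3 y δ).1).1 h6).2
    exact hLA.irr _ (hLA.tr _ _ _ hyδ h7)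
  have hmem : t ((q.out : Δ) * δ : Γ) x ∈
      (Set.finite_range (fun q : Δ ⧸ (S.subgroupOf Δ) => t ((q.out : Δ) * δ : Γ) x)).toFinset := by
    rw [Set.Finite.mem_toFinset]
    exact ⟨q, rfl⟩
  rcases hM _ hmem with h8 | h8
  · exact hkey (h8 ▸ hMγ)
  · exact hkey (hLA.tr _ _ _ h8 hMγ)

end Pool.Agent.H566P
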