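import Pool.Agent.H566P.Spec

set_option autoImplicit false

namespace Pool.Agent.H566P

theorem t_IND (h1 : S_VCM) (h2 : S_SH) : S_IND := by
  intro Γ _ g hg hwf Δ
  induction Δ using hwf.induction with
  | _ Δ ih => exact h2 Γ g Δ hg (h1 Γ g Δ hg (fun Δ' h => ih Δ' h))

end Pool.Agent.H566P
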