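import Pool.Agent.H566P.Spec
import Pool.Agent.H565R2.FO2.USec

/-! Task LABC: countably many labels. -/

set_option autoImplicit false

namespace Pool.Agent.H566P

open Set MeasureTheory
open Pool.Agent.H533R2.VO (RS lift put OS Ic RIso Dich VC BlkV S_FINAL)

theorem LABC_meas (hA : S_ACC) {Γ : Type} [Group Γ] [Countable Γ] (g : ℕ → Γ) (x y : ℕ) :
    Measurable (fun R : R2 => lab g R x y) := by
  obtain ⟨-, -, -, -, -, -, -, hlt, hac, -, -, -⟩ := hA
  rw [measurable_pi_iff]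
  intro γ
  refine Measurable.prodMk ?_ ?_
  · apply measurable_to_bool
    have e : (fun R : R2 => (lab g R x y γ).1) ⁻¹' {true} =
        ⋃ n : ℕ, ⋃ z : ℕ, ⋃ _ : g n = γ, {R : R2 | ac R n x z} ∩ {R : R2 | lt R z y} := by
      ext R
      simp only [lab, mem_preimage, mem_singleton_iff, decide_eq_true_eq, mem_iUnion,
        mem_inter_iff, Set.mem_ofPred_eq, exists_prop]
    show MeasurableSet ((fun R : R2 => (lab g R x y γ).1) ⁻¹' {true})
    rw [e]
    exact MeasurableSet.iUnion fun n => MeasurableSet.iUnion fun z =>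
      MeasurableSet.iUnion fun _ => (hac n x z).inter (hlt z y)
  · apply measurable_to_bool
    have e : (fun R : R2 => (lab g R x y γ).2) ⁻¹' {true} =
        ⋃ n : ℕ, ⋃ _ : g n = γ, {R : R2 | ac R n x y} := by
      ext R
      simp only [lab, mem_preimage, mem_singleton_iff, decide_eq_true_eq, mem_iUnion,
        Set.mem_ofPred_eq, exists_prop]
    show MeasurableSet ((fun R : R2 => (lab g R x y γ).2) ⁻¹' {true})
    rw [e]
    exact MeasurableSet.iUnion fun n => MeasurableSet.iUnion fun _ => hac n x y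

theorem LABC_iso (hA : S_ACC) {Γ : Type} [Group Γ] (g : ℕ → Γ) {R R' : R2} (h : RIso R R')
    (x y : ℕ) : ∃ x' y', lab g R x y = lab g R' x' y' := by
  obtain ⟨-, -, -, -, -, hiso, -, -, -, -, -, -⟩ := hA
  obtain ⟨σ, h1, h2, -⟩ := (hiso R R').1 h
  refine ⟨σ x, σ y, ?_⟩
  funext γ
  unfold lab
  have e1 : (∃ n z, g n = γ ∧ ac R n x z ∧ lt R z y) ↔
      (∃ n z, g n = γ ∧ ac R' n (σ x) z ∧ lt R' z (σ y)) := by
    constructor
    · rintro ⟨n, z, h3, h4, h5⟩
      exact ⟨n, σ z, h3, (h2 n x z).2 h4, (h1 z y).2 h5⟩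
    · rintro ⟨n, z, h3, h4, h5⟩
      refine ⟨n, σ.symm z, h3, (h2 n x _).1 ?_, (h1 _ y).1 ?_⟩
      · rw [Equiv.apply_symm_apply]; exact h4
      · rw [Equiv.apply_symm_apply]; exact h5
  have e2 : (∃ n, g n = γ ∧ ac R n x y) ↔ (∃ n, g n = γ ∧ ac R' n (σ x) (σ y)) := by
    constructor
    · rintro ⟨n, h3, h4⟩
      exact ⟨n, h3, (h2 n x y).2 h4⟩
    · rintro ⟨n, h3, h4⟩
      exact ⟨n, h3, (h2 n x y).1 h4⟩
  exact Prod.ext (decide_eq_decide.2 e1) (decide_eq_decide.2 e2)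

theorem t_LABC (hA : S_ACC) : S_LABC := by
  intro Γ _ g Δ α B hg hB
  have hc : Countable Γ := hg.countable
  have hS : StandardBorelSpace B := hB.meas.standardBorel
  have hU : {p | ∃ R ∈ B, ∃ x y, lab g R x y = p} =
      ⋃ i : ℕ × ℕ, Set.range (fun R : B => lab g R.1 i.1 i.2) := by
    ext p
    simp only [Set.mem_ofPred_eq, mem_iUnion, mem_range, Prod.exists, Subtype.exists]
    constructor
    · rintro ⟨R, hR, x, y, h⟩
      exact ⟨x, y, R, hR, h⟩
    · rintro ⟨x, y, R, hR, h⟩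
      exact ⟨R, hR, x, y, h⟩
  rw [hU]
  by_contra hunc
  obtain ⟨h, hcont, hh⟩ := Pool.Agent.H565R2.FO2.perfect_of_uncountable (Y := B) (X := R2)
    (fun R => R.1) measurable_subtype_coe (fun (i : ℕ × ℕ) (R : B) => lab g R.1 i.1 i.2)
    (fun i => (LABC_meas hA g i.1 i.2).comp measurable_subtype_coe)
    (fun R R' => RIso R.1 R'.1)
    (fun R R' hRR i => by
      obtain ⟨x', y', h⟩ := LABC_iso hA g hRR i.1 i.2
      exact ⟨(x', y'), h⟩) hunc
  apply hB.few
  refine ⟨fun x => (h x).1, hcont, fun x => (h x).2, fun x y hxy => ?_⟩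
  by_contra hne
  exact hh x y hne hxy

end Pool.Agent.H566P
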