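import Pool.Agent.H566P.Spec

/-! LBF (helper85): facts on labels. -/

set_option autoImplicit false

namespace Pool.Agent.H566P

variable {Γ : Type} [Group Γ] {g : ℕ → Γ} {Δ : Subgroup Γ} {R : R2} {t : Γ → ℕ → ℕ}

private theorem LBF_3a (hg : Function.Surjective g) (h : LA g Δ R t) (x y : ℕ) (γ : Γ) :
    (lab g R x y γ).1 = true ↔ γ ∈ Δ ∧ lt R (t γ x) y := by
  unfold lab
  simp only [decide_eq_true_eq]
  constructor
  · rintro ⟨n, z, rfl, h1, h2⟩
    obtain ⟨h3, rfl⟩ := (h.act n x z).1 h1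
    exact ⟨h3, h2⟩
  · rintro ⟨h1, h2⟩
    obtain ⟨n, rfl⟩ := hg γ
    exact ⟨n, _, rfl, (h.act n x _).2 ⟨h1, rfl⟩, h2⟩

private theorem LBF_3b (hg : Function.Surjective g) (h : LA g Δ R t) (x y : ℕ) (γ : Γ) :
    (lab g R x y γ).2 = true ↔ γ ∈ Δ ∧ t γ x = y := by
  unfold lab
  simp only [decide_eq_true_eq]
  constructor
  · rintro ⟨n, rfl, h1⟩
    exact (h.act n x y).1 h1
  · rintro ⟨h1, h2⟩
    obtain ⟨n, rfl⟩ := hg γ
    exact ⟨n, rfl, (h.act n x y).2 ⟨h1, h2⟩⟩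

private theorem LBF_inv (h : LA g Δ R t) {γ : Γ} (hγ : γ ∈ Δ) (y : ℕ) : t γ⁻¹ (t γ y) = y := by
  rw [← h.mul _ (Δ.inv_mem hγ) _ hγ, inv_mul_cancel, h.one]

private theorem LBF_inv' (h : LA g Δ R t) {γ : Γ} (hγ : γ ∈ Δ) (y : ℕ) : t γ (t γ⁻¹ y) = y := by
  rw [← h.mul _ hγ _ (Δ.inv_mem hγ), mul_inv_cancel, h.one]

private theorem LBF_5 (h : LA g Δ R t) {γ : Γ} (hγ : γ ∈ Δ) (y z : ℕ) :
    lt R (t γ y) (t γ z) ↔ lt R y z := by
  constructor
  · intro h1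
    have h2 := h.mono _ (Δ.inv_mem hγ) _ _ h1
    rwa [LBF_inv h hγ, LBF_inv h hγ] at h2
  · exact h.mono _ hγ _ _

private theorem LBF_6 (h : LA g Δ R t) {γ : Γ} (hγ : γ ∈ Δ) (y z : ℕ) :
    t γ y = z ↔ y = t γ⁻¹ z := by
  constructor
  · rintro rfl
    rw [LBF_inv h hγ]
  · rintro rfl
    rw [LBF_inv' h hγ]

private theorem LBF_1 (hg : Function.Surjective g) (h : LA g Δ R t) (x : ℕ) {γ : Γ} (hγ : γ ∈ Δ)
    (y : ℕ) : lab g R x (t γ y) = sh γ (lab g R x y) := by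
  funext δ
  have hm : γ⁻¹ * δ ∈ Δ ↔ δ ∈ Δ := Δ.mul_mem_cancel_left (Δ.inv_mem hγ)
  have key : δ ∈ Δ → t (γ⁻¹ * δ) x = t γ⁻¹ (t δ x) := fun hδ =>
    h.mul _ (Δ.inv_mem hγ) _ hδ x
  refine Prod.ext ?_ ?_
  · show (lab g R x (t γ y) δ).1 = (lab g R x y (γ⁻¹ * δ)).1
    rw [Bool.eq_iff_iff, LBF_3a hg h, LBF_3a hg h, hm]
    refine and_congr_right fun hδ => ?_
    rw [key hδ, ← LBF_5 h hγ (t γ⁻¹ (t δ x)) y, LBF_inv' h hγ]
  · show (lab g R x (t γ y) δ).2 = (lab g R x y (γ⁻¹ * δ)).2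
    rw [Bool.eq_iff_iff, LBF_3b hg h, LBF_3b hg h, hm]
    refine and_congr_right fun hδ => ?_
    rw [key hδ, eq_comm, LBF_6 h hγ, eq_comm]

private theorem LBF_2 (hg : Function.Surjective g) (h : LA g Δ R t) (x y z : ℕ)
    (hne : lab g R x y ≠ lab g R x z) :
    lt R y z ↔ prec Δ (lab g R x y) (lab g R x z) := by
  constructor
  · intro hyz
    by_cases h1 : ∃ δ, (lab g R x y δ).1 ≠ (lab g R x z δ).1
    · obtain ⟨δ, hδ⟩ := h1
      have h2 : (lab g R x y δ).1 = true → (lab g R x z δ).1 = true := by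
        rw [LBF_3a hg h, LBF_3a hg h]
        exact fun h3 => ⟨h3.1, h.tr _ _ _ h3.2 hyz⟩
      have h3 : (lab g R x y δ).1 = false := by
        rw [Bool.eq_false_iff]
        intro h4
        exact hδ (h4.trans (h2 h4).symm)
      have h4 : (lab g R x z δ).1 = true := by
        by_contra h5
        rw [Bool.not_eq_true] at h5
        exact hδ (h3.trans h5.symm)
      exact ⟨δ, ((LBF_3a hg h _ _ _).1 h4).1, Or.inl ⟨h3, h4⟩⟩
    · push Not at h1
      obtain ⟨δ, hδ⟩ : ∃ δ, (lab g R x y δ).2 ≠ (lab g R x z δ).2 := by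
        by_contra h2
        push Not at h2
        exact hne (funext fun δ => Prod.ext (h1 δ) (h2 δ))
      have h2 : (lab g R x y δ).2 = false := by
        rw [Bool.eq_false_iff]
        intro h3
        obtain ⟨h4, h5⟩ := (LBF_3b hg h _ _ _).1 h3
        have h6 : (lab g R x z δ).1 = true := (LBF_3a hg h _ _ _).2 ⟨h4, by rw [h5]; exact hyz⟩
        rw [← h1 δ] at h6
        have h7 := ((LBF_3a hg h _ _ _).1 h6).2
        rw [h5] at h7
        exact h.irr _ h7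
      have h3 : (lab g R x z δ).2 = true := by
        by_contra h5
        rw [Bool.not_eq_true] at h5
        exact hδ (h2.trans h5.symm)
      obtain ⟨h4, h5⟩ := (LBF_3b hg h _ _ _).1 h3
      have h6 : (lab g R x y δ).1 = false := by
        rw [h1 δ, Bool.eq_false_iff]
        intro h7
        have h8 := ((LBF_3a hg h _ _ _).1 h7).2
        rw [h5] at h8
        exact h.irr _ h8
      exact ⟨δ, h4, Or.inr ⟨Prod.ext h6 h2, h3⟩⟩
  · rintro ⟨δ, hδ, ⟨h1, h2⟩ | ⟨h1, h2⟩⟩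
    · have h3 := ((LBF_3a hg h _ _ _).1 h2).2
      have h4 : ¬ lt R (t δ x) y := fun h5 => by
        rw [(LBF_3a hg h x y δ).2 ⟨hδ, h5⟩] at h1
        exact Bool.noConfusion h1
      by_cases h5 : t δ x = y
      · rwa [h5] at h3
      · rcases h.tot _ _ h5 with h6 | h6
        · exact absurd h6 h4
        · exact h.tr _ _ _ h6 h3
    · have h3 := ((LBF_3b hg h _ _ _).1 h2).2
      have h4 : ¬ lt R (t δ x) y := fun h5 => by
        have h6 := (LBF_3a hg h x y δ).2 ⟨hδ, h5⟩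
        rw [h1] at h6
        exact Bool.noConfusion h6
      have h5 : t δ x ≠ y := fun h5 => by
        have h6 := (LBF_3b hg h x y δ).2 ⟨hδ, h5⟩
        rw [h1] at h6
        exact Bool.noConfusion h6
      rcases h.tot _ _ h5 with h6 | h6
      · exact absurd h6 h4
      · rwa [h3] at h6

theorem t_LBF (_hA : S_ACC) : S_LBF := by
  intro Γ _ g Δ R t hg h x
  refine ⟨fun γ hγ y => LBF_1 hg h x hγ y, fun y z hne => LBF_2 hg h x y z hne,
    fun y γ => ⟨LBF_3a hg h x y γ, LBF_3b hg h x y γ⟩, ?_, fun γ hγ y z => LBF_5 h hγ y z,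
    fun γ hγ y z => LBF_6 h hγ y z⟩
  intro y z γ h1 h2
  have h3 := ((LBF_3b hg h x y γ).1 h1).2
  rw [← h2] at h1
  have h4 := ((LBF_3b hg h x z γ).1 h1).2
  rw [← h3, ← h4]

end Pool.Agent.H566P
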