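import Pool.Agent.H566P.Spec
import Pool.Agent.H533R2.VO.MEAS1

set_option autoImplicit false

/-! MSG: measurability of the back-and-forth relations. -/

namespace Pool.Agent.H566P

open Set
open Pool.Agent.H899R2.VP

theorem t_MSG : S_MSG := by
  intro a N Y Ω _ Φ Z hΦ hZ β
  induction β using WellFoundedLT.induction with
  | ind β ih =>
    intro hβ p
    have hc : Countable (Iio β) := Dst.countable_Iio hβ
    have h1 : {ω : Ω | BF N (Φ ω) Y (Z ω) β p} = {ω : Ω | PIso N (Φ ω) p} ∩ ⋂ o : Iio β,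
        ((⋂ x : ℕ, ⋂ _ : x ∈ Y, ⋃ y : ℕ, {ω : Ω | y ∈ Z ω} ∩
          {ω : Ω | BF N (Φ ω) Y (Z ω) o.1 (insert (x, y) p)}) ∩
        (⋂ y : ℕ, ({ω : Ω | y ∈ Z ω}ᶜ ∪ ⋃ x : ℕ, ⋃ _ : x ∈ Y,
          {ω : Ω | BF N (Φ ω) Y (Z ω) o.1 (insert (x, y) p)}))) := by
      ext ω
      constructor
      · intro h
        have h' : BF N (Φ ω) Y (Z ω) β p := h
        refine ⟨h'.piso, mem_iInter.2 fun o => ⟨?_, ?_⟩⟩
        · refine mem_iInter.2 fun x => mem_iInter.2 fun hx => ?_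
          obtain ⟨y, hy, hb⟩ := h'.forth o.2 hx
          exact mem_iUnion.2 ⟨y, hy, hb⟩
        · refine mem_iInter.2 fun y => ?_
          by_cases hy : y ∈ Z ω
          · obtain ⟨x, hx, hb⟩ := h'.back o.2 hy
            exact Or.inr (mem_iUnion.2 ⟨x, mem_iUnion.2 ⟨hx, hb⟩⟩)
          · exact Or.inl hy
      · rintro ⟨h2, h3⟩
        show BF N (Φ ω) Y (Z ω) β p
        rw [BF_iff]
        refine ⟨h2, fun o' ho' => ?_⟩
        obtain ⟨h4, h5⟩ := mem_iInter.1 h3 ⟨o', ho'⟩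
        refine ⟨fun x hx => ?_, fun y hy => ?_⟩
        · obtain ⟨y, hy, hb⟩ := mem_iUnion.1 (mem_iInter.1 (mem_iInter.1 h4 x) hx)
          exact ⟨y, hy, hb⟩
        · rcases mem_iInter.1 h5 y with h6 | h6
          · exact (h6 hy).elim
          · obtain ⟨x, hx⟩ := mem_iUnion.1 h6
            obtain ⟨hx1, hx2⟩ := mem_iUnion.1 hx
            exact ⟨x, hx1, hx2⟩
    rw [h1]
    have h2 : ∀ (o : Iio β) (q : Set (ℕ × ℕ)),
        MeasurableSet {ω : Ω | BF N (Φ ω) Y (Z ω) o.1 q} :=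
      fun o q => ih o.1 o.2 (lt_trans o.2 hβ) q
    have h0 : MeasurableSet {ω : Ω | PIso N (Φ ω) p} :=
      hΦ (Pool.Agent.H533R2.VO.meas1_piso N p)
    refine h0.inter (MeasurableSet.iInter fun o => MeasurableSet.inter ?_ ?_)
    · exact MeasurableSet.iInter fun x => MeasurableSet.iInter fun _ =>
        MeasurableSet.iUnion fun y => (hZ y).inter (h2 o _)
    · exact MeasurableSet.iInter fun y => (hZ y).compl.union
        (MeasurableSet.iUnion fun x => MeasurableSet.iUnion fun _ => h2 o _)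

end Pool.Agent.H566P
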