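import Pool.Agent.H566P.Spec

/-! Task OUT of project H566P: the final form. -/

set_option autoImplicit false

namespace Pool.Agent.H566P

open Set MeasureTheory
open Pool.Agent.H899R2.VP (St Adj PIso BF IsoOn idOn inv comp zipSet)
open Pool.Agent.H533R2.VO (RS lift put OS Ic RIso Dich VC BlkV S_FINAL)

/-- the code of a structure -/
noncomputable def OUT_code {Γ : Type} (g : ℕ → Γ) (x : XG Γ) : R2 :=
  mk (fun m n => x.1 m n = true) (fun k m n => x.2.1 (g k) m = n) (fun i m => x.2.2 i m = true)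

section

variable {Γ : Type} {g : ℕ → Γ}

theorem OUT_lt (hA : S_ACC) (x : XG Γ) (m n : ℕ) : lt (OUT_code g x) m n ↔ x.1 m n = true :=
  hA.1 _ _ _ m n

theorem OUT_ac (hA : S_ACC) (x : XG Γ) (k m n : ℕ) :
    ac (OUT_code g x) k m n ↔ x.2.1 (g k) m = n := hA.2.1 _ _ _ k m n

theorem OUT_co (hA : S_ACC) (x : XG Γ) (i m : ℕ) : co (OUT_code g x) i m ↔ x.2.2 i m = true :=
  hA.2.2.1 _ _ _ i m

theorem OUT_beq {a b : Bool} (h : a = true ↔ b = true) : a = b := Bool.eq_iff_iff.2 h

theorem OUT_inj (hA : S_ACC) (hg : Function.Surjective g) :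
    Function.Injective (OUT_code g : XG Γ → R2) := by
  intro x y h
  have h1 : x.1 = y.1 := by
    funext m n
    apply OUT_beq
    rw [← OUT_lt hA (g := g) x, ← OUT_lt hA (g := g) y, h]
  have h2 : x.2.1 = y.2.1 := by
    funext γ m
    obtain ⟨k, rfl⟩ := hg γ
    have h3 : ac (OUT_code g x) k m (x.2.1 (g k) m) := (OUT_ac hA x k m _).2 rfl
    rw [h] at h3
    exact ((OUT_ac hA y k m _).1 h3).symm
  have h3 : x.2.2 = y.2.2 := by
    funext i m
    apply OUT_beq
    rw [← OUT_co hA (g := g) x, ← OUT_co hA (g := g) y, h]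
  exact Prod.ext h1 (Prod.ext h2 h3)

theorem OUT_meas (hA : S_ACC) : Measurable (OUT_code g : XG Γ → R2) := by
  refine hA.2.2.2.2.2.2.2.2.2.2.1 (XG Γ) (OUT_code g) ?_ ?_ ?_
  · intro m n
    have e : {ω : XG Γ | lt (OUT_code g ω) m n} = (fun ω : XG Γ => ω.1 m n) ⁻¹' {true} := by
      ext ω
      exact OUT_lt hA ω m n
    rw [e]
    have h : Measurable (fun ω : XG Γ => ω.1 m n) :=
      (measurable_pi_apply n).comp ((measurable_pi_apply m).comp measurable_fst)
    exact h (measurableSet_singleton _)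
  · intro k m n
    have e : {ω : XG Γ | ac (OUT_code g ω) k m n} = (fun ω : XG Γ => ω.2.1 (g k) m) ⁻¹' {n} := by
      ext ω
      exact OUT_ac hA ω k m n
    rw [e]
    have h : Measurable (fun ω : XG Γ => ω.2.1 (g k) m) :=
      (measurable_pi_apply m).comp ((measurable_pi_apply (g k)).comp
        (measurable_fst.comp measurable_snd))
    exact h (measurableSet_singleton _)
  · intro i m
    have e : {ω : XG Γ | co (OUT_code g ω) i m} = (fun ω : XG Γ => ω.2.2 i m) ⁻¹' {true} := by
      ext ω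
      exact OUT_co hA ω i m
    rw [e]
    have h : Measurable (fun ω : XG Γ => ω.2.2 i m) :=
      (measurable_pi_apply m).comp ((measurable_pi_apply i).comp
        (measurable_snd.comp measurable_snd))
    exact h (measurableSet_singleton _)

theorem OUT_iso (hA : S_ACC) (hg : Function.Surjective g) (x y : XG Γ) :
    RIso (OUT_code g x) (OUT_code g y) ↔ ∃ σ : Equiv.Perm ℕ, Isom σ x y := by
  rw [hA.2.2.2.2.2.1]
  refine exists_congr fun σ => ?_
  simp only [OUT_lt hA, OUT_ac hA, OUT_co hA]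
  constructor
  · rintro ⟨h1, h2, h3⟩
    refine ⟨fun m n => OUT_beq (h1 m n), fun γ m => ?_, fun i m => OUT_beq (h3 i m)⟩
    obtain ⟨k, rfl⟩ := hg γ
    exact (h2 k m _).2 rfl
  · rintro ⟨h1, h2, h3⟩
    refine ⟨fun m n => by rw [h1], fun k m n => ?_, fun i m => by rw [h3]⟩
    rw [h2]
    exact σ.injective.eq_iff

theorem OUT_rsymm {R R' : R2} (h : RIso R R') : RIso R' R := by
  obtain ⟨σ, hσ⟩ := h
  refine ⟨σ.symm, fun i v => ?_⟩
  have h1 := hσ i (⇑σ.symm ∘ v)
  have e : (⇑σ ∘ (⇑σ.symm ∘ v)) = v := by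
    funext k
    exact σ.apply_symm_apply (v k)
  rw [e] at h1
  exact h1.symm

/-- transport of a structure -/
def OUT_tr (σ : Equiv.Perm ℕ) (x : XG Γ) : XG Γ :=
  (fun m n => x.1 (σ.symm m) (σ.symm n), fun γ m => σ (x.2.1 γ (σ.symm m)),
    fun i m => x.2.2 i (σ.symm m))

theorem OUT_tr_isom (σ : Equiv.Perm ℕ) (x : XG Γ) : Isom σ x (OUT_tr σ x) := by
  refine ⟨fun m n => ?_, fun γ m => ?_, fun i m => ?_⟩
  · show x.1 (σ.symm (σ m)) (σ.symm (σ n)) = x.1 m n
    rw [σ.symm_apply_apply, σ.symm_apply_apply]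
  · show σ (x.2.1 γ (σ.symm (σ m))) = σ (x.2.1 γ m)
    rw [σ.symm_apply_apply]
  · show x.2.2 i (σ.symm (σ m)) = x.2.2 i m
    rw [σ.symm_apply_apply]

theorem OUT_inv (hA : S_ACC) (hg : Function.Surjective g) (x : XG Γ) (R : R2)
    (h : RIso (OUT_code g x) R) : ∃ σ : Equiv.Perm ℕ, ∃ y : XG Γ, Isom σ x y ∧
      OUT_code g y = R := by
  obtain ⟨σ, h1, h2, h3⟩ := (hA.2.2.2.2.2.1 _ _).1 h
  simp only [OUT_lt hA, OUT_ac hA, OUT_co hA] at h1 h2 h3
  refine ⟨σ, OUT_tr σ x, OUT_tr_isom σ x, ?_⟩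
  refine hA.2.2.2.1 _ _ (fun m n => ?_) (fun k m n => ?_) (fun i m => ?_)
  · rw [OUT_lt hA]
    show x.1 (σ.symm m) (σ.symm n) = true ↔ _
    rw [← h1, σ.apply_symm_apply, σ.apply_symm_apply]
  · rw [OUT_ac hA]
    show σ (x.2.1 (g k) (σ.symm m)) = n ↔ _
    rw [← Equiv.eq_symm_apply, ← h2, σ.apply_symm_apply, σ.apply_symm_apply]
  · rw [OUT_co hA]
    show x.2.2 i (σ.symm m) = true ↔ _
    rw [← h3, σ.apply_symm_apply]

theorem OUT_LL (hA : S_ACC) [Group Γ] (x : XG Γ) (h : LO x) : LL g ⊤ (OUT_code g x) := by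
  refine ⟨x.2.1, ?_, ?_, ?_, h.one, fun γ _ δ _ m => h.mul γ δ m, ?_, ?_⟩
  · intro m
    rw [OUT_lt hA, h.irr]
    simp
  · intro m n k
    simp only [OUT_lt hA]
    exact h.tr m n k
  · intro m n hmn
    simp only [OUT_lt hA]
    exact h.tot m n hmn
  · intro γ _ m n
    simp only [OUT_lt hA]
    exact h.mono γ m n
  · intro k m n
    rw [OUT_ac hA]
    exact ⟨fun h => ⟨Subgroup.mem_top _, h⟩, fun h => h.2⟩

theorem OUT_clopen {c : (ℕ → Bool) → R2} (hc : Continuous c) (i : ℕ) (v : Fin (ar i) → ℕ) :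
    IsClopen {A | c A i v = true} := by
  have h : Continuous (fun A => c A i v) :=
    (continuous_apply v).comp ((continuous_apply i).comp hc)
  exact (isClopen_discrete {true}).preimage h

end

theorem t_OUT (hA : S_ACC) (hI : S_IND) : S_OUT := by
  classical
  intro Γ _ _ hwf B hB hLO hinv
  obtain ⟨g, hg⟩ := exists_surjective_nat Γ
  have hinj := OUT_inj hA hg
  set B1 : Set R2 := OUT_code g '' B with hB1
  have hB1m : MeasurableSet B1 :=
    hB.image_of_measurable_injOn (OUT_meas hA) (hinj.injOn)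
  have hone : ∀ R R' : R2, RIso R R' → R ∈ B1 → R' ∈ B1 := by
    rintro R R' h ⟨x, hx, rfl⟩
    obtain ⟨σ, y, hy, hyR⟩ := OUT_inv hA hg x R' h
    exact ⟨y, hinv x hx y σ hy, hyR⟩
  have hV := hI Γ g hg hwf ⊤ B1 hB1m
    (fun R R' h => ⟨hone R R' h, hone R' R (OUT_rsymm h)⟩)
    (by
      rintro R ⟨x, hx, rfl⟩
      exact OUT_LL hA x (hLO x hx))
  rcases hV with ⟨f, hf⟩ | ⟨c, hc, hcB, hcI⟩
  · left
    have hch : ∀ n, ∃ x : XG Γ, f n ∈ B1 → OUT_code g x = f n := by
      intro n
      by_cases h : f n ∈ B1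
      · obtain ⟨x, -, hx⟩ := h
        exact ⟨x, fun _ => hx⟩
      · exact ⟨(fun _ _ => false, fun _ _ => 0, fun _ _ => false), fun h' => absurd h' h⟩
    choose f' hf' using hch
    refine ⟨f', fun x hx => ?_⟩
    obtain ⟨n, hn⟩ := hf (OUT_code g x) ⟨x, hx, rfl⟩
    have hfn : f n ∈ B1 := hone _ _ (OUT_rsymm hn) ⟨x, hx, rfl⟩
    refine ⟨n, (OUT_iso hA hg _ _).1 ?_⟩
    rw [hf' n hfn]
    exact hn
  · right
    choose X hXB hXc using hcB
    refine ⟨X, ?_, hXB, ?_⟩
    · have h1 : Continuous (fun A => (X A).1) := by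
        refine continuous_pi fun m => continuous_pi fun n => ?_
        refine continuous_discrete_rng.2 fun b => ?_
        have hcl : IsClopen {A | (X A).1 m n = true} := by
          have e : {A | (X A).1 m n = true} = {A | c A 0 (v2 0 m n) = true} := by
            ext A
            show (X A).1 m n = true ↔ lt (c A) m n
            rw [← hXc A, OUT_lt hA]
          rw [e]
          exact OUT_clopen hc _ _
        cases b with
        | true => exact hcl.isOpen
        | false =>
          have e : (fun A => (X A).1 m n) ⁻¹' {false} = {A | (X A).1 m n = true}ᶜ := by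
            ext A
            simp
          rw [e]
          exact hcl.compl.isOpen
      have h2 : Continuous (fun A => (X A).2.1) := by
        refine continuous_pi fun γ => continuous_pi fun m => ?_
        refine continuous_discrete_rng.2 fun n => ?_
        obtain ⟨k, rfl⟩ := hg γ
        have e : (fun A => (X A).2.1 (g k) m) ⁻¹' {n} =
            {A | c A (2 * k + 1) (v2 (2 * k + 1) m n) = true} := by
          ext A
          show (X A).2.1 (g k) m = n ↔ ac (c A) k m n
          rw [← hXc A, OUT_ac hA]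
        rw [e]
        exact (OUT_clopen hc _ _).isOpen
      have h3 : Continuous (fun A => (X A).2.2) := by
        refine continuous_pi fun i => continuous_pi fun m => ?_
        refine continuous_discrete_rng.2 fun b => ?_
        have hcl : IsClopen {A | (X A).2.2 i m = true} := by
          have e : {A | (X A).2.2 i m = true} =
              {A | c A (2 * i + 2) (v2 (2 * i + 2) m m) = true} := by
            ext A
            show (X A).2.2 i m = true ↔ co (c A) i m
            rw [← hXc A, OUT_co hA]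
          rw [e]
          exact OUT_clopen hc _ _
        cases b with
        | true => exact hcl.isOpen
        | false =>
          have e : (fun A => (X A).2.2 i m) ⁻¹' {false} = {A | (X A).2.2 i m = true}ᶜ := by
            ext A
            simp
          rw [e]
          exact hcl.compl.isOpen
      exact h1.prodMk (h2.prodMk h3)
    · intro A A' h
      apply hcI
      rw [← hXc A, ← hXc A']
      exact (OUT_iso hA hg _ _).2 h

end Pool.Agent.H566P
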