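import Pool.Agent.H566P.Spec
import Pool.Agent.H533R2.VO.FIN
import Pool.Agent.H899R2.VP.Dst

set_option autoImplicit false

namespace Pool.Agent.H566P

open Set MeasureTheory
open Pool.Agent.H899R2.VP
open Pool.Agent.H533R2.VO (RS lift put OS Ic RIso Dich VC BlkV)

theorem t_PC (hA : S_ACC) (h1 : S_PV) (h2 : S_REL) : S_PC := by
  classical
  intro Γ _ g Δ α B hg hB hV p
  obtain ⟨-, -, -, -, -, -, hiso, -⟩ := hA
  -- the class of lifts
  let K : Set (St ar) := {M | (∀ x y, M.1 x y = false) ∧ M.2 ∈ B}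
  have hKm : MeasurableSet K := by
    have e1 : K = (⋂ x : ℕ, ⋂ y : ℕ, {M : St ar | M.1 x y = false}) ∩
        (Prod.snd ⁻¹' B : Set (St ar)) := by
      ext M
      simp [K]
    rw [e1]
    refine MeasurableSet.inter ?_ (measurable_snd hB.meas)
    refine MeasurableSet.iInter fun x => MeasurableSet.iInter fun y => ?_
    have h3 : Measurable (fun M : St ar => M.1 x y) :=
      (measurable_pi_apply _).comp ((measurable_pi_apply _).comp measurable_fst)
    exact h3 (measurableSet_singleton false)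
  have hlift : ∀ M ∈ K, M = lift M.2 := by
    rintro ⟨M1, M2⟩ hM
    have : M1 = fun _ _ => false := by
      funext x y
      exact hM.1 x y
    subst this
    rfl
  have hmem : ∀ R ∈ B, (lift R : St ar) ∈ K := fun R hR => ⟨fun _ _ => rfl, hR⟩
  have few : ¬ ∃ c : (ℕ → Bool) → St ar, Continuous c ∧ (∀ A, c A ∈ K) ∧
      ∀ A A', IsoOn (c A) (c A') univ univ ∅ → A = A' := by
    rintro ⟨c, hc1, hc2, hc3⟩
    apply hB.few
    refine ⟨fun A => (c A).2, continuous_snd.comp hc1, fun A => (hc2 A).2, ?_⟩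
    intro A A' h
    apply hc3
    rw [hlift _ (hc2 A), hlift _ (hc2 A')]
    exact (hiso _ _).1 h
  have hα1 : α + 1 < Ordinal.omega 1 :=
    (Cardinal.isSuccLimit_omega 1).add_one_lt hB.lt
  obtain ⟨c, hc⟩ := labels hKm few (α + 1) hα1
  have key : ∀ R ∈ B, ∀ R' ∈ B, ∀ x x' : ℕ, c (lift R) [x] = c (lift R') [x'] →
      BF (lift (der g (stb Δ p) R)) (lift (der g (stb Δ p) R')) (I g R x p) (I g R' x' p) α ∅ := by
    intro R hR R' hR' x x' hxx
    have h4 := hc _ (hmem R hR) _ (hmem R' hR') [x] [x'] rfl hxx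
    have h5 : zipSet [x] [x'] = {(x, x')} := by
      ext u
      simp [zipSet]
    rw [h5] at h4
    exact h2 Γ g (stb Δ p) R R' x x' p α h4
  have hinf : ∀ κ : ℕ, ∃ f : ℕ → R2 × Set ℕ, ∀ R ∈ B, ∀ x, (I g R x p).Infinite →
      c (lift R) [x] = κ → ∃ n, IsoOn (lift (f n).1) (lift (der g (stb Δ p) R)) (f n).2
        (I g R x p) ∅ := by
    intro κ
    by_cases hP : ∃ R ∈ B, ∃ x, (I g R x p).Infinite ∧ c (lift R) [x] = κ
    · obtain ⟨R0, hR0, x0, hx0, hκ⟩ := hP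
      obtain ⟨y, hy⟩ := hx0.nonempty
      have hy' : lab g R0 x0 y = p := hy
      have h6 := h1 Γ g Δ α B hg hB R0 hR0 x0 y (hV R0 hR0 x0 y)
      rw [hy'] at h6
      obtain ⟨f, hf⟩ := h6 hx0
      refine ⟨f, fun R hR x _ hx => hf _ _ (key R0 hR0 R hR x0 x (by rw [hκ, hx]))⟩
    · refine ⟨fun _ => (fun _ _ => false, ∅), fun R hR x hx hκ => ?_⟩
      exact absurd ⟨R, hR, x, hx, hκ⟩ hP
  have hfin : ∀ κ : ℕ, ∃ b : R2 × Set ℕ, ∀ R ∈ B, ∀ x, (I g R x p).Finite →
      c (lift R) [x] = κ → IsoOn (lift b.1) (lift (der g (stb Δ p) R)) b.2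
        (I g R x p) ∅ := by
    intro κ
    by_cases hP : ∃ R ∈ B, ∃ x, (I g R x p).Finite ∧ c (lift R) [x] = κ
    · obtain ⟨R0, hR0, x0, hx0, hκ⟩ := hP
      refine ⟨(der g (stb Δ p) R0, I g R0 x0 p), fun R hR x _ hx => ?_⟩
      exact Pool.Agent.H533R2.VO.t_FIN ar _ _ _ _ hx0
        ((key R0 hR0 R hR x0 x (by rw [hκ, hx])).mono hB.om)
    · refine ⟨(fun _ _ => false, ∅), fun R hR x hx hκ => ?_⟩
      exact absurd ⟨R, hR, x, hx, hκ⟩ hP
  choose f hf using hinf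
  choose b hb using hfin
  refine ⟨fun n => if n.unpair.2 = 0 then b n.unpair.1 else f n.unpair.1 (n.unpair.2 - 1), ?_⟩
  intro R hR x
  rcases (I g R x p).finite_or_infinite with h6 | h6
  · refine ⟨Nat.pair (c (lift R) [x]) 0, ?_⟩
    simp only [Nat.unpair_pair, if_true]
    exact hb _ R hR x h6 rfl
  · obtain ⟨n, hn⟩ := hf _ R hR x h6 rfl
    refine ⟨Nat.pair (c (lift R) [x]) (n + 1), ?_⟩
    simp only [Nat.unpair_pair, Nat.add_eq_zero_iff, one_ne_zero, and_false, if_false,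
      Nat.add_sub_cancel]
    exact hn

end Pool.Agent.H566P
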