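import Pool.Agent.H566P.Spec

/-! PIC: isomorphisms respect the pieces. -/

set_option autoImplicit false

namespace Pool.Agent.H566P

open Set MeasureTheory
open Pool.Agent.H899R2.VP (St Adj PIso BF IsoOn idOn inv comp zipSet)
open Pool.Agent.H533R2.VO (RS lift put OS Ic RIso Dich VC BlkV S_FINAL)

theorem t_PIC (hA : S_ACC) : S_PIC := by
  obtain ⟨hlt, hac, hco, -, hP, -⟩ := hA
  intro Γ _ g Δ' R R' x x' p hiso
  obtain ⟨q, hq0, -, hqP, hq1, hq2⟩ := hiso
  rw [hP] at hqP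
  obtain ⟨he, hl, ha, hc⟩ := hqP
  have hx : (x, x') ∈ q := hq0 (mem_singleton _)
  have hlab : ∀ y y', (y, y') ∈ q → lab g R x y = lab g R' x' y' := by
    intro y y' hy
    funext γ
    unfold lab
    refine Prod.ext ?_ ?_
    · refine decide_eq_decide.2 ?_
      constructor
      · rintro ⟨n, z, h1, h2, h3⟩
        obtain ⟨z', hz⟩ := hq1 z (mem_univ _)
        exact ⟨n, z', h1, (ha n _ hx _ hz).1 h2, (hl _ hz _ hy).1 h3⟩
      · rintro ⟨n, z', h1, h2, h3⟩
        obtain ⟨z, hz⟩ := hq2 z' (mem_univ _)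
        exact ⟨n, z, h1, (ha n _ hx _ hz).2 h2, (hl _ hz _ hy).2 h3⟩
    · refine decide_eq_decide.2 ?_
      constructor
      · rintro ⟨n, h1, h2⟩
        exact ⟨n, h1, (ha n _ hx _ hy).1 h2⟩
      · rintro ⟨n, h1, h2⟩
        exact ⟨n, h1, (ha n _ hx _ hy).2 h2⟩
  refine ⟨q ∩ (I g R x p) ×ˢ (I g R' x' p), empty_subset _, inter_subset_right, ?_, ?_, ?_⟩
  · rw [hP]
    refine ⟨fun u hu v hv => he u hu.1 v hv.1, ?_, ?_, ?_⟩
    · intro u hu v hv
      unfold der
      rw [hlt, hlt]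
      exact hl u hu.1 v hv.1
    · intro n u hu v hv
      unfold der
      rw [hac, hac]
      exact and_congr_right fun _ => ha n u hu.1 v hv.1
    · intro n u hu
      unfold der
      rw [hco, hco]
      constructor
      · rintro ⟨z, h1, h2⟩
        obtain ⟨z', hz⟩ := hq1 z (mem_univ _)
        exact ⟨z', (ha _ _ hu.1 _ hz).1 h1, (hc _ _ hz).1 h2⟩
      · rintro ⟨z', h1, h2⟩
        obtain ⟨z, hz⟩ := hq2 z' (mem_univ _)
        exact ⟨z, (ha _ _ hu.1 _ hz).2 h1, (hc _ _ hz).2 h2⟩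
  · intro y hy
    obtain ⟨y', hy'⟩ := hq1 y (mem_univ _)
    refine ⟨y', hy', hy, ?_⟩
    have := hlab y y' hy'
    show lab g R' x' y' = p
    rw [← this]; exact hy
  · intro y' hy'
    obtain ⟨y, hy⟩ := hq2 y' (mem_univ _)
    refine ⟨y, hy, ?_, hy'⟩
    have := hlab y y' hy
    show lab g R x y = p
    rw [this]; exact hy'

end Pool.Agent.H566P
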