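import Pool.Agent.H566P.Spec
import Pool.Agent.H899R2.VP.Few

set_option autoImplicit false

/-! Task PV: variations of an infinite piece. -/

namespace Pool.Agent.H566P

open Set MeasureTheory
open Pool.Agent.H899R2.VP (St Adj PIso BF IsoOn idOn inv comp zipSet few_base)
open Pool.Agent.H533R2.VO (RS lift put OS Ic RIso Dich VC BlkV bf_comp0 iso_symm0 iso_trans0
  bf_symm0)

private theorem pv_iso_of_riso {a : ℕ → ℕ} {R R' : RS a} (h : RIso R R') :
    IsoOn (lift R) (lift R') univ univ ∅ := by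
  obtain ⟨σ, hσ⟩ := h
  refine ⟨{w | w.2 = σ w.1}, empty_subset _, fun _ _ => ⟨trivial, trivial⟩, ⟨?_, ?_, ?_⟩, ?_, ?_⟩
  · rintro ⟨u, u'⟩ hu ⟨v, v'⟩ hv
    simp only [Set.mem_ofPred_eq] at hu hv
    simp only
    rw [hu, hv]
    exact σ.injective.eq_iff.symm
  · intro u _ v _
    rfl
  · intro i t ht
    have h1 : (fun k => (t k).2) = ⇑σ ∘ fun k => (t k).1 := funext fun k => ht k
    show R i (fun k => (t k).1) = R' i (fun k => (t k).2)
    rw [h1, hσ]
  · intro x _
    exact ⟨σ x, rfl⟩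
  · intro y _
    exact ⟨σ.symm y, by simp⟩

private theorem pv_riso_of_iso {a : ℕ → ℕ} {R R' : RS a}
    (h : IsoOn (lift R) (lift R') univ univ ∅) : RIso R R' := by
  obtain ⟨q, -, -, h3, h4, h5⟩ := h
  choose f hf using fun x => h4 x trivial
  have hinj : Function.Injective f := fun x y hxy => h3.fst_eq (hf x) (hf y) hxy
  have hsurj : Function.Surjective f := by
    intro y
    obtain ⟨x, hx⟩ := h5 y trivial
    exact ⟨x, h3.snd_eq (hf x) hx rfl⟩
  refine ⟨Equiv.ofBijective f ⟨hinj, hsurj⟩, ?_⟩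
  intro i v
  have := h3.2.2 i (fun k => (v k, f (v k))) (fun k => hf (v k))
  exact this.symm

private theorem pv_enum {C : Set ℕ} (hC : C.Infinite) :
    ∃ e : ℕ → ℕ, Function.Injective e ∧ range e = C := by
  classical
  have : Infinite C := hC.to_subtype
  refine ⟨fun n => (Nat.Subtype.orderIsoOfNat C n : ℕ), ?_, ?_⟩
  · intro m n h
    exact (Nat.Subtype.orderIsoOfNat C).injective (Subtype.ext h)
  · ext z
    constructor
    · rintro ⟨n, rfl⟩
      exact (Nat.Subtype.orderIsoOfNat C n).2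
    · intro hz
      refine ⟨(Nat.Subtype.orderIsoOfNat C).symm ⟨z, hz⟩, ?_⟩
      simp

private theorem pv_infinite {a : ℕ → ℕ} {M N : St a} {C Y : Set ℕ} (hC : C.Infinite)
    {α : Ordinal.{0}} (hα : Ordinal.omega0 ≤ α) (h : BF M N C Y α ∅) : Y.Infinite := by
  classical
  intro hY
  obtain ⟨s, hsC, hs⟩ := hC.exists_subset_card_eq (hY.toFinset.card + 1)
  have hlt : (0 : Ordinal.{0}) + ((hY.toFinset.card + 1 : ℕ) : Ordinal.{0}) ≤ α := by
    rw [zero_add]
    exact (Ordinal.natCast_lt_omega0 _).le.trans hα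
  obtain ⟨t, ht1, ht2, ht3⟩ := (h.mono hlt).forth_list s.toList (by simp [hs])
    (fun x hx => hsC (by simpa using hx))
  have hp := ht3.piso
  have hnd : t.Nodup := by
    rw [List.nodup_iff_injective_get]
    intro i j hij
    have hi : i.1 < s.toList.length := by rw [← ht1]; exact i.2
    have hj : j.1 < s.toList.length := by rw [← ht1]; exact j.2
    have hmi : (s.toList[i.1], t[i.1]) ∈ zipSet s.toList t := by
      show _ ∈ s.toList.zip t
      rw [List.mem_iff_getElem]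
      exact ⟨i.1, by simp [hi, i.2] at *; omega, by simp⟩
    have hmj : (s.toList[j.1], t[j.1]) ∈ zipSet s.toList t := by
      show _ ∈ s.toList.zip t
      rw [List.mem_iff_getElem]
      exact ⟨j.1, by simp [hj, j.2] at *; omega, by simp⟩
    have h1 : s.toList[i.1] = s.toList[j.1] := hp.fst_eq (Or.inr hmi) (Or.inr hmj) hij
    exact Fin.ext ((s.nodup_toList.getElem_inj_iff).1 h1)
  have h2 : t.toFinset ⊆ hY.toFinset := by
    intro y hy
    simp only [List.mem_toFinset] at hy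
    simpa using ht2 y hy
  have h3 := Finset.card_le_card h2
  rw [List.toFinset_card_of_nodup hnd, ht1, Finset.length_toList, hs] at h3
  omega

private theorem pv_pull (R : R2) {e : ℕ → ℕ} (he : Function.Injective e) :
    IsoOn (lift (pull R e)) (lift R) univ (range e) ∅ := by
  refine ⟨{w | w.2 = e w.1}, empty_subset _, ?_, ⟨?_, ?_, ?_⟩, ?_, ?_⟩
  · rintro ⟨u, v⟩ huv
    exact ⟨trivial, ⟨u, huv.symm⟩⟩
  · rintro ⟨u, u'⟩ hu ⟨v, v'⟩ hv
    simp only [Set.mem_ofPred_eq] at hu hv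
    simp only
    rw [hu, hv]
    exact he.eq_iff.symm
  · rintro ⟨u, u'⟩ _ ⟨v, v'⟩ _
    rfl
  · intro i t ht
    have h1 : (fun k => (t k).2) = e ∘ fun k => (t k).1 := funext fun k => ht k
    show pull R e i (fun k => (t k).1) = R i (fun k => (t k).2)
    rw [h1]
    rfl
  · intro u _
    exact ⟨e u, rfl⟩
  · rintro v ⟨u, rfl⟩
    exact ⟨u, rfl⟩

theorem t_PV (hA : S_ACC) (h1 : S_REP1) (h2 : S_REP2) (h3 : S_REPC) (h4 : S_DERL)
    (h5 : S_PIC) (h6 : S_MSG) : S_PV := by
  classical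
  intro Γ _ g Δ α B hg hGB R hR x y hVC hinf
  obtain ⟨p, hp⟩ : ∃ p, p = lab g R x y := ⟨_, rfl⟩
  rw [← hp] at hVC hinf ⊢
  obtain ⟨f, hf, hfr⟩ := pv_enum hinf
  obtain ⟨t, hLA, -⟩ := hGB.mb R hR
  set D0 : R2 := pull (der g (stb Δ p) R) f with hD0
  have iso0 : IsoOn (lift D0) (lift (der g (stb Δ p) R)) univ (I g R x p) ∅ := by
    rw [← hfr]
    exact pv_pull _ hf
  set B' : Set R2 := {D : R2 | BF (lift D0) (lift D) univ univ α ∅} with hB'
  have hBmeas : MeasurableSet B' := by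
    have hlift : Measurable (lift : R2 → St ar) := measurable_const.prodMk measurable_id
    exact h6 ar (lift D0) univ R2 lift (fun _ => univ) hlift (fun z => by simp) α hGB.lt ∅
  have hBinv1 : ∀ D D' : R2, RIso D D' → D ∈ B' → D' ∈ B' := by
    intro D D' hDD hD
    exact bf_comp0 hD ((pv_iso_of_riso hDD).bf α)
  have hBinv : ∀ D D' : R2, RIso D D' → (D ∈ B' ↔ D' ∈ B') := by
    intro D D' hDD
    refine ⟨hBinv1 D D' hDD, fun hD => ?_⟩
    exact bf_comp0 hD ((iso_symm0 (pv_iso_of_riso hDD)).bf α)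
  have hrep : ∀ D ∈ B', Rep g Δ R x p f D ∈ B := by
    intro D hD
    exact hGB.closed R hR _ (h1 Γ g Δ R t hg hLA x p f hf hfr D α hD)
  have hrep2 : ∀ D ∈ B', (∀ y, lab g (Rep g Δ R x p f D) x y = lab g R x y) ∧
      pull (der g (stb Δ p) (Rep g Δ R x p f D)) f = D := by
    intro D hD
    obtain ⟨t', hLA', -⟩ := hGB.mb _ (hrep D hD)
    exact h2 Γ g Δ R t t' hg hLA x p f hf hfr D (BF.mono hD hGB.om) hLA'
  have hI : ∀ D ∈ B', I g (Rep g Δ R x p f D) x p = I g R x p := by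
    intro D hD
    ext z
    show lab g (Rep g Δ R x p f D) x z = p ↔ lab g R x z = p
    rw [(hrep2 D hD).1 z]
  have hBV : ∀ D ∈ B', LL g (stb Δ p) D := by
    intro D hD
    obtain ⟨t', hLA', -⟩ := hGB.mb _ (hrep D hD)
    have := h4 Γ g Δ (Rep g Δ R x p f D) t' hg hLA' x p f hf (by rw [hI D hD]; exact hfr)
    rwa [(hrep2 D hD).2] at this
  rcases hVC B' hBmeas hBinv hBV with ⟨h, hh⟩ | ⟨c, hcc, hcB, hcd⟩
  · refine ⟨fun n => (h n, univ), ?_⟩
    intro R' Y hbf
    have hYinf := pv_infinite hinf hGB.om hbf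
    obtain ⟨e', he', her'⟩ := pv_enum hYinf
    have hiso : IsoOn (lift (pull R' e')) (lift R') univ Y ∅ := by
      rw [← her']
      exact pv_pull _ he'
    have hDB : pull R' e' ∈ B' :=
      bf_comp0 (bf_comp0 (iso0.bf α) hbf) ((iso_symm0 hiso).bf α)
    obtain ⟨n, hn⟩ := hh _ hDB
    exact ⟨n, iso_trans0 (pv_iso_of_riso hn) hiso⟩
  · exfalso
    have hK : MeasurableSet {M : St ar | M.1 = (fun _ _ => false) ∧ M.2 ∈ B} := by
      have e1 : {M : St ar | M.1 = (fun _ _ => false) ∧ M.2 ∈ B} =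
          (Prod.fst ⁻¹' {fun _ _ => false}) ∩ (Prod.snd ⁻¹' B) := rfl
      rw [e1]
      exact (measurable_fst (measurableSet_singleton _)).inter (measurable_snd hGB.meas)
    refine few_base hK ?_ (F := {x}) (finite_singleton x)
      (fun A => lift (Rep g Δ R x p f (c A))) ?_ ?_ ?_
    · rintro ⟨k, hkc, hkK, hkd⟩
      refine hGB.few ⟨fun A => (k A).2, continuous_snd.comp hkc, fun A => (hkK A).2, ?_⟩
      intro A A' hAA
      refine hkd A A' ?_
      have h7 : ∀ A, k A = lift (k A).2 := by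
        intro A
        exact Prod.ext (hkK A).1 rfl
      have h8 := pv_iso_of_riso hAA
      rw [← h7 A, ← h7 A'] at h8
      exact h8
    · have hlc : Continuous (lift : R2 → St ar) := continuous_const.prodMk continuous_id
      exact hlc.comp ((h3 Γ g Δ R x p f).comp hcc)
    · intro A
      exact ⟨rfl, hrep _ (hcB A)⟩
    · intro A A' hAA
      have hxx : ({(x, x)} : Set (ℕ × ℕ)) ⊆ idOn ({x} : Set ℕ) := by
        rintro _ rfl
        exact ⟨rfl, rfl⟩
      have h7 := h5 Γ g (stb Δ p) _ _ x x p (hAA.mono hxx)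
      rw [hI _ (hcB A), hI _ (hcB A')] at h7
      have h8 : ∀ A, IsoOn (lift (c A)) (lift (der g (stb Δ p) (Rep g Δ R x p f (c A)))) univ
          (I g R x p) ∅ := by
        intro A
        have h9 := pv_pull (der g (stb Δ p) (Rep g Δ R x p f (c A))) hf
        rw [(hrep2 _ (hcB A)).2, hfr] at h9
        exact h9
      exact hcd A A' (pv_riso_of_iso (iso_trans0 (iso_trans0 (h8 A) h7) (iso_symm0 (h8 A'))))

end Pool.Agent.H566P
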