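import Pool.Agent.H566P.Spec

/-! H566P, task REL: back-and-forth equivalence of the pieces. -/

set_option autoImplicit false

namespace Pool.Agent.H566P

open Set MeasureTheory
open Pool.Agent.H899R2.VP (St Adj PIso BF IsoOn idOn inv comp zipSet)
open Pool.Agent.H533R2.VO (RS lift put OS Ic RIso Dich VC BlkV S_FINAL)

/-- equality of labels at positive rank -/
theorem REL_lab (hA : S_ACC) {Γ : Type} [Group Γ] (g : ℕ → Γ) {R R' : R2} {x x' y y' : ℕ}
    {o : Ordinal.{0}} {q : Set (ℕ × ℕ)} (ho : 0 < o) (hx : (x, x') ∈ q) (hy : (y, y') ∈ q)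
    (h : BF (lift R) (lift R') univ univ o q) : lab g R x y = lab g R' x' y' := by
  obtain ⟨-, -, -, -, hP, -⟩ := hA
  funext γ
  unfold lab
  have h1 : (∃ n z, g n = γ ∧ ac R n x z ∧ lt R z y) ↔
      (∃ n z, g n = γ ∧ ac R' n x' z ∧ lt R' z y') := by
    constructor
    · rintro ⟨n, z, h1, h2, h3⟩
      obtain ⟨z', -, hz'⟩ := h.forth ho (mem_univ z)
      obtain ⟨-, e2, e3, -⟩ := (hP R R' _).1 hz'.piso
      have hz : (z, z') ∈ insert (z, z') q := Or.inl rfl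
      exact ⟨n, z', h1, (e3 n _ (Or.inr hx) _ hz).1 h2, (e2 _ hz _ (Or.inr hy)).1 h3⟩
    · rintro ⟨n, z', h1, h2, h3⟩
      obtain ⟨z, -, hz'⟩ := h.back ho (mem_univ z')
      obtain ⟨-, e2, e3, -⟩ := (hP R R' _).1 hz'.piso
      have hz : (z, z') ∈ insert (z, z') q := Or.inl rfl
      exact ⟨n, z, h1, (e3 n _ (Or.inr hx) _ hz).2 h2, (e2 _ hz _ (Or.inr hy)).2 h3⟩
  have h2 : (∃ n, g n = γ ∧ ac R n x y) ↔ (∃ n, g n = γ ∧ ac R' n x' y') := by
    obtain ⟨-, -, e3, -⟩ := (hP R R' _).1 h.piso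
    constructor
    · rintro ⟨n, h1, h2⟩
      exact ⟨n, h1, (e3 n _ hx _ hy).1 h2⟩
    · rintro ⟨n, h1, h2⟩
      exact ⟨n, h1, (e3 n _ hx _ hy).2 h2⟩
  exact Prod.ext (decide_eq_decide.2 h1) (decide_eq_decide.2 h2)

/-- partial isomorphisms of the derived structures -/
theorem REL_piso (hA : S_ACC) {Γ : Type} [Group Γ] (g : ℕ → Γ) (Δ' : Subgroup Γ) {R R' : R2}
    {o : Ordinal.{0}} {q r : Set (ℕ × ℕ)} (ho : 0 < o) (hr : r ⊆ q)
    (h : BF (lift R) (lift R') univ univ o q) :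
    PIso (lift (der g Δ' R)) (lift (der g Δ' R')) r := by
  obtain ⟨hl, ha, hc, -, hP, -⟩ := hA
  rw [hP]
  obtain ⟨e1, e2, e3, e4⟩ := (hP R R' _).1 h.piso
  refine ⟨fun u hu v hv => e1 u (hr hu) v (hr hv), fun u hu v hv => ?_, fun n u hu v hv => ?_,
    fun n u hu => ?_⟩
  · unfold der
    rw [hl, hl]
    exact e2 u (hr hu) v (hr hv)
  · unfold der
    rw [ha, ha]
    rw [e3 n u (hr hu) v (hr hv)]
  · unfold der
    rw [hc, hc]
    constructor
    · rintro ⟨z, h1, h2⟩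
      obtain ⟨z', -, hz'⟩ := h.forth ho (mem_univ z)
      obtain ⟨-, -, f3, f4⟩ := (hP R R' _).1 hz'.piso
      have hz : (z, z') ∈ insert (z, z') q := Or.inl rfl
      exact ⟨z', (f3 _ u (Or.inr (hr hu)) _ hz).1 h1, (f4 _ _ hz).1 h2⟩
    · rintro ⟨z', h1, h2⟩
      obtain ⟨z, -, hz'⟩ := h.back ho (mem_univ z')
      obtain ⟨-, -, f3, f4⟩ := (hP R R' _).1 hz'.piso
      have hz : (z, z') ∈ insert (z, z') q := Or.inl rfl
      exact ⟨z, (f3 _ u (Or.inr (hr hu)) _ hz).2 h1, (f4 _ _ hz).2 h2⟩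

/-- the induction -/
theorem REL_main (hA : S_ACC) {Γ : Type} [Group Γ] (g : ℕ → Γ) (Δ' : Subgroup Γ) {R R' : R2}
    {x x' : ℕ} (p : Γ → Bool × Bool) (o : Ordinal.{0}) : ∀ q : Set (ℕ × ℕ), (x, x') ∈ q →
    BF (lift R) (lift R') univ univ (o + 1) q →
    BF (lift (der g Δ' R)) (lift (der g Δ' R')) (I g R x p) (I g R' x' p) o
      {u | u ∈ q ∧ u.1 ∈ I g R x p} := by
  induction o using WellFoundedLT.induction with
  | ind o ih =>
    intro q hx h
    have hpos : ∀ o' : Ordinal.{0}, (0 : Ordinal.{0}) < o' + 1 := fun o' =>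
      lt_of_le_of_lt (zero_le) (lt_add_one o')
    rw [Pool.Agent.H899R2.VP.BF_iff]
    refine ⟨REL_piso hA g Δ' (hpos o) (fun u hu => hu.1) h, fun o1 ho1 => ⟨fun y hy => ?_,
      fun y' hy' => ?_⟩⟩
    · have ho2 : o1 + 1 < o + 1 :=
        lt_of_le_of_lt (Order.add_one_le_of_lt ho1) (lt_add_one o)
      obtain ⟨y', -, hb⟩ := h.forth ho2 (mem_univ y)
      have hlab := REL_lab hA g (hpos o1) (Or.inr hx) (Or.inl rfl : (y, y') ∈ insert (y, y') q) hb
      have hy' : y' ∈ I g R' x' p := by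
        have : lab g R x y = p := hy
        show lab g R' x' y' = p
        rw [← hlab, this]
      refine ⟨y', hy', (ih o1 ho1 _ (Or.inr hx) hb).subset ?_⟩
      rintro u (rfl | hu)
      · exact ⟨Or.inl rfl, hy⟩
      · exact ⟨Or.inr hu.1, hu.2⟩
    · have ho2 : o1 + 1 < o + 1 :=
        lt_of_le_of_lt (Order.add_one_le_of_lt ho1) (lt_add_one o)
      obtain ⟨y, -, hb⟩ := h.back ho2 (mem_univ y')
      have hlab := REL_lab hA g (hpos o1) (Or.inr hx) (Or.inl rfl : (y, y') ∈ insert (y, y') q) hb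
      have hy : y ∈ I g R x p := by
        have : lab g R' x' y' = p := hy'
        show lab g R x y = p
        rw [hlab, this]
      refine ⟨y, hy, (ih o1 ho1 _ (Or.inr hx) hb).subset ?_⟩
      rintro u (rfl | hu)
      · exact ⟨Or.inl rfl, hy⟩
      · exact ⟨Or.inr hu.1, hu.2⟩

theorem t_REL (hA : S_ACC) : S_REL := by
  intro Γ _ g Δ' R R' x x' p o h
  exact (REL_main hA g Δ' p o {(x, x')} rfl h).subset (empty_subset _)

end Pool.Agent.H566P
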