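import Pool.Agent.H566P.Spec
import Pool.Agent.H899R2.VP.Basic

set_option autoImplicit false

namespace Pool.Agent.H566P

open Set
open Pool.Agent.H899R2.VP (St Adj PIso BF IsoOn idOn inv comp zipSet)
open Pool.Agent.H533R2.VO (RS lift put OS Ic RIso Dich VC BlkV S_FINAL)

private theorem REP1_v2 (f : ℕ → ℕ) (i x y : ℕ) : f ∘ v2 i x y = v2 i (f x) (f y) := by
  funext k
  simp only [Function.comp, v2]
  split_ifs <;> rfl

private theorem REP1_lt (R : R2) (f : ℕ → ℕ) (x y : ℕ) :
    lt (pull R f) x y ↔ lt R (f x) (f y) := by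
  unfold lt pull
  rw [REP1_v2]

private theorem REP1_ac (R : R2) (f : ℕ → ℕ) (n x y : ℕ) :
    ac (pull R f) n x y ↔ ac R n (f x) (f y) := by
  unfold ac pull
  rw [REP1_v2]

private theorem REP1_co (R : R2) (f : ℕ → ℕ) (n x : ℕ) :
    co (pull R f) n x ↔ co R n (f x) := by
  unfold co pull
  rw [REP1_v2]

private theorem REP1_sh {Γ : Type} [Group Γ] (γ δ : Γ) (p : Γ → Bool × Bool) :
    sh γ (sh δ p) = sh (γ * δ) p := by
  funext ε
  simp only [sh]
  congr 1
  group

private theorem REP1_sh1 {Γ : Type} [Group Γ] (p : Γ → Bool × Bool) : sh 1 p = p := by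
  funext ε
  simp [sh]

private theorem REP1_tau {Γ : Type} [Group Γ] (Δ : Subgroup Γ) (p q : Γ → Bool × Bool)
    (h : orb Δ p q) : tau Δ p q ∈ Δ ∧ sh (tau Δ p q) p = q := by
  unfold tau
  by_cases hq : q = p
  · rw [if_pos hq]
    exact ⟨Δ.one_mem, by rw [REP1_sh1, hq]⟩
  · rw [if_neg hq, dif_pos h]
    exact h.choose_spec

private theorem REP1_ix {Γ : Type} (g : ℕ → Γ) (hg : Function.Surjective g) (γ : Γ) :
    g (ix g γ) = γ := by
  unfold ix
  rw [dif_pos (hg γ)]
  exact (hg γ).choose_spec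

open Classical in
theorem t_REP1 (hA : S_ACC) (hL : S_LBF) : S_REP1 := by
  intro Γ _ g Δ R t hg hLA x p f hf hI D o hBF
  obtain ⟨A1, A2, A3, -, A5, -⟩ := hA
  obtain ⟨L1, L2, -, -, L5, L6⟩ := hL Γ g Δ R t hg hLA x
  set R' := Rep g Δ R x p f D with hR'
  set D0 := pull (der g (stb Δ p) R) f with hD0
  -- basic facts
  have act : ∀ γ y z, ac R (ix g γ) y z ↔ γ ∈ Δ ∧ t γ y = z := by
    intro γ y z
    rw [hLA.act, REP1_ix g hg]
  have D0lt : ∀ m n, lt D0 m n ↔ lt R (f m) (f n) := by
    intro m n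
    rw [hD0, REP1_lt, der, A1]
  have D0ac : ∀ k m n, ac D0 k m n ↔ g k ∈ stb Δ p ∧ ac R k (f m) (f n) := by
    intro k m n
    rw [hD0, REP1_ac, der, A2]
  have D0co : ∀ k m, co D0 k m ↔ ∃ z, ac R k.unpair.2 (f m) z ∧ co R k.unpair.1 z := by
    intro k m
    rw [hD0, REP1_co, der, A3]
  have Rlt : ∀ y z, lt R' y z ↔ if orb Δ p (lab g R x y) ∧ lab g R x z = lab g R x y then
      lt D (nn g Δ R x p f y) (nn g Δ R x p f z) else lt R y z := by
    intro y z
    rw [hR', Rep, A1]
  have Rac : ∀ m y z, ac R' m y z ↔ if orb Δ p (lab g R x y) then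
      g m ∈ Δ ∧ lab g R x z = sh (g m) (lab g R x y) ∧
        ac D (ix g ((tau Δ p (lab g R x z))⁻¹ * g m * tau Δ p (lab g R x y)))
          (nn g Δ R x p f y) (nn g Δ R x p f z) else ac R m y z := by
    intro m y z
    rw [hR', Rep, A2]
  have Rco : ∀ i y, co R' i y ↔ if orb Δ p (lab g R x y) then
      co D (Nat.pair i (ix g (tau Δ p (lab g R x y)))) (nn g Δ R x p f y) else co R i y := by
    intro i y
    rw [hR', Rep, A3]
  have tinv : ∀ γ ∈ Δ, ∀ y, t γ (t γ⁻¹ y) = y := by
    intro γ hγ y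
    rw [← hLA.mul γ hγ γ⁻¹ (Δ.inv_mem hγ), mul_inv_cancel, hLA.one]
  have tinj : ∀ γ ∈ Δ, ∀ y z, t γ y = t γ z → y = z := by
    intro γ hγ y z h
    have h1 := (L6 γ hγ y (t γ z)).1 h
    have h2 := (L6 γ hγ z (t γ z)).1 rfl
    rw [h1, ← h2]
  -- the coordinates
  have nnspec : ∀ y, orb Δ p (lab g R x y) →
      t (tau Δ p (lab g R x y)) (f (nn g Δ R x p f y)) = y := by
    intro y hy
    obtain ⟨h1, h2⟩ := REP1_tau Δ p (lab g R x y) hy
    have h3 : t (tau Δ p (lab g R x y))⁻¹ y ∈ range f := by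
      rw [hI]
      show lab g R x (t (tau Δ p (lab g R x y))⁻¹ y) = p
      rw [L1 _ (Δ.inv_mem h1)]
      conv_lhs => rw [← h2]
      rw [REP1_sh]
      conv_lhs => rw [h2]
      rw [inv_mul_cancel, REP1_sh1]
    obtain ⟨n, hn⟩ := h3
    have h4 : ∃ n, ac R (ix g (tau Δ p (lab g R x y))) (f n) y := by
      refine ⟨n, (act _ _ _).2 ⟨h1, ?_⟩⟩
      rw [hn]
      exact tinv _ h1 y
    have h5 : nn g Δ R x p f y = h4.choose := by
      unfold nn
      rw [dif_pos h4]
    rw [h5]
    exact ((act _ _ _).1 h4.choose_spec).2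
  have nnuniq : ∀ y n, orb Δ p (lab g R x y) → t (tau Δ p (lab g R x y)) (f n) = y →
      nn g Δ R x p f y = n := by
    intro y n hy h
    have h1 := nnspec y hy
    exact hf (tinj _ (REP1_tau Δ p _ hy).1 _ _ (h1.trans h.symm))
  have nninj : ∀ y z, orb Δ p (lab g R x y) → lab g R x y = lab g R x z →
      nn g Δ R x p f y = nn g Δ R x p f z → y = z := by
    intro y z hy h1 h2
    have h3 := nnspec y hy
    have h4 := nnspec z (h1 ▸ hy)
    rw [← h3, ← h4, h2, h1]
  -- points with prescribed label and coordinate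
  have mkpt : ∀ q n, orb Δ p q → lab g R x (t (tau Δ p q) (f n)) = q ∧
      nn g Δ R x p f (t (tau Δ p q) (f n)) = n := by
    intro q n hq
    obtain ⟨h1, h2⟩ := REP1_tau Δ p q hq
    have h3 : lab g R x (f n) = p := by
      have : f n ∈ I g R x p := hI ▸ mem_range_self n
      exact this
    have h4 : lab g R x (t (tau Δ p q) (f n)) = q := by
      rw [L1 _ h1, h3, h2]
    refine ⟨h4, nnuniq _ _ (by rw [h4]; exact hq) (by rw [h4])⟩
  -- the extension of a set of pairs
  let ext : Set (ℕ × ℕ) → Set (ℕ × ℕ) := fun r => {u | (¬ orb Δ p (lab g R x u.1) ∧ u.1 = u.2) ∨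
    (orb Δ p (lab g R x u.1) ∧ lab g R x u.2 = lab g R x u.1 ∧
      (nn g Δ R x p f u.1, nn g Δ R x p f u.2) ∈ r)}
  have orbsh : ∀ γ ∈ Δ, ∀ q, orb Δ p (sh γ q) ↔ orb Δ p q := by
    intro γ hγ q
    constructor
    · rintro ⟨δ, hδ, h⟩
      refine ⟨γ⁻¹ * δ, Δ.mul_mem (Δ.inv_mem hγ) hδ, ?_⟩
      rw [← REP1_sh, h, REP1_sh, inv_mul_cancel, REP1_sh1]
    · rintro ⟨δ, hδ, h⟩
      exact ⟨γ * δ, Δ.mul_mem hγ hδ, by rw [← REP1_sh, h]⟩
  have piso : ∀ r, PIso (lift D0) (lift D) r → PIso (lift R) (lift R') (ext r) := by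
    intro r hr
    obtain ⟨r1, r2, r3, r4⟩ := (A5 D0 D r).1 hr
    refine (A5 R R' (ext r)).2 ⟨?_, ?_, ?_, ?_⟩
    · rintro ⟨y, y'⟩ hu ⟨z, z'⟩ hv
      rcases hu with ⟨hy, h1⟩ | ⟨hy, h1, h2⟩ <;> rcases hv with ⟨hz, h3⟩ | ⟨hz, h3, h4⟩ <;>
        simp only at hy hz h1 h3 ⊢
      · rw [h1, h3]
      · subst h1
        constructor
        · rintro rfl
          exact absurd hz hy
        · rintro rfl
          rw [h3] at hy
          exact absurd hz hy
      · subst h3
        constructor
        · rintro rfl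
          exact absurd hy hz
        · rintro rfl
          rw [h1] at hz
          exact absurd hy hz
      · have h5 := r1 _ h2 _ h4
        simp only at h5
        constructor
        · rintro rfl
          exact nninj _ _ (by rw [h1]; exact hy) (h1.trans h3.symm) (h5.1 rfl)
        · rintro rfl
          exact nninj _ _ hy (h1.symm.trans h3) (h5.2 rfl)
    · rintro ⟨y, y'⟩ hu ⟨z, z'⟩ hv
      rcases hu with ⟨hy, h1⟩ | ⟨hy, h1, h2⟩ <;> rcases hv with ⟨hz, h3⟩ | ⟨hz, h3, h4⟩ <;>
        simp only at hy hz h1 h3 ⊢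
      · subst h1 h3
        rw [Rlt, if_neg (fun h => hy h.1)]
      · subst h1
        rw [Rlt, if_neg (fun h => hy h.1)]
        have e1 : lab g R x y ≠ lab g R x z := fun h => hy (h ▸ hz)
        have e2 : lab g R x y ≠ lab g R x z' := by rw [h3]; exact e1
        rw [L2 _ _ e1, L2 _ _ e2, h3]
      · subst h3
        have e1 : lab g R x y ≠ lab g R x z := fun h => hz (h ▸ hy)
        have e2 : lab g R x y' ≠ lab g R x z := by rw [h1]; exact e1
        rw [Rlt, if_neg (fun h => e2 h.2.symm)]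
        rw [L2 _ _ e1, L2 _ _ e2, h1]
      · by_cases h6 : lab g R x z = lab g R x y
        · rw [Rlt, if_pos ⟨by rw [h1]; exact hy, by rw [h3, h1, h6]⟩]
          have h7 := r2 _ h2 _ h4
          simp only at h7
          have h8 := nnspec y hy
          have h9 := nnspec z hz
          rw [h6] at h9
          have h10 := L5 (tau Δ p (lab g R x y)) (REP1_tau Δ p _ hy).1
            (f (nn g Δ R x p f y)) (f (nn g Δ R x p f z))
          rw [h8, h9] at h10
          rw [← h7, D0lt]
          exact h10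
        · have e1 : lab g R x y ≠ lab g R x z := fun h => h6 h.symm
          have e2 : lab g R x y' ≠ lab g R x z' := by rw [h1, h3]; exact e1
          rw [Rlt, if_neg (fun h => e2 h.2.symm), L2 _ _ e1, L2 _ _ e2, h1, h3]
    · rintro m ⟨y, y'⟩ hu ⟨z, z'⟩ hv
      have acl : ∀ a b, ac R m a b → lab g R x b = sh (g m) (lab g R x a) ∧ g m ∈ Δ := by
        intro a b h
        obtain ⟨h1, h2⟩ := (hLA.act m a b).1 h
        exact ⟨by rw [← h2, L1 _ h1], h1⟩
      rcases hu with ⟨hy, h1⟩ | ⟨hy, h1, h2⟩ <;> rcases hv with ⟨hz, h3⟩ | ⟨hz, h3, h4⟩ <;>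
        simp only at hy hz h1 h3 ⊢
      · subst h1 h3
        rw [Rac, if_neg hy]
      · subst h1
        rw [Rac, if_neg hy]
        constructor
        · intro h
          obtain ⟨e1, e2⟩ := acl _ _ h
          rw [e1, orbsh _ e2] at hz
          exact absurd hz hy
        · intro h
          obtain ⟨e1, e2⟩ := acl _ _ h
          rw [← h3, e1, orbsh _ e2] at hz
          exact absurd hz hy
      · subst h3
        rw [Rac, if_pos (by rw [h1]; exact hy)]
        constructor
        · intro h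
          obtain ⟨e1, e2⟩ := acl _ _ h
          rw [e1, orbsh _ e2] at hz
          exact absurd hy hz
        · rintro ⟨e2, e1, -⟩
          rw [e1, orbsh _ e2, h1] at hz
          exact absurd hy hz
      · rw [Rac, if_pos (by rw [h1]; exact hy), h1, h3]
        have h7 := r3 (ix g ((tau Δ p (lab g R x z))⁻¹ * g m * tau Δ p (lab g R x y))) _ h2 _ h4
        simp only at h7
        rw [← h7, D0ac, act, REP1_ix g hg, hLA.act]
        obtain ⟨y1, y2⟩ := REP1_tau Δ p _ hy
        obtain ⟨z1, z2⟩ := REP1_tau Δ p _ hz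
        have key : g m ∈ Δ → (t (g m) y = z ↔
            t ((tau Δ p (lab g R x z))⁻¹ * g m * tau Δ p (lab g R x y)) (f (nn g Δ R x p f y)) =
              f (nn g Δ R x p f z)) := by
          intro hm
          rw [hLA.mul _ (Δ.mul_mem (Δ.inv_mem z1) hm) _ y1, nnspec y hy,
            hLA.mul _ (Δ.inv_mem z1) _ hm]
          have h8 := nnspec z hz
          constructor
          · rintro h
            rw [h]
            have h9 := (L6 _ z1 _ _).1 h8
            exact h9.symm
          · intro h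
            rw [← h8, ← h]
            exact (tinv _ z1 _).symm
        constructor
        · rintro ⟨hm, h⟩
          have e1 : lab g R x z = sh (g m) (lab g R x y) := by rw [← h, L1 _ hm]
          have e2 : (tau Δ p (lab g R x z))⁻¹ * g m * tau Δ p (lab g R x y) ∈ Δ :=
            Δ.mul_mem (Δ.mul_mem (Δ.inv_mem z1) hm) y1
          refine ⟨hm, e1, ⟨e2, ?_⟩, e2, (key hm).1 h⟩
          rw [← REP1_sh, y2, ← REP1_sh, ← e1]
          conv_lhs => rw [← z2]
          rw [REP1_sh]
          conv_lhs => rw [z2]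
          rw [inv_mul_cancel, REP1_sh1]
        · rintro ⟨hm, -, -, -, h⟩
          exact ⟨hm, (key hm).2 h⟩
    · rintro i ⟨y, y'⟩ hu
      rcases hu with ⟨hy, h1⟩ | ⟨hy, h1, h2⟩ <;> simp only at hy h1 ⊢
      · subst h1
        rw [Rco, if_neg hy]
      · rw [Rco, if_pos (by rw [h1]; exact hy), h1]
        have h7 := r4 (Nat.pair i (ix g (tau Δ p (lab g R x y)))) _ h2
        simp only at h7
        rw [← h7, D0co, Nat.unpair_pair]
        obtain ⟨y1, y2⟩ := REP1_tau Δ p _ hy
        constructor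
        · intro h
          exact ⟨y, (act _ _ _).2 ⟨y1, nnspec y hy⟩, h⟩
        · rintro ⟨z, h8, h9⟩
          have h10 := ((act _ _ _).1 h8).2
          rw [nnspec y hy] at h10
          rw [h10]
          exact h9
  have main : ∀ (o : Ordinal.{0}) (r : Set (ℕ × ℕ)), BF (lift D0) (lift D) univ univ o r →
      BF (lift R) (lift R') univ univ o (ext r) := by
    intro o
    induction o using WellFoundedLT.induction with
    | _ o ih =>
      intro r hr
      rw [Pool.Agent.H899R2.VP.BF_iff]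
      refine ⟨piso r hr.piso, fun o' ho => ⟨fun a _ => ?_, fun b _ => ?_⟩⟩
      · by_cases ha : orb Δ p (lab g R x a)
        · obtain ⟨n', -, h1⟩ := hr.forth ho (mem_univ (nn g Δ R x p f a))
          obtain ⟨h2, h3⟩ := mkpt (lab g R x a) n' ha
          refine ⟨t (tau Δ p (lab g R x a)) (f n'), mem_univ _, (ih o' ho _ h1).subset ?_⟩
          refine insert_subset (Or.inr ⟨ha, h2, ?_⟩) ?_
          · simp only
            rw [h3]
            exact mem_insert _ _
          · rintro u (hu | ⟨hu, hu1, hu2⟩)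
            · exact Or.inl hu
            · exact Or.inr ⟨hu, hu1, mem_insert_of_mem _ hu2⟩
        · refine ⟨a, mem_univ _, (ih o' ho r (hr.mono ho.le)).subset ?_⟩
          exact insert_subset (Or.inl ⟨ha, rfl⟩) (le_refl _)
      · by_cases hb : orb Δ p (lab g R x b)
        · obtain ⟨n, -, h1⟩ := hr.back ho (mem_univ (nn g Δ R x p f b))
          obtain ⟨h2, h3⟩ := mkpt (lab g R x b) n hb
          refine ⟨t (tau Δ p (lab g R x b)) (f n), mem_univ _, (ih o' ho _ h1).subset ?_⟩
          refine insert_subset (Or.inr ⟨?_, h2.symm, ?_⟩) ?_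
          · simp only
            rw [h2]
            exact hb
          · simp only
            rw [h3]
            exact mem_insert _ _
          · rintro u (hu | ⟨hu, hu1, hu2⟩)
            · exact Or.inl hu
            · exact Or.inr ⟨hu, hu1, mem_insert_of_mem _ hu2⟩
        · refine ⟨b, mem_univ _, (ih o' ho r (hr.mono ho.le)).subset ?_⟩
          exact insert_subset (Or.inl ⟨hb, rfl⟩) (le_refl _)
  exact (main o ∅ hBF).subset (empty_subset _)

end Pool.Agent.H566P
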