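import Pool.Agent.H566P.Spec

/-! Labels and pieces of the replaced structure. -/

set_option autoImplicit false

namespace Pool.Agent.H566P

open Set MeasureTheory
open Pool.Agent.H899R2.VP (St Adj PIso BF IsoOn idOn inv comp zipSet)
open Pool.Agent.H533R2.VO (RS lift put OS Ic RIso Dich VC BlkV S_FINAL)

theorem REP2_v2_comp (f : ℕ → ℕ) (i x y : ℕ) : f ∘ v2 i x y = v2 i (f x) (f y) := by
  funext k
  simp only [v2, Function.comp]
  split_ifs <;> rfl

theorem REP2_lt_pull (S : R2) (f : ℕ → ℕ) (m n : ℕ) :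
    lt (pull S f) m n ↔ lt S (f m) (f n) := by
  unfold lt pull
  rw [REP2_v2_comp]

theorem REP2_ac_pull (S : R2) (f : ℕ → ℕ) (k m n : ℕ) :
    ac (pull S f) k m n ↔ ac S k (f m) (f n) := by
  unfold ac pull
  rw [REP2_v2_comp]

theorem REP2_co_pull (S : R2) (f : ℕ → ℕ) (k n : ℕ) :
    co (pull S f) k n ↔ co S k (f n) := by
  unfold co pull
  rw [REP2_v2_comp]

section

variable {Γ : Type} [Group Γ] (g : ℕ → Γ) (Δ : Subgroup Γ)

theorem REP2_sh_sh (γ δ : Γ) (q : Γ → Bool × Bool) : sh γ (sh δ q) = sh (γ * δ) q := by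
  funext ε
  simp only [sh]
  congr 1
  group

theorem REP2_sh_one (q : Γ → Bool × Bool) : sh 1 q = q := by
  funext ε
  simp [sh]

theorem REP2_tau {p q : Γ → Bool × Bool} (h : orb Δ p q) :
    tau Δ p q ∈ Δ ∧ sh (tau Δ p q) p = q := by
  classical
  by_cases hq : q = p
  · subst hq
    have : tau Δ q q = 1 := by unfold tau; rw [if_pos rfl]
    rw [this]
    exact ⟨Δ.one_mem, REP2_sh_one q⟩
  · have : tau Δ p q = h.choose := by unfold tau; rw [if_neg hq, dif_pos h]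
    rw [this]
    exact h.choose_spec

theorem REP2_tau_self (p : Γ → Bool × Bool) : tau Δ p p = 1 := by
  unfold tau
  rw [if_pos rfl]

theorem REP2_ix (hg : Function.Surjective g) (γ : Γ) : g (ix g γ) = γ := by
  have h : ∃ k, g k = γ := hg γ
  unfold ix
  rw [dif_pos h]
  exact h.choose_spec

end

theorem t_REP2 (hA : S_ACC) (hL : S_LBF) : S_REP2 := by
  classical
  intro Γ _ g Δ R t t' hg hR x p f hf hrange D hBF hR'
  obtain ⟨hlt, hac, hco, hext, hpiso, -⟩ := hA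
  obtain ⟨L1, -, L3, L4, -, L6⟩ := hL Γ g Δ R t hg hR x
  have hix := REP2_ix g hg
  have hact := hR.act
  have hlabf : ∀ n, lab g R x (f n) = p := fun n => by
    have : f n ∈ I g R x p := hrange ▸ mem_range_self n
    exact this
  have hinj : ∀ γ ∈ Δ, ∀ y z, t γ y = t γ z → y = z := by
    intro γ hγ y z h
    have h1 := (L6 γ hγ y (t γ z)).1 h
    have h2 := (L6 γ hγ z (t γ z)).1 rfl
    rw [h1, ← h2]
  -- the maps of the label classes
  have hnn1 : ∀ y, orb Δ p (lab g R x y) →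
      t (tau Δ p (lab g R x y)) (f (nn g Δ R x p f y)) = y := by
    intro y hy
    obtain ⟨h1, h2⟩ := REP2_tau Δ hy
    have hex : ∃ n, ac R (ix g (tau Δ p (lab g R x y))) (f n) y := by
      have h3 : lab g R x (t (tau Δ p (lab g R x y))⁻¹ y) = p := by
        have h7 : sh (tau Δ p (lab g R x y))⁻¹ (lab g R x y) =
            sh (tau Δ p (lab g R x y))⁻¹ (sh (tau Δ p (lab g R x y)) p) := by rw [h2]
        rw [L1 _ (Δ.inv_mem h1) y, h7, REP2_sh_sh, inv_mul_cancel, REP2_sh_one]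
      have h4 : t (tau Δ p (lab g R x y))⁻¹ y ∈ range f := by
        rw [hrange]; exact h3
      obtain ⟨n, hn⟩ := h4
      refine ⟨n, (hact _ _ _).2 ⟨by rw [hix]; exact h1, ?_⟩⟩
      rw [hix]
      exact (L6 _ h1 _ _).2 hn
    have h5 : nn g Δ R x p f y = hex.choose := by
      unfold nn
      rw [dif_pos hex]
    have h6 := (hact _ _ _).1 hex.choose_spec
    rw [hix] at h6
    rw [h5]
    exact h6.2
  have hnn2 : ∀ y n, orb Δ p (lab g R x y) → t (tau Δ p (lab g R x y)) (f n) = y →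
      nn g Δ R x p f y = n := by
    intro y n hy hn
    apply hf
    apply hinj _ (REP2_tau Δ hy).1
    rw [hnn1 y hy, hn]
  have horbp : orb Δ p p := ⟨1, Δ.one_mem, REP2_sh_one p⟩
  have hnnf : ∀ n, nn g Δ R x p f (f n) = n := by
    intro n
    apply hnn2
    · rw [hlabf]; exact horbp
    · rw [hlabf, REP2_tau_self, hR.one]
  -- the replaced structure
  have Rlt : ∀ y z, lt (Rep g Δ R x p f D) y z ↔
      if orb Δ p (lab g R x y) ∧ lab g R x z = lab g R x y then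
      lt D (nn g Δ R x p f y) (nn g Δ R x p f z) else lt R y z := by
    intro y z
    unfold Rep
    rw [hlt]
  have Rac : ∀ m y z, ac (Rep g Δ R x p f D) m y z ↔
      if orb Δ p (lab g R x y) then
      g m ∈ Δ ∧ lab g R x z = sh (g m) (lab g R x y) ∧
        ac D (ix g ((tau Δ p (lab g R x z))⁻¹ * g m * tau Δ p (lab g R x y)))
          (nn g Δ R x p f y) (nn g Δ R x p f z) else ac R m y z := by
    intro m y z
    unfold Rep
    rw [hac]
  have Rco : ∀ i y, co (Rep g Δ R x p f D) i y ↔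
      if orb Δ p (lab g R x y) then
      co D (Nat.pair i (ix g (tau Δ p (lab g R x y)))) (nn g Δ R x p f y) else co R i y := by
    intro i y
    unfold Rep
    rw [hco]
  -- (a) points of the orbit of x are not special
  have hns : ∀ δ ∈ Δ, ¬ orb Δ p (lab g R x (t δ x)) := by
    rintro δ hδ ⟨γ, hγ, hq⟩
    have h1 : (lab g R x (t δ x) δ).2 = true := (L3 _ _).2.2 ⟨hδ, rfl⟩
    have h2 : ∀ n, t γ (f n) = t δ x := by
      intro n
      apply L4 _ _ δ h1
      rw [L1 γ hγ, hlabf, hq]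
    have h3 : f 0 = f 1 := hinj γ hγ _ _ ((h2 0).trans (h2 1).symm)
    exact absurd (hf h3) (by norm_num)
  have hx1 : t 1 x = x := hR.one x
  have hlab : ∀ y, lab g (Rep g Δ R x p f D) x y = lab g R x y := by
    intro y
    have e1 : ∀ n z, ac (Rep g Δ R x p f D) n x z ↔ ac R n x z := by
      intro n z
      have := hns 1 Δ.one_mem
      rw [hx1] at this
      rw [Rac, if_neg this]
    have e2 : ∀ n z, ac R n x z → (lt (Rep g Δ R x p f D) z y ↔ lt R z y) := by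
      intro n z hz
      obtain ⟨h1, h2⟩ := (hact _ _ _).1 hz
      have := hns _ h1
      rw [h2] at this
      rw [Rlt, if_neg (fun h => this h.1)]
    funext γ
    unfold lab
    have c1 : (∃ n z, g n = γ ∧ ac (Rep g Δ R x p f D) n x z ∧ lt (Rep g Δ R x p f D) z y) ↔
        ∃ n z, g n = γ ∧ ac R n x z ∧ lt R z y := by
      constructor
      · rintro ⟨n, z, h1, h2, h3⟩
        have h2' := (e1 n z).1 h2
        exact ⟨n, z, h1, h2', (e2 n z h2').1 h3⟩
      · rintro ⟨n, z, h1, h2, h3⟩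
        exact ⟨n, z, h1, (e1 n z).2 h2, (e2 n z h2).2 h3⟩
    have c2 : (∃ n, g n = γ ∧ ac (Rep g Δ R x p f D) n x y) ↔ ∃ n, g n = γ ∧ ac R n x y := by
      constructor
      · rintro ⟨n, h1, h2⟩
        exact ⟨n, h1, (e1 n y).1 h2⟩
      · rintro ⟨n, h1, h2⟩
        exact ⟨n, h1, (e1 n y).2 h2⟩
    rw [decide_eq_decide.2 c1, decide_eq_decide.2 c2]
  refine ⟨hlab, ?_⟩
  -- (b) facts on D0
  have D0ac : ∀ k m n, ac (pull (der g (stb Δ p) R) f) k m n ↔
      g k ∈ stb Δ p ∧ t (g k) (f m) = f n := by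
    intro k m n
    rw [REP2_ac_pull]
    unfold der
    rw [hac, hact]
    constructor
    · rintro ⟨h1, h2, h3⟩
      exact ⟨h1, h3⟩
    · rintro ⟨h1, h3⟩
      exact ⟨h1, h1.1, h3⟩
  have D0co : ∀ i k n, co (pull (der g (stb Δ p) R) f) (Nat.pair i k) n ↔
      g k ∈ Δ ∧ co R i (t (g k) (f n)) := by
    intro i k n
    rw [REP2_co_pull]
    unfold der
    rw [hco]
    simp only [Nat.unpair_pair]
    constructor
    · rintro ⟨z, h1, h2⟩
      obtain ⟨h3, h4⟩ := (hact _ _ _).1 h1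
      rw [h4]
      exact ⟨h3, h2⟩
    · rintro ⟨h1, h2⟩
      exact ⟨_, (hact _ _ _).2 ⟨h1, rfl⟩, h2⟩
  -- transfer
  have h0 : (0 : Ordinal.{0}) < 1 := zero_lt_one
  have h1o : (1 : Ordinal.{0}) < Ordinal.omega0 := Ordinal.one_lt_omega0
  have pt : ∀ n, ∃ n0, BF (lift (pull (der g (stb Δ p) R) f)) (lift D) univ univ 1 {(n0, n)} := by
    intro n
    obtain ⟨n0, -, h⟩ := hBF.back h1o (mem_univ n)
    exact ⟨n0, by simpa using h⟩
  have pair_back : ∀ {n0 n : ℕ},
      BF (lift (pull (der g (stb Δ p) R) f)) (lift D) univ univ 1 {(n0, n)} → ∀ m, ∃ m0,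
      (∀ k, (ac (pull (der g (stb Δ p) R) f) k n0 m0 ↔ ac D k n m)) ∧
      ∀ k, (co (pull (der g (stb Δ p) R) f) k m0 ↔ co D k m) := by
    intro n0 n h m
    obtain ⟨m0, -, h2⟩ := h.back h0 (mem_univ m)
    obtain ⟨-, -, h3, h4⟩ := (hpiso _ _ _).1 h2.piso
    refine ⟨m0, fun k => ?_, fun k => ?_⟩
    · exact h3 k (n0, n) (by simp) (m0, m) (by simp)
    · exact h4 k (m0, m) (by simp)
  have pair_forth : ∀ {n0 n : ℕ},
      BF (lift (pull (der g (stb Δ p) R) f)) (lift D) univ univ 1 {(n0, n)} → ∀ m0, ∃ m,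
      (∀ k, (ac (pull (der g (stb Δ p) R) f) k n0 m0 ↔ ac D k n m)) ∧
      ∀ k, (co (pull (der g (stb Δ p) R) f) k m0 ↔ co D k m) := by
    intro n0 n h m0
    obtain ⟨m, -, h2⟩ := h.forth h0 (mem_univ m0)
    obtain ⟨-, -, h3, h4⟩ := (hpiso _ _ _).1 h2.piso
    refine ⟨m, fun k => ?_, fun k => ?_⟩
    · exact h3 k (n0, n) (by simp) (m0, m) (by simp)
    · exact h4 k (m0, m) (by simp)
  have pt_co : ∀ {n0 n : ℕ},
      BF (lift (pull (der g (stb Δ p) R) f)) (lift D) univ univ 1 {(n0, n)} →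
      ∀ k, (co (pull (der g (stb Δ p) R) f) k n0 ↔ co D k n) := by
    intro n0 n h k
    obtain ⟨-, -, -, h4⟩ := (hpiso _ _ _).1 h.piso
    exact h4 k (n0, n) (by simp)
  have Dac1 : ∀ k m n, ac D k m n → g k ∈ stb Δ p := by
    intro k m n h
    obtain ⟨m0, hm⟩ := pt m
    obtain ⟨n0, hn, -⟩ := pair_back hm n
    exact ((D0ac _ _ _).1 ((hn k).2 h)).1
  have Dac2 : ∀ k k' m n, g k = g k' → (ac D k m n ↔ ac D k' m n) := by
    intro k k' m n h
    obtain ⟨m0, hm⟩ := pt m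
    obtain ⟨n0, hn, -⟩ := pair_back hm n
    rw [← hn k, ← hn k', D0ac, D0ac, h]
  have D0co2 : ∀ i k n, g k ∈ Δ → (co (pull (der g (stb Δ p) R) f) (Nat.pair i k) n ↔
      ∃ n', ac (pull (der g (stb Δ p) R) f)
        (ix g ((tau Δ p (sh (g k) p))⁻¹ * g k)) n n' ∧
        co (pull (der g (stb Δ p) R) f) (Nat.pair i (ix g (tau Δ p (sh (g k) p)))) n') := by
    intro i k n hk
    obtain ⟨s1, s2⟩ := REP2_tau Δ (⟨g k, hk, rfl⟩ : orb Δ p (sh (g k) p))
    have hσ : (tau Δ p (sh (g k) p))⁻¹ * g k ∈ stb Δ p := by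
      refine ⟨Δ.mul_mem (Δ.inv_mem s1) hk, ?_⟩
      have h7 : sh (tau Δ p (sh (g k) p))⁻¹ (sh (g k) p) =
          sh (tau Δ p (sh (g k) p))⁻¹ (sh (tau Δ p (sh (g k) p)) p) := by rw [s2]
      rw [← REP2_sh_sh, h7, REP2_sh_sh, inv_mul_cancel, REP2_sh_one]
    have key : ∀ n', t ((tau Δ p (sh (g k) p))⁻¹ * g k) (f n) = f n' →
        t (tau Δ p (sh (g k) p)) (f n') = t (g k) (f n) := by
      intro n' h
      rw [← h, ← hR.mul _ s1 _ hσ.1, mul_inv_cancel_left]
    rw [D0co]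
    constructor
    · rintro ⟨h1, h2⟩
      have h3 : t ((tau Δ p (sh (g k) p))⁻¹ * g k) (f n) ∈ range f := by
        rw [hrange]
        change lab g R x _ = p
        rw [L1 _ hσ.1, hlabf, hσ.2]
      obtain ⟨n', hn'⟩ := h3
      refine ⟨n', (D0ac _ _ _).2 ?_, (D0co _ _ _).2 ?_⟩
      · rw [hix]; exact ⟨hσ, hn'.symm⟩
      · rw [hix, key n' hn'.symm]; exact ⟨s1, h2⟩
    · rintro ⟨n', h1, h2⟩
      have h3 := (D0ac _ _ _).1 h1
      have h4 := (D0co _ _ _).1 h2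
      rw [hix] at h3 h4
      rw [key n' h3.2] at h4
      exact ⟨hk, h4.2⟩
  have Dco1 : ∀ i k n, co D (Nat.pair i k) n → g k ∈ Δ := by
    intro i k n h
    obtain ⟨n0, hn⟩ := pt n
    exact ((D0co _ _ _).1 ((pt_co hn _).2 h)).1
  have Dco2 : ∀ i k n, g k ∈ Δ → (co D (Nat.pair i k) n ↔
      ∃ n', ac D (ix g ((tau Δ p (sh (g k) p))⁻¹ * g k)) n n' ∧
        co D (Nat.pair i (ix g (tau Δ p (sh (g k) p)))) n') := by
    intro i k n hk
    obtain ⟨n0, hn⟩ := pt n
    rw [← pt_co hn, D0co2 i k n0 hk]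
    constructor
    · rintro ⟨m0, h1, h2⟩
      obtain ⟨m, e1, e2⟩ := pair_forth hn m0
      exact ⟨m, (e1 _).1 h1, (e2 _).1 h2⟩
    · rintro ⟨m, h1, h2⟩
      obtain ⟨m0, e1, e2⟩ := pair_back hn m
      exact ⟨m0, (e1 _).2 h1, (e2 _).2 h2⟩
  -- the pieces of the replaced structure
  have horbf : ∀ n, orb Δ p (lab g R x (f n)) := by
    intro n; rw [hlabf]; exact horbp
  apply hext
  · intro m n
    rw [REP2_lt_pull]
    have : lt (der g (stb Δ p) (Rep g Δ R x p f D)) (f m) (f n) ↔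
        lt (Rep g Δ R x p f D) (f m) (f n) := by
      unfold der
      rw [hlt]
    rw [this, Rlt, if_pos ⟨horbf m, by rw [hlabf, hlabf]⟩, hnnf, hnnf]
  · intro k m n
    rw [REP2_ac_pull]
    have : ac (der g (stb Δ p) (Rep g Δ R x p f D)) k (f m) (f n) ↔
        g k ∈ stb Δ p ∧ ac (Rep g Δ R x p f D) k (f m) (f n) := by
      unfold der
      rw [hac]
    rw [this, Rac, if_pos (horbf m), hnnf, hnnf, hlabf, hlabf, REP2_tau_self, inv_one, one_mul,
      mul_one]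
    constructor
    · rintro ⟨h1, h2, h3, h4⟩
      exact (Dac2 _ _ _ _ (hix (g k))).1 h4
    · intro h
      have h1 := Dac1 _ _ _ h
      exact ⟨h1, h1.1, h1.2.symm, (Dac2 _ _ _ _ (hix (g k))).2 h⟩
  · intro j n
    obtain ⟨i, k, rfl⟩ : ∃ i k, j = Nat.pair i k := ⟨_, _, (Nat.pair_unpair j).symm⟩
    rw [REP2_co_pull]
    have h1 : co (der g (stb Δ p) (Rep g Δ R x p f D)) (Nat.pair i k) (f n) ↔
        ∃ z, ac (Rep g Δ R x p f D) k (f n) z ∧ co (Rep g Δ R x p f D) i z := by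
      unfold der
      rw [hco]
      simp only [Nat.unpair_pair]
    rw [h1]
    constructor
    · rintro ⟨z, h2, h3⟩
      rw [Rac, if_pos (horbf n), hnnf, hlabf, REP2_tau_self, mul_one] at h2
      obtain ⟨h4, h5, h6⟩ := h2
      have h7 : orb Δ p (lab g R x z) := by rw [h5]; exact ⟨g k, h4, rfl⟩
      rw [Rco, if_pos h7] at h3
      rw [Dco2 i k n h4]
      refine ⟨nn g Δ R x p f z, ?_, ?_⟩
      · rw [h5] at h6; exact h6
      · rw [h5] at h3; exact h3
    · intro h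
      have hk := Dco1 _ _ _ h
      obtain ⟨n', h2, h3⟩ := (Dco2 i k n hk).1 h
      obtain ⟨s1, s2⟩ := REP2_tau Δ (⟨g k, hk, rfl⟩ : orb Δ p (sh (g k) p))
      have hz : lab g R x (t (tau Δ p (sh (g k) p)) (f n')) = sh (g k) p := by
        rw [L1 _ s1, hlabf, s2]
      have ho : orb Δ p (lab g R x (t (tau Δ p (sh (g k) p)) (f n'))) := by
        rw [hz]; exact ⟨g k, hk, rfl⟩
      have hn' : nn g Δ R x p f (t (tau Δ p (sh (g k) p)) (f n')) = n' := by
        apply hnn2 _ _ ho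
        rw [hz]
      refine ⟨t (tau Δ p (sh (g k) p)) (f n'), ?_, ?_⟩
      · rw [Rac, if_pos (horbf n), hnnf, hn', hlabf, REP2_tau_self, mul_one, hz]
        exact ⟨hk, rfl, h2⟩
      · rw [Rco, if_pos ho, hn', hz]
        exact h3

end Pool.Agent.H566P
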