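import Pool.Agent.H566P.Spec

/-! REPC: continuity of the replacement (helper86). -/

set_option autoImplicit false

namespace Pool.Agent.H566P

open Set MeasureTheory
open Pool.Agent.H899R2.VP (St Adj PIso BF IsoOn idOn inv comp zipSet)
open Pool.Agent.H533R2.VO (RS lift put OS Ic RIso Dich VC BlkV S_FINAL)

theorem REPC_coord (i : ℕ) (v : Fin (ar i) → ℕ) : IsClopen {D : R2 | D i v = true} := by
  have h : Continuous (fun D : R2 => D i v) :=
    (continuous_apply v).comp (continuous_apply i)
  exact (isClopen_discrete ({true} : Set Bool)).preimage h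

theorem REPC_const {Ω : Type} [TopologicalSpace Ω] (P : Prop) : IsClopen {_D : Ω | P} := by
  by_cases h : P
  · simp only [h]
    exact isClopen_univ
  · simp only [h]
    exact isClopen_empty

theorem REPC_and {Ω : Type} [TopologicalSpace Ω] {P Q : Ω → Prop} (hP : IsClopen {D | P D})
    (hQ : IsClopen {D | Q D}) : IsClopen {D | P D ∧ Q D} := hP.inter hQ

theorem REPC_ite {Ω : Type} [TopologicalSpace Ω] {C : Prop} {_ : Decidable C} {P Q : Ω → Prop}
    (hP : IsClopen {D | P D}) (hQ : IsClopen {D | Q D}) :
    IsClopen {D | if C then P D else Q D} := by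
  by_cases h : C
  · simp only [h, if_true]
    exact hP
  · simp only [h, if_false]
    exact hQ

theorem t_REPC (hA : S_ACC) : S_REPC := by
  intro Γ _ g Δ R x p f
  obtain ⟨hlt, hac, hco, -, -, -, -, -, -, -, -, hcont⟩ := hA
  refine hcont R2 (Rep g Δ R x p f) ?_ ?_ ?_
  · intro y z
    simp only [Rep, hlt]
    refine REPC_ite (REPC_coord _ _) (REPC_const _)
  · intro m y z
    simp only [Rep, hac]
    refine REPC_ite (REPC_and (REPC_const _) (REPC_and (REPC_const _) (REPC_coord _ _)))
      (REPC_const _)
  · intro m y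
    simp only [Rep, hco]
    refine REPC_ite (REPC_coord _ _) (REPC_const _)

end Pool.Agent.H566P
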