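import Pool.Agent.H566P.Spec
import Pool.Agent.H899R2.VP.Scott

/-! Task SCR (H566P): Scott rank of a structure. -/

set_option autoImplicit false

namespace Pool.Agent.H566P

open Set MeasureTheory
open Pool.Agent.H899R2.VP

theorem SCR_rank {a : ℕ → ℕ} (N : St a) (Y : Set ℕ) : ∃ β : Ordinal.{0}, β < Ordinal.omega 1 ∧
    ∀ e : List (ℕ × ℕ), BF N N Y Y β {u | u ∈ e} →
      ∀ o < Ordinal.omega 1, BF N N Y Y o {u | u ∈ e} := by
  classical
  have hP : ∀ e : List (ℕ × ℕ), ∃ o : Ordinal.{0}, o < Ordinal.omega 1 ∧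
      (BF N N Y Y o {u | u ∈ e} → ∀ o' < Ordinal.omega 1, BF N N Y Y o' {u | u ∈ e}) := by
    intro e
    by_cases hb : ∃ o : Ordinal.{0}, o < Ordinal.omega 1 ∧ ¬ BF N N Y Y o {u | u ∈ e}
    · obtain ⟨o, ho, hb⟩ := hb
      exact ⟨o, ho, fun h => absurd h hb⟩
    · push Not at hb
      exact ⟨0, Ordinal.omega_pos 1, fun _ => hb⟩
  choose o ho1 ho2 using hP
  have hb : iSup o < Ordinal.omega 1 := Ordinal.iSup_lt_omega_one ho1
  have hob : ∀ e, o e ≤ iSup o := fun e => Ordinal.le_iSup o e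
  exact ⟨iSup o, hb, fun e he => ho2 e (he.mono (hob e))⟩

theorem SCR_comp (s t u : List ℕ) (h1 : s.length = t.length) (h2 : t.length = u.length) :
    zipSet s u ⊆ comp (zipSet s t) (zipSet t u) := by
  induction s generalizing t u with
  | nil => rw [zipSet_nil_left]; exact empty_subset _
  | cons x s ih =>
    cases t with
    | nil => simp at h1
    | cons y t =>
      cases u with
      | nil => simp at h2
      | cons z u =>
        rw [zipSet_cons, zipSet_cons, zipSet_cons]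
        have h3 := ih t u (by simpa using h1) (by simpa using h2)
        exact (insert_subset_insert h3).trans (comp_insert_subset x y z)

theorem t_SCR : S_SCR := by
  intro a N Y
  obtain ⟨β₀, hβ₀, hrk⟩ := SCR_rank N Y
  refine ⟨β₀ + Ordinal.omega0, Ordinal.isPrincipal_add_omega 1 hβ₀ Ordinal.omega0_lt_omega_one, ?_⟩
  intro M X hBF
  have hβ1 : β₀ + 1 < Ordinal.omega 1 := (Cardinal.isSuccLimit_omega 1).add_one_lt hβ₀
  -- the key step
  have key : ∀ s t : List ℕ, s.length = t.length → (∀ x ∈ s, x ∈ Y) → (∀ y ∈ t, y ∈ X) →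
      BF N M Y X β₀ (zipSet s t) → BF N M Y X (β₀ + 1) (zipSet s t) := by
    intro s t hst hs ht h
    have h1 : BF N M Y X ((β₀ + 1) + (t.length : Ordinal.{0})) ∅ := by
      refine hBF.mono ?_
      rw [add_assoc]
      gcongr
      have h2 : (1 : Ordinal.{0}) + (t.length : Ordinal.{0}) = ((1 + t.length : ℕ) : Ordinal.{0}) := by
        push_cast; rfl
      rw [h2]
      exact (Ordinal.natCast_lt_omega0 _).le
    obtain ⟨s', hs', hs'Y, h3⟩ := h1.back_list t le_rfl ht
    rw [empty_union] at h3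
    have h4 : BF M N X Y β₀ (zipSet t s') := by
      have h5 := (h3.mono (o' := β₀) (le_self_add)).symm
      rwa [inv_zipSet] at h5
    have h6 : BF N N Y Y β₀ (zipSet s s') := (h.comp h4).subset (SCR_comp s t s' hst hs'.symm)
    have h7 : BF N N Y Y (β₀ + 1) (zipSet s s') := hrk (s.zip s') h6 _ hβ1
    exact (h7.comp h3).subset (SCR_comp s s' t (hst.trans hs'.symm) hs')
  apply isoOn_of_system {q | ∃ s t : List ℕ, q = zipSet s t ∧ s.length = t.length ∧
    (∀ x ∈ s, x ∈ Y) ∧ (∀ y ∈ t, y ∈ X) ∧ BF N M Y X β₀ (zipSet s t)}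
  · refine ⟨[], [], (zipSet_nil_left _).symm, rfl, by simp, by simp, ?_⟩
    rw [zipSet_nil_left]
    exact hBF.mono le_self_add
  · rintro q ⟨s, t, rfl, h1, h2, h3, h4⟩
    refine ⟨h4.piso, ?_⟩
    rintro ⟨x, y⟩ hu
    exact ⟨h2 _ (mem_zipSet_left hu), h3 _ (mem_zipSet_right hu)⟩
  · rintro q ⟨s, t, rfl, h1, h2, h3, h4⟩ x hx
    obtain ⟨y, hy, hb⟩ := (key s t h1 h2 h3 h4).forth (lt_add_one β₀) hx
    refine ⟨zipSet (x :: s) (y :: t), ⟨x :: s, y :: t, rfl, by simp [h1], ?_, ?_, ?_⟩, ?_, y, ?_⟩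
    · intro z hz
      rcases List.mem_cons.1 hz with rfl | hz
      · exact hx
      · exact h2 z hz
    · intro z hz
      rcases List.mem_cons.1 hz with rfl | hz
      · exact hy
      · exact h3 z hz
    · rw [zipSet_cons]; exact hb
    · rw [zipSet_cons]; exact subset_insert _ _
    · rw [zipSet_cons]; exact mem_insert _ _
  · rintro q ⟨s, t, rfl, h1, h2, h3, h4⟩ y hy
    obtain ⟨x, hx, hb⟩ := (key s t h1 h2 h3 h4).back (lt_add_one β₀) hy
    refine ⟨zipSet (x :: s) (y :: t), ⟨x :: s, y :: t, rfl, by simp [h1], ?_, ?_, ?_⟩, ?_, x, ?_⟩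
    · intro z hz
      rcases List.mem_cons.1 hz with rfl | hz
      · exact hx
      · exact h2 z hz
    · intro z hz
      rcases List.mem_cons.1 hz with rfl | hz
      · exact hy
      · exact h3 z hz
    · rw [zipSet_cons]; exact hb
    · rw [zipSet_cons]; exact subset_insert _ _
    · rw [zipSet_cons]; exact mem_insert _ _

end Pool.Agent.H566P
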