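import Pool.Agent.H566P.Spec

/-! Task SH1: the ordered sum of the convex invariant blocks. -/

set_option autoImplicit false

namespace Pool.Agent.H566P

open Set MeasureTheory
open Pool.Agent.H899R2.VP (St Adj PIso BF IsoOn idOn inv comp zipSet)
open Pool.Agent.H533R2.VO (RS lift put OS Ic RIso Dich VC BlkV S_FINAL)

/-- a point which is extreme in its orbit is fixed -/
theorem SH1_unb {Γ : Type} [Group Γ] {Δ : Subgroup Γ} {t : Γ → ℕ → ℕ} (r : ℕ → ℕ → Prop)
    (tot : ∀ x y, x ≠ y → r x y ∨ r y x) (one : ∀ x, t 1 x = x)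
    (mul : ∀ γ ∈ Δ, ∀ δ ∈ Δ, ∀ x, t (γ * δ) x = t γ (t δ x))
    (mono : ∀ γ ∈ Δ, ∀ x y, r x y → r (t γ x) (t γ y)) (a b : ℕ)
    (hab : ∃ δ ∈ Δ, ¬ r (t δ a) b) (hno : ∀ γ ∈ Δ, ¬ r b (t γ a)) : ∀ γ ∈ Δ, t γ b = b := by
  obtain ⟨δ, hδ, h1⟩ := hab
  have hb : b = t δ a := by
    by_contra hne
    rcases tot _ _ hne with h | h
    · exact hno δ hδ h
    · exact h1 h
  intro γ hγ
  by_contra hne
  have e1 : ∀ ε ∈ Δ, ¬ r b (t ε b) := by
    intro ε hε h
    have e2 : t ε b = t (ε * δ) a := by rw [mul ε hε δ hδ, ← hb]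
    rw [e2] at h
    exact hno _ (Δ.mul_mem hε hδ) h
  rcases tot _ _ hne with h | h
  · have h2 := mono γ⁻¹ (Δ.inv_mem hγ) _ _ h
    rw [← mul γ⁻¹ (Δ.inv_mem hγ) γ hγ, inv_mul_cancel, one] at h2
    exact e1 _ (Δ.inv_mem hγ) h2
  · exact e1 γ hγ h

section

variable {Γ : Type} [Group Γ] {g : ℕ → Γ} {Δ : Subgroup Γ} {R : R2} {t : Γ → ℕ → ℕ}

theorem SH1_lt (hA : S_ACC) (R : R2) (x y : ℕ) :
    lt (sharp R).2 x y ↔ lt R x y ∧ sim R x y :=
  hA.1 (fun x y => lt R x y ∧ sim R x y) (ac R) (co R) x y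

theorem SH1_ac (hA : S_ACC) (R : R2) (n x y : ℕ) :
    ac (sharp R).2 n x y ↔ ac R n x y :=
  hA.2.1 (fun x y => lt R x y ∧ sim R x y) (ac R) (co R) n x y

theorem SH1_co (hA : S_ACC) (R : R2) (n x : ℕ) :
    co (sharp R).2 n x ↔ co R n x :=
  hA.2.2.1 (fun x y => lt R x y ∧ sim R x y) (ac R) (co R) n x

theorem SH1_adj (R : R2) (x y : ℕ) : Adj (sharp R) x y ↔ lt R x y ∧ ¬ sim R x y := by
  unfold Adj sharp
  simp only [decide_eq_true_eq]

theorem SH1_le_trans (h : LA g Δ R t) {x y z : ℕ} (h1 : ¬ lt R y x) (h2 : ¬ lt R z y) :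
    ¬ lt R z x := by
  intro h3
  by_cases h4 : x = y
  · subst h4
    exact h2 h3
  rcases h.tot _ _ h4 with h5 | h5
  · exact h2 (h.tr _ _ _ h3 h5)
  · exact h1 h5

theorem SH1_le_map (h : LA g Δ R t) {γ : Γ} (hγ : γ ∈ Δ) {x y : ℕ} (h1 : ¬ lt R x y) :
    ¬ lt R (t γ x) (t γ y) := by
  intro h2
  have h3 := h.mono γ⁻¹ (Δ.inv_mem hγ) _ _ h2
  rw [← h.mul γ⁻¹ (Δ.inv_mem hγ) γ hγ, ← h.mul γ⁻¹ (Δ.inv_mem hγ) γ hγ, inv_mul_cancel, h.one,
    h.one] at h3
  exact h1 h3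

theorem SH1_sim (hg : Function.Surjective g) (h : LA g Δ R t) (x y : ℕ) :
    sim R x y ↔ ∃ γ ∈ Δ, ∃ δ ∈ Δ, ¬ lt R y (t γ x) ∧ ¬ lt R (t δ x) y := by
  constructor
  · rintro ⟨n, z, m, w, h1, h2, h3, h4⟩
    obtain ⟨h5, h6⟩ := (h.act _ _ _).1 h1
    obtain ⟨h7, h8⟩ := (h.act _ _ _).1 h2
    rw [← h6] at h3
    rw [← h8] at h4
    exact ⟨g n, h5, g m, h7, h3, h4⟩
  · rintro ⟨γ, hγ, δ, hδ, h1, h2⟩
    obtain ⟨n, rfl⟩ := hg γ
    obtain ⟨m, rfl⟩ := hg δ
    exact ⟨n, _, m, _, (h.act _ _ _).2 ⟨hγ, rfl⟩, (h.act _ _ _).2 ⟨hδ, rfl⟩, h1, h2⟩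

theorem SH1_move (hg : Function.Surjective g) (h : LA g Δ R t) {γ : Γ} (hγ : γ ∈ Δ) (x : ℕ) :
    sim R x (t γ x) :=
  (SH1_sim hg h _ _).2 ⟨γ, hγ, γ, hγ, h.irr _, h.irr _⟩

theorem SH1_refl (hg : Function.Surjective g) (h : LA g Δ R t) (x : ℕ) : sim R x x := by
  have := SH1_move hg h Δ.one_mem x
  rwa [h.one] at this

theorem SH1_symm (hg : Function.Surjective g) (h : LA g Δ R t) {x y : ℕ} (h1 : sim R x y) :
    sim R y x := by
  obtain ⟨γ, hγ, δ, hδ, h2, h3⟩ := (SH1_sim hg h _ _).1 h1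
  refine (SH1_sim hg h _ _).2 ⟨δ⁻¹, Δ.inv_mem hδ, γ⁻¹, Δ.inv_mem hγ, ?_, ?_⟩
  · have h4 := SH1_le_map h (Δ.inv_mem hδ) h3
    rwa [← h.mul δ⁻¹ (Δ.inv_mem hδ) δ hδ, inv_mul_cancel, h.one] at h4
  · have h4 := SH1_le_map h (Δ.inv_mem hγ) h2
    rwa [← h.mul γ⁻¹ (Δ.inv_mem hγ) γ hγ, inv_mul_cancel, h.one] at h4

theorem SH1_trans (hg : Function.Surjective g) (h : LA g Δ R t) {x y z : ℕ} (h1 : sim R x y)
    (h2 : sim R y z) : sim R x z := by
  obtain ⟨γ, hγ, δ, hδ, h3, h4⟩ := (SH1_sim hg h _ _).1 h1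
  obtain ⟨γ', hγ', δ', hδ', h5, h6⟩ := (SH1_sim hg h _ _).1 h2
  refine (SH1_sim hg h _ _).2 ⟨γ' * γ, Δ.mul_mem hγ' hγ, δ' * δ, Δ.mul_mem hδ' hδ, ?_, ?_⟩
  · rw [h.mul γ' hγ' γ hγ]
    exact SH1_le_trans h (SH1_le_map h hγ' h3) h5
  · rw [h.mul δ' hδ' δ hδ]
    exact SH1_le_trans h h6 (SH1_le_map h hδ' h4)

theorem SH1_convex (hg : Function.Surjective g) (h : LA g Δ R t) {x y z u : ℕ} (h1 : sim R x y)
    (h2 : sim R x z) (h3 : ¬ lt R u y) (h4 : ¬ lt R z u) : sim R x u := by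
  obtain ⟨γ, hγ, δ, hδ, h5, h6⟩ := (SH1_sim hg h _ _).1 h1
  obtain ⟨γ', hγ', δ', hδ', h7, h8⟩ := (SH1_sim hg h _ _).1 h2
  exact (SH1_sim hg h _ _).2 ⟨γ, hγ, δ', hδ', SH1_le_trans h h5 h3, SH1_le_trans h h4 h8⟩

theorem SH1_asymm (h : LA g Δ R t) {x y : ℕ} (h1 : lt R x y) : ¬ lt R y x := fun h2 =>
  h.irr x (h.tr _ _ _ h1 h2)

theorem SH1_OS (hg : Function.Surjective g) (h : LA g Δ R t) : OS (sharp R) := by
  constructor
  · intro x h1
    exact h.irr x ((SH1_adj R x x).1 h1).1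
  · intro x y z h1 h2
    rw [SH1_adj] at h1 h2 ⊢
    refine ⟨h.tr _ _ _ h1.1 h2.1, fun h3 => h1.2 ?_⟩
    exact SH1_convex hg h (SH1_refl hg h x) h3 (SH1_asymm h h1.1) (SH1_asymm h h2.1)
  · intro x y z h1
    rw [SH1_adj] at h1
    rw [SH1_adj, SH1_adj]
    by_cases hxy : sim R x y
    · right
      have hyz : ¬ sim R y z := fun h2 => h1.2 (SH1_trans hg h hxy h2)
      refine ⟨?_, hyz⟩
      by_contra h3
      exact h1.2 (SH1_convex hg h (SH1_refl hg h x) hxy (SH1_asymm h h1.1) h3)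
    · by_cases h2 : lt R x y
      · exact Or.inl ⟨h2, hxy⟩
      · right
        have hne : x ≠ y := fun h3 => hxy (h3 ▸ SH1_refl hg h x)
        have h3 : lt R y x := (h.tot _ _ hne).resolve_left h2
        refine ⟨h.tr _ _ _ h3 h1.1, fun h4 => hxy ?_⟩
        exact SH1_symm hg h (SH1_convex hg h (SH1_refl hg h y) h4 h2 (SH1_asymm h h1.1))
  · intro i v hv j k
    rw [SH1_adj]
    rintro ⟨-, h2⟩
    apply h2
    have key : ∀ j, sim R (a0 v) (v j) := by
      unfold sharp mk at hv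
      simp only [decide_eq_true_eq] at hv
      intro j
      by_cases hi : i = 0 ∨ i % 2 = 1
      · have har : ar i = 2 := by unfold ar; rw [if_pos hi]
        have hsim : sim R (a0 v) (a1 v) := by
          rcases hi with hi | hi
          · rw [if_pos hi] at hv
            exact hv.2
          · rw [if_neg (by omega), if_pos hi] at hv
            obtain ⟨h5, h6⟩ := (h.act _ _ _).1 hv
            rw [← h6]
            exact SH1_move hg h h5 _
        by_cases hj : j.1 = 0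
        · have : v j = a0 v := by
            unfold a0
            rw [dif_pos (by omega)]
            congr 1
            exact Fin.ext hj
          rw [this]
          exact SH1_refl hg h _
        · have : v j = a1 v := by
            unfold a1
            have hjlt := j.2
            rw [dif_pos (by omega)]
            congr 1
            exact Fin.ext (by simp only; omega)
          rw [this]
          exact hsim
      · have har : ar i = 1 := by unfold ar; rw [if_neg hi]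
        have : v j = a0 v := by
          unfold a0
          have hjlt := j.2
          rw [dif_pos (by omega)]
          congr 1
          exact Fin.ext (by simp only; omega)
        rw [this]
        exact SH1_refl hg h _
    exact SH1_trans hg h (SH1_symm hg h (key j)) (key k)

theorem SH1_flat (hA : S_ACC) (R : R2) : flat (sharp R) = R := by
  refine hA.2.2.2.1 _ _ (fun x y => ?_) (fun n x y => ?_) (fun n x => ?_)
  · unfold flat
    rw [hA.1, SH1_lt hA]
    change Adj (sharp R) x y ∨ _ ↔ _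
    rw [SH1_adj]
    tauto
  · unfold flat
    rw [hA.2.1, SH1_ac hA]
  · unfold flat
    rw [hA.2.2.1, SH1_co hA]

theorem SH1_v2 (e : ℕ → ℕ) (i x y : ℕ) : e ∘ v2 i x y = v2 i (e x) (e y) := by
  funext k
  unfold v2
  simp only [Function.comp_apply]
  split_ifs <;> rfl

theorem SH1_blk (hA : S_ACC) (hg : Function.Surjective g) (h : LA g Δ R t) :
    BlkV (MB g Δ) (sharp R) := by
  intro x e he hC
  -- the block is the class of `x`
  have hcls : ∀ z, sim R x z ↔ ∃ n, e n = z := by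
    intro z
    rw [← hC z]
    unfold Ic
    simp only [Set.mem_ofPred_eq, SH1_adj]
    constructor
    · intro h1
      exact ⟨fun h2 => h2.2 (SH1_symm hg h h1), fun h2 => h2.2 h1⟩
    · rintro ⟨h1, h2⟩
      by_contra h3
      have hne : x ≠ z := fun h4 => h3 (h4 ▸ SH1_refl hg h x)
      rcases h.tot _ _ hne with h4 | h4
      · exact h2 ⟨h4, h3⟩
      · exact h1 ⟨h4, fun h5 => h3 (SH1_symm hg h h5)⟩
  have hx : ∀ n, sim R x (e n) := fun n => (hcls _).2 ⟨n, rfl⟩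
  have hee : ∀ n m, sim R (e n) (e m) := fun n m =>
    SH1_trans hg h (SH1_symm hg h (hx n)) (hx m)
  set R' : R2 := fun i v => (sharp R).2 i (e ∘ v) with hR'
  have hlt : ∀ n m, lt R' n m ↔ lt R (e n) (e m) := by
    intro n m
    have : lt R' n m ↔ lt (sharp R).2 (e n) (e m) := by
      unfold lt
      rw [hR']
      simp only
      rw [SH1_v2]
    rw [this, SH1_lt hA]
    exact ⟨fun h1 => h1.1, fun h1 => ⟨h1, hee n m⟩⟩
  have hac : ∀ k n m, ac R' k n m ↔ ac R k (e n) (e m) := by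
    intro k n m
    have : ac R' k n m ↔ ac (sharp R).2 k (e n) (e m) := by
      unfold ac
      rw [hR']
      simp only
      rw [SH1_v2]
    rw [this, SH1_ac hA]
  let t' : Γ → ℕ → ℕ := fun γ n => Function.invFun e (t γ (e n))
  have ht' : ∀ γ ∈ Δ, ∀ n, e (t' γ n) = t γ (e n) := by
    intro γ hγ n
    refine Function.invFun_eq ?_
    exact (hcls _).1 (SH1_trans hg h (hx n) (SH1_move hg h hγ (e n)))
  refine ⟨t', ?_, ?_⟩
  · constructor
    · intro n hn
      exact h.irr _ ((hlt n n).1 hn)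
    · intro a b c h1 h2
      rw [hlt] at h1 h2 ⊢
      exact h.tr _ _ _ h1 h2
    · intro a b hab
      rw [hlt, hlt]
      exact h.tot _ _ (fun h1 => hab (he h1))
    · intro a
      apply he
      rw [ht' 1 Δ.one_mem, h.one]
    · intro γ hγ δ hδ a
      apply he
      rw [ht' _ (Δ.mul_mem hγ hδ), ht' γ hγ, ht' δ hδ, h.mul γ hγ δ hδ]
    · intro γ hγ a b h1
      rw [hlt] at h1 ⊢
      rw [ht' γ hγ, ht' γ hγ]
      exact h.mono γ hγ _ _ h1
    · intro n a b
      rw [hac, h.act]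
      constructor
      · rintro ⟨h1, h2⟩
        exact ⟨h1, he (by rw [ht' _ h1, h2])⟩
      · rintro ⟨h1, h2⟩
        refine ⟨h1, ?_⟩
        rw [← ht' _ h1, h2]
  · -- no fixed points
    have hfix : ∀ m, ¬ ∀ γ ∈ Δ, t γ (e m) = e m := by
      intro m hm
      have h1 : ∀ k, e k = e m := by
        intro k
        obtain ⟨γ, hγ, δ, hδ, h2, h3⟩ := (SH1_sim hg h _ _).1 (hee m k)
        rw [hm γ hγ] at h2
        rw [hm δ hδ] at h3
        by_contra hne
        rcases h.tot _ _ hne with h4 | h4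
        · exact h2 h4
        · exact h3 h4
      have h2 := he ((h1 0).trans (h1 1).symm)
      exact absurd h2 (by norm_num)
    intro n m
    constructor
    · by_contra hno
      push Not at hno
      apply hfix m
      refine SH1_unb (lt R) h.tot h.one h.mul h.mono (e n) (e m) ?_ ?_
      · obtain ⟨γ, hγ, δ, hδ, h2, h3⟩ := (SH1_sim hg h _ _).1 (hee n m)
        exact ⟨δ, hδ, h3⟩
      · intro γ hγ h1
        apply hno γ hγ
        rw [hlt, ht' γ hγ]
        exact h1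
    · by_contra hno
      push Not at hno
      apply hfix m
      refine SH1_unb (fun a b => lt R b a)
        (fun a b hab => (h.tot a b hab).symm) h.one h.mul
        (fun γ hγ a b h1 => h.mono γ hγ _ _ h1) (e n) (e m) ?_ ?_
      · obtain ⟨γ, hγ, δ, hδ, h2, h3⟩ := (SH1_sim hg h _ _).1 (hee n m)
        exact ⟨γ, hγ, h2⟩
      · intro γ hγ h1
        apply hno γ hγ
        rw [hlt, ht' γ hγ]
        exact h1

end

theorem t_SH1 (hA : S_ACC) (_hL : S_LBF) : S_SH1 := by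
  intro Γ _ g Δ R hg ⟨t, h⟩
  exact ⟨SH1_OS hg h, SH1_blk hA hg h, SH1_flat hA R⟩

end Pool.Agent.H566P
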