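import Pool.Agent.H566P.Spec

set_option autoImplicit false

namespace Pool.Agent.H566P

open Set MeasureTheory
open Pool.Agent.H899R2.VP (St Adj PIso BF IsoOn idOn inv comp zipSet)
open Pool.Agent.H533R2.VO (RS lift)

private theorem TYP_dec {Ω : Type} [MeasurableSpace Ω] (P : Ω → Prop) (d : ∀ ω, Decidable (P ω))
    (b : Bool) (h : MeasurableSet {ω | P ω}) :
    MeasurableSet {ω | @decide (P ω) (d ω) = b} := by
  cases b
  · have : {ω | @decide (P ω) (d ω) = false} = {ω | P ω}ᶜ := by
      ext ω; simp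
    rw [this]; exact h.compl
  · have : {ω | @decide (P ω) (d ω) = true} = {ω | P ω} := by
      ext ω; simp
    rw [this]; exact h

theorem t_TYP (hA : S_ACC) (h1 : S_SCR) (h2 : S_MSG) : S_TYP := by
  intro Γ _ _ g Δ' N Y x p
  obtain ⟨hlt, hac, hco, -, -, -, -, mlt, mac, mco, hm, -⟩ := hA
  obtain ⟨β, hβ, hb⟩ := h1 ar (lift N) Y
  have key : {R : R2 | IsoOn (lift N) (lift (der g Δ' R)) Y (I g R x p) ∅} =
      {R | BF (lift N) (lift (der g Δ' R)) Y (I g R x p) β ∅} := by
    ext R
    exact ⟨fun h => Pool.Agent.H899R2.VP.IsoOn.bf h β, fun h => hb _ _ h⟩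
  rw [key]
  refine h2 ar (lift N) Y R2 (fun R => lift (der g Δ' R)) (fun R => I g R x p) ?_ ?_ β hβ ∅
  · have hd : Measurable (der g Δ' : R2 → R2) := by
      refine hm R2 _ ?_ ?_ ?_
      · intro y z
        have : {ω : R2 | lt (der g Δ' ω) y z} = {ω | lt ω y z} := by
          ext ω; exact hlt _ _ _ _ _
        rw [this]; exact mlt y z
      · intro n y z
        have : {ω : R2 | ac (der g Δ' ω) n y z} = {ω | g n ∈ Δ' ∧ ac ω n y z} := by
          ext ω; exact hac _ _ _ _ _ _
        rw [this]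
        by_cases h : g n ∈ Δ'
        · simpa [h] using mac n y z
        · simp [h]
      · intro n y
        have : {ω : R2 | co (der g Δ' ω) n y} =
            {ω | ∃ z, ac ω n.unpair.2 y z ∧ co ω n.unpair.1 z} := by
          ext ω; exact hco _ _ _ _ _
        rw [this]
        have : {ω : R2 | ∃ z, ac ω n.unpair.2 y z ∧ co ω n.unpair.1 z} =
            ⋃ z, ({ω | ac ω n.unpair.2 y z} ∩ {ω | co ω n.unpair.1 z}) := by
          ext; simp
        rw [this]
        exact MeasurableSet.iUnion fun z => (mac _ _ _).inter (mco _ _)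
    exact measurable_const.prodMk hd
  · intro z
    have e1 : {R : R2 | z ∈ I g R x p} = ⋂ γ : Γ,
        ({R : R2 | (lab g R x z γ).1 = (p γ).1} ∩ {R : R2 | (lab g R x z γ).2 = (p γ).2}) := by
      ext R
      simp only [I, mem_setOf_eq, mem_iInter, mem_inter_iff]
      constructor
      · intro h γ; rw [h]; exact ⟨rfl, rfl⟩
      · intro h; funext γ; exact Prod.ext (h γ).1 (h γ).2
    rw [e1]
    refine MeasurableSet.iInter fun γ => ?_
    refine MeasurableSet.inter ?_ ?_
    · refine TYP_dec (fun R : R2 => ∃ n w, g n = γ ∧ ac R n x w ∧ lt R w z) _ _ ?_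
      have : {R : R2 | ∃ n w, g n = γ ∧ ac R n x w ∧ lt R w z} =
          ⋃ n, ⋃ w, ({R : R2 | g n = γ} ∩ ({R : R2 | ac R n x w} ∩ {R : R2 | lt R w z})) := by
        ext; simp
      rw [this]
      exact MeasurableSet.iUnion fun n => MeasurableSet.iUnion fun w =>
        (MeasurableSet.const _).inter ((mac _ _ _).inter (mlt _ _))
    · refine TYP_dec (fun R : R2 => ∃ n, g n = γ ∧ ac R n x z) _ _ ?_
      have : {R : R2 | ∃ n, g n = γ ∧ ac R n x z} =
          ⋃ n, ({R : R2 | g n = γ} ∩ {R : R2 | ac R n x z}) := by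
        ext; simp
      rw [this]
      exact MeasurableSet.iUnion fun n => (MeasurableSet.const _).inter (mac _ _ _)

end Pool.Agent.H566P
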