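import Pool.Agent.H566P.Spec
import Pool.Agent.H533R2.VO.FINAL

/-! Task VCM: minimal blocks. -/

set_option autoImplicit false

namespace Pool.Agent.H566P

open Set MeasureTheory
open Pool.Agent.H899R2.VP (St Adj PIso BF IsoOn idOn inv comp zipSet closed_rank)
open Pool.Agent.H533R2.VO (RS lift put OS Ic RIso Dich VC BlkV S_FINAL final_perm_of_iso)

theorem t_VCM (_hA : S_ACC) (h1 : S_IDX) (h2 : S_CNT) : S_VCM := by
  intro Γ _ g Δ hg hVC B hBm hBi hB
  by_cases hfew : ∃ c : (ℕ → Bool) → R2, Continuous c ∧ (∀ A, c A ∈ B) ∧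
      ∀ A A', RIso (c A) (c A') → A = A'
  · exact Or.inr hfew
  left
  let K : Set (St ar) := {M | M.1 = (fun _ _ => false) ∧ M.2 ∈ B}
  have hKm : MeasurableSet K := by
    have e1 : MeasurableSet {M : St ar | M.1 = (fun _ _ => false)} :=
      (measurable_fst : Measurable (Prod.fst : St ar → (ℕ → ℕ → Bool)))
        (measurableSet_singleton (fun _ _ => false : ℕ → ℕ → Bool))
    have e2 : MeasurableSet {M : St ar | M.2 ∈ B} :=
      (measurable_snd : Measurable (Prod.snd : St ar → R2)) hBm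
    exact e1.inter e2
  have hKinv : ∀ M ∈ K, ∀ N : St ar, IsoOn M N univ univ ∅ → N ∈ K := by
    rintro M ⟨hM1, hM2⟩ N hMN
    obtain ⟨σ, hσ1, hσ2⟩ := final_perm_of_iso hMN
    refine ⟨?_, (hBi M.2 N.2 ⟨σ, hσ2⟩).1 hM2⟩
    funext x y
    have h := hσ1 (σ.symm x) (σ.symm y)
    rw [Equiv.apply_symm_apply, Equiv.apply_symm_apply, hM1] at h
    exact h
  obtain ⟨α₀, hα₀, hcl⟩ := closed_rank hKm hKinv
  have hω : Ordinal.omega0 < Ordinal.omega.{0} 1 := by
    rw [← Ordinal.omega_zero]; exact Ordinal.omega_lt_omega.2 one_pos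
  have hG : GB g Δ (max α₀ Ordinal.omega0) B := by
    refine ⟨hBm, le_max_right _ _, max_lt hα₀ hω, ?_, hB, hfew⟩
    intro R hR R' hb
    exact (hcl (lift R) ⟨rfl, hR⟩ (lift R') (hb.mono (le_max_left _ _))).2
  have hvc : ∀ R ∈ B, ∀ x y : ℕ, VC (LL g (stb Δ (lab g R x y))) := by
    intro R hR x y
    obtain ⟨t, ht, hub⟩ := hB R hR
    exact hVC _ (h1 Γ g Δ R t hg ht hub x y)
  exact h2 Γ g Δ _ B hg hG hvc

end Pool.Agent.H566P
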