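import Pool.Agent.H566P.Spec

/-! Task ZN: the chain condition for free abelian groups of finite rank. -/

set_option autoImplicit false

namespace Pool.Agent.H566P

/-- the submodule corresponding to a subgroup -/
def ZN_M {n : ℕ} (D : Subgroup (Multiplicative (Fin n → ℤ))) : Submodule ℤ (Fin n → ℤ) :=
  AddSubgroup.toIntSubmodule (Subgroup.toAddSubgroup' D)

theorem ZN_mem {n : ℕ} (D : Subgroup (Multiplicative (Fin n → ℤ))) (x : Fin n → ℤ) :
    x ∈ ZN_M D ↔ Multiplicative.ofAdd x ∈ D := Iff.rfl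

theorem ZN_le {n : ℕ} {D' D : Subgroup (Multiplicative (Fin n → ℤ))} (h : D' ≤ D) :
    ZN_M D' ≤ ZN_M D := fun _ hx => h hx

theorem ZN_lt {n : ℕ} {D' D : Subgroup (Multiplicative (Fin n → ℤ))} (h : D' ≤ D)
    (h0 : D'.relIndex D = 0) : Module.finrank ℤ (ZN_M D') < Module.finrank ℤ (ZN_M D) := by
  by_contra hcon
  push Not at hcon
  have heq : Module.finrank ℤ (ZN_M D') = Module.finrank ℤ (ZN_M D) :=
    le_antisymm (Submodule.finrank_mono (ZN_le h)) hcon
  let N : Submodule ℤ (ZN_M D) := (ZN_M D').comap (ZN_M D).subtype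
  have hN : Module.finrank ℤ N = Module.finrank ℤ (ZN_M D) := by
    rw [← heq]
    exact LinearEquiv.finrank_eq (Submodule.comapSubtypeEquivOfLe (ZN_le h))
  have hfin : Finite ((ZN_M D) ⧸ N) := Submodule.finiteQuotientOfFreeOfRankEq N hN
  let f : (D ⧸ D'.subgroupOf D) → ((ZN_M D) ⧸ N) := fun q =>
    Submodule.Quotient.mk (⟨Multiplicative.toAdd (Quotient.out q : D).1, (Quotient.out q : D).2⟩ :
      ZN_M D)
  have hf : Function.Injective f := by
    intro q₁ q₂ hq
    have h1 := (Submodule.Quotient.eq N).1 hq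
    have h2 : (Quotient.out q₁ : D).1 / (Quotient.out q₂ : D).1 ∈ D' := h1
    have h3 : ((Quotient.out q₂ : D)⁻¹ * (Quotient.out q₁ : D)) ∈ D'.subgroupOf D := by
      rw [Subgroup.mem_subgroupOf]
      have h4 : (((Quotient.out q₂ : D)⁻¹ * (Quotient.out q₁ : D) : D) :
          Multiplicative (Fin n → ℤ)) = (Quotient.out q₁ : D).1 / (Quotient.out q₂ : D).1 := by
        rw [div_eq_mul_inv, mul_comm]
        rfl
      rw [h4]
      exact h2
    have h5 := QuotientGroup.eq.2 h3
    rw [QuotientGroup.out_eq', QuotientGroup.out_eq'] at h5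
    exact h5.symm
  have hfin2 : Finite (D ⧸ D'.subgroupOf D) := Finite.of_injective f hf
  have hne : (D'.subgroupOf D).index ≠ 0 := by
    have : (D'.subgroupOf D).FiniteIndex := Subgroup.finiteIndex_of_finite_quotient
    exact Subgroup.FiniteIndex.index_ne_zero
  exact hne h0

theorem t_ZN : S_ZN := by
  intro n
  refine Subrelation.wf (r := InvImage (· < ·) fun D => Module.finrank ℤ (ZN_M D)) ?_
    (InvImage.wf _ wellFounded_lt)
  intro D' D h
  exact ZN_lt h.1 h.2

end Pool.Agent.H566P
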