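import Pool.Agent.H566P.ACC
import Pool.Agent.H566P.CNT
import Pool.Agent.H566P.DERL
import Pool.Agent.H566P.GLU
import Pool.Agent.H566P.IDX
import Pool.Agent.H566P.IND
import Pool.Agent.H566P.LABC
import Pool.Agent.H566P.LBF
import Pool.Agent.H566P.MSG
import Pool.Agent.H566P.OUT
import Pool.Agent.H566P.PC
import Pool.Agent.H566P.PIC
import Pool.Agent.H566P.PV
import Pool.Agent.H566P.REL
import Pool.Agent.H566P.REP1
import Pool.Agent.H566P.REP2
import Pool.Agent.H566P.REPC
import Pool.Agent.H566P.SCR
import Pool.Agent.H566P.SH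
import Pool.Agent.H566P.SH1
import Pool.Agent.H566P.TYP
import Pool.Agent.H566P.VCM
import Pool.Agent.H566P.ZN
import Pool.Agent.H533R2.VO.All

/-! Assembly: Vaught's conjecture for linear orders with a group of automorphisms. -/

set_option autoImplicit false

namespace Pool.Agent.H566P

open Set MeasureTheory

theorem out : S_OUT := by
  have acc := t_ACC
  have lbf := t_LBF acc
  have derl := t_DERL acc lbf
  have pic := t_PIC acc
  have rel := t_REL acc
  have rep1 := t_REP1 acc lbf
  have rep2 := t_REP2 acc lbf
  have repc := t_REPC acc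
  have pv := t_PV acc rep1 rep2 repc derl pic t_MSG
  have pc := t_PC acc pv rel
  have labc := t_LABC acc
  have glu := t_GLU acc lbf
  have typ := t_TYP acc t_SCR t_MSG
  have cnt := t_CNT acc pc labc glu typ pic
  have vcm := t_VCM acc (t_IDX lbf) cnt
  have sh := t_SH acc (t_SH1 acc lbf) Pool.Agent.H533R2.VO.final
  exact t_OUT acc (t_IND vcm sh)

end Pool.Agent.H566P
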