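import Pool.Agent.H533R2.VO.Spec

/-! Vaught's conjecture for linear orders with a group of automorphisms and unary predicates:
definitions and the propositions proved by the tasks. -/

set_option autoImplicit false

namespace Pool.Agent.H566P

open Set MeasureTheory
open Pool.Agent.H899R2.VP (St Adj PIso BF IsoOn idOn inv comp zipSet)
open Pool.Agent.H533R2.VO (RS lift put OS Ic RIso Dich VC BlkV S_FINAL)

/-- arities: relation `0` is the order, relation `2 n + 1` the graph of the action of `g n`,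
relation `2 n + 2` the `n`-th unary predicate -/
def ar : ℕ → ℕ := fun i => if i = 0 ∨ i % 2 = 1 then 2 else 1

/-- structures with universe `ℕ` -/
abbrev R2 : Type := RS ar

/-- the argument `(x, y)` (or `x`) of a relation -/
def v2 (i x y : ℕ) : Fin (ar i) → ℕ := fun k => if k.1 = 0 then x else y

/-- first and second coordinate of an argument -/
def a0 {m : ℕ} (v : Fin m → ℕ) : ℕ := if h : 0 < m then v ⟨0, h⟩ else 0
def a1 {m : ℕ} (v : Fin m → ℕ) : ℕ := if h : 1 < m then v ⟨1, h⟩ else 0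

/-- the order -/
def lt (R : R2) (x y : ℕ) : Prop := R 0 (v2 0 x y) = true
/-- the graph of the action of `g n` -/
def ac (R : R2) (n x y : ℕ) : Prop := R (2 * n + 1) (v2 (2 * n + 1) x y) = true
/-- the unary predicates -/
def co (R : R2) (n x : ℕ) : Prop := R (2 * n + 2) (v2 (2 * n + 2) x x) = true

open Classical in
/-- the structure with given order, action graphs and predicates -/
noncomputable def mk (L : ℕ → ℕ → Prop) (A : ℕ → ℕ → ℕ → Prop) (C : ℕ → ℕ → Prop) : R2 :=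
  fun i v => decide (if i = 0 then L (a0 v) (a1 v) else if i % 2 = 1 then A (i / 2) (a0 v) (a1 v)
    else C (i / 2 - 1) (a0 v))

/-- ACC: elementary facts on the coding -/
def S_ACC : Prop :=
  (∀ L A C x y, lt (mk L A C) x y ↔ L x y) ∧
  (∀ L A C n x y, ac (mk L A C) n x y ↔ A n x y) ∧
  (∀ L A C n x, co (mk L A C) n x ↔ C n x) ∧
  (∀ R R' : R2, (∀ x y, lt R x y ↔ lt R' x y) → (∀ n x y, ac R n x y ↔ ac R' n x y) →
    (∀ n x, co R n x ↔ co R' n x) → R = R') ∧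
  (∀ (R R' : R2) (p : Set (ℕ × ℕ)), PIso (lift R) (lift R') p ↔
    (∀ u ∈ p, ∀ v ∈ p, (u.1 = v.1 ↔ u.2 = v.2)) ∧
    (∀ u ∈ p, ∀ v ∈ p, (lt R u.1 v.1 ↔ lt R' u.2 v.2)) ∧
    (∀ n, ∀ u ∈ p, ∀ v ∈ p, (ac R n u.1 v.1 ↔ ac R' n u.2 v.2)) ∧
    (∀ n, ∀ u ∈ p, (co R n u.1 ↔ co R' n u.2))) ∧
  (∀ R R' : R2, RIso R R' ↔ ∃ σ : Equiv.Perm ℕ, (∀ x y, lt R' (σ x) (σ y) ↔ lt R x y) ∧
    (∀ n x y, ac R' n (σ x) (σ y) ↔ ac R n x y) ∧ (∀ n x, co R' n (σ x) ↔ co R n x)) ∧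
  (∀ R R' : R2, RIso R R' ↔ IsoOn (lift R) (lift R') univ univ ∅) ∧
  (∀ x y, MeasurableSet {R : R2 | lt R x y}) ∧ (∀ n x y, MeasurableSet {R : R2 | ac R n x y}) ∧
  (∀ n x, MeasurableSet {R : R2 | co R n x}) ∧
  (∀ (Ω : Type) [MeasurableSpace Ω] (Φ : Ω → R2), (∀ x y, MeasurableSet {ω | lt (Φ ω) x y}) →
    (∀ n x y, MeasurableSet {ω | ac (Φ ω) n x y}) → (∀ n x, MeasurableSet {ω | co (Φ ω) n x}) →
    Measurable Φ) ∧
  (∀ (Ω : Type) [TopologicalSpace Ω] (Φ : Ω → R2), (∀ x y, IsClopen {ω | lt (Φ ω) x y}) →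
    (∀ n x y, IsClopen {ω | ac (Φ ω) n x y}) → (∀ n x, IsClopen {ω | co (Φ ω) n x}) →
    Continuous Φ)

section defs

variable {Γ : Type} [Group Γ] (g : ℕ → Γ) (Δ : Subgroup Γ)

/-- `R` is a strict linear order with an action `t` of `Δ` by automorphisms -/
structure LA (R : R2) (t : Γ → ℕ → ℕ) : Prop where
  irr : ∀ x, ¬ lt R x x
  tr : ∀ x y z, lt R x y → lt R y z → lt R x z
  tot : ∀ x y, x ≠ y → lt R x y ∨ lt R y x
  one : ∀ x, t 1 x = x
  mul : ∀ γ ∈ Δ, ∀ δ ∈ Δ, ∀ x, t (γ * δ) x = t γ (t δ x)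
  mono : ∀ γ ∈ Δ, ∀ x y, lt R x y → lt R (t γ x) (t γ y)
  act : ∀ n x y, ac R n x y ↔ g n ∈ Δ ∧ t (g n) x = y

/-- linear orders with an action of `Δ` -/
def LL (R : R2) : Prop := ∃ t, LA g Δ R t

/-- minimal blocks: all orbits are unbounded in both directions -/
def MB (R : R2) : Prop := ∃ t, LA g Δ R t ∧ ∀ x y, (∃ γ ∈ Δ, lt R y (t γ x)) ∧
  ∃ γ ∈ Δ, lt R (t γ x) y

open Classical in
/-- the cut (and the point) of the orbit of `x` determined by `y` -/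
noncomputable def lab (R : R2) (x y : ℕ) : Γ → Bool × Bool := fun γ =>
  (decide (∃ n z, g n = γ ∧ ac R n x z ∧ lt R z y), decide (∃ n, g n = γ ∧ ac R n x y))

/-- translation of labels -/
def sh (γ : Γ) (p : Γ → Bool × Bool) : Γ → Bool × Bool := fun δ => p (γ⁻¹ * δ)

/-- the stabiliser of a label in `Δ` -/
def stb (p : Γ → Bool × Bool) : Subgroup Γ where
  carrier := {γ | γ ∈ Δ ∧ sh γ p = p}
  mul_mem' := by
    rintro γ δ ⟨h1, h2⟩ ⟨h3, h4⟩
    refine ⟨Δ.mul_mem h1 h3, ?_⟩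
    funext ε
    have h5 := congrFun h4 (γ⁻¹ * ε)
    have h6 := congrFun h2 ε
    simp only [sh] at h5 h6 ⊢
    rw [← h6, ← h5]
    congr 1
    group
  one_mem' := ⟨Δ.one_mem, by funext ε; simp [sh]⟩
  inv_mem' := by
    rintro γ ⟨h1, h2⟩
    refine ⟨Δ.inv_mem h1, ?_⟩
    funext ε
    have h5 := congrFun h2 (γ * ε)
    simp only [sh] at h5 ⊢
    rw [inv_inv, ← h5]
    congr 1
    group

/-- the order of the labels -/
def prec (p q : Γ → Bool × Bool) : Prop := ∃ δ ∈ Δ, ((p δ).1 = false ∧ (q δ).1 = true) ∨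
  (p δ = (false, false) ∧ (q δ).2 = true)

/-- the points with label `p` -/
def I (R : R2) (x : ℕ) (p : Γ → Bool × Bool) : Set ℕ := {y | lab g R x y = p}

/-- the derived structure: the action is restricted to `Δ`, and the predicates are translated:
the predicate with number `⟨i, n⟩` holds for `y` iff the `i`-th predicate holds for `g n • y` -/
noncomputable def der (R : R2) : R2 :=
  mk (lt R) (fun n y z => g n ∈ Δ ∧ ac R n y z)
    (fun m y => ∃ z, ac R m.unpair.2 y z ∧ co R m.unpair.1 z)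

/-- pull back along `f` -/
def pull (R : R2) (f : ℕ → ℕ) : R2 := fun i v => R i (f ∘ v)

/-- `q` is in the orbit of `p` -/
def orb (p q : Γ → Bool × Bool) : Prop := ∃ γ ∈ Δ, sh γ p = q

open Classical in
/-- an element of `Δ` moving `p` to `q` -/
noncomputable def tau (p q : Γ → Bool × Bool) : Γ :=
  if q = p then 1 else if h : orb Δ p q then h.choose else 1

open Classical in
/-- a number of `γ` -/
noncomputable def ix (γ : Γ) : ℕ := if h : ∃ k, g k = γ then h.choose else 0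

open Classical in
/-- the coordinate of `y` in a translate of `I g R x p`, which is enumerated by `f` -/
noncomputable def nn (R : R2) (x : ℕ) (p : Γ → Bool × Bool) (f : ℕ → ℕ) (y : ℕ) : ℕ :=
  if h : ∃ n, ac R (ix g (tau Δ p (lab g R x y))) (f n) y then h.choose else 0

open Classical in
/-- replace the structure on the translates of `I g R x p` by `D` -/
noncomputable def Rep (R : R2) (x : ℕ) (p : Γ → Bool × Bool) (f : ℕ → ℕ) (D : R2) : R2 :=
  mk (fun y z => if orb Δ p (lab g R x y) ∧ lab g R x z = lab g R x y then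
      lt D (nn g Δ R x p f y) (nn g Δ R x p f z) else lt R y z)
    (fun m y z => if orb Δ p (lab g R x y) then
      g m ∈ Δ ∧ lab g R x z = sh (g m) (lab g R x y) ∧
        ac D (ix g ((tau Δ p (lab g R x z))⁻¹ * g m * tau Δ p (lab g R x y)))
          (nn g Δ R x p f y) (nn g Δ R x p f z) else ac R m y z)
    (fun i y => if orb Δ p (lab g R x y) then
      co D (Nat.pair i (ix g (tau Δ p (lab g R x y)))) (nn g Δ R x p f y) else co R i y)

/-- the standing hypotheses on a class of minimal blocks -/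
structure GB (α : Ordinal.{0}) (B : Set R2) : Prop where
  meas : MeasurableSet B
  om : Ordinal.omega0 ≤ α
  lt : α < Ordinal.omega 1
  closed : ∀ R ∈ B, ∀ R' : R2, BF (lift R) (lift R') univ univ α ∅ → R' ∈ B
  mb : ∀ R ∈ B, MB g Δ R
  few : ¬ ∃ c : (ℕ → Bool) → R2, Continuous c ∧ (∀ A, c A ∈ B) ∧
    ∀ A A', RIso (c A) (c A') → A = A'

/-- smaller subgroups: infinite index -/
def Sm (Δ' Δ : Subgroup Γ) : Prop := Δ' ≤ Δ ∧ Δ'.relIndex Δ = 0

end defs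

/-! ### Basic facts -/

/-- LBF: labels -/
def S_LBF : Prop := ∀ (Γ : Type) [Group Γ] (g : ℕ → Γ) (Δ : Subgroup Γ) (R : R2) (t : Γ → ℕ → ℕ),
  Function.Surjective g → LA g Δ R t → ∀ x : ℕ,
  (∀ γ ∈ Δ, ∀ y, lab g R x (t γ y) = sh γ (lab g R x y)) ∧
  (∀ y z, lab g R x y ≠ lab g R x z → (lt R y z ↔ prec Δ (lab g R x y) (lab g R x z))) ∧
  (∀ y γ, ((lab g R x y γ).1 = true ↔ γ ∈ Δ ∧ lt R (t γ x) y) ∧
    ((lab g R x y γ).2 = true ↔ γ ∈ Δ ∧ t γ x = y)) ∧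
  (∀ y z γ, (lab g R x y γ).2 = true → lab g R x z = lab g R x y → z = y) ∧
  (∀ γ ∈ Δ, ∀ y z, lt R (t γ y) (t γ z) ↔ lt R y z) ∧
  (∀ γ ∈ Δ, ∀ y z, t γ y = z ↔ y = t γ⁻¹ z)

/-- IDX: stabilisers of cuts have infinite index -/
def S_IDX : Prop := ∀ (Γ : Type) [Group Γ] (g : ℕ → Γ) (Δ : Subgroup Γ) (R : R2)
  (t : Γ → ℕ → ℕ), Function.Surjective g → LA g Δ R t →
  (∀ x y, (∃ γ ∈ Δ, lt R y (t γ x)) ∧ ∃ γ ∈ Δ, lt R (t γ x) y) →
  ∀ x y, Sm (stb Δ (lab g R x y)) Δ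

/-- DERL: the cut intervals carry actions of the stabilisers -/
def S_DERL : Prop := ∀ (Γ : Type) [Group Γ] (g : ℕ → Γ) (Δ : Subgroup Γ) (R : R2)
  (t : Γ → ℕ → ℕ), Function.Surjective g → LA g Δ R t → ∀ (x : ℕ) (p : Γ → Bool × Bool)
  (f : ℕ → ℕ), Function.Injective f → range f = I g R x p →
  LL g (stb Δ p) (pull (der g (stb Δ p) R) f)

/-- PIC: isomorphisms respect the pieces -/
def S_PIC : Prop := ∀ (Γ : Type) [Group Γ] (g : ℕ → Γ) (Δ' : Subgroup Γ) (R R' : R2) (x x' : ℕ)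
  (p : Γ → Bool × Bool), IsoOn (lift R) (lift R') univ univ {(x, x')} →
  IsoOn (lift (der g Δ' R)) (lift (der g Δ' R')) (I g R x p) (I g R' x' p) ∅

/-- REL: back-and-forth equivalence of the pieces -/
def S_REL : Prop := ∀ (Γ : Type) [Group Γ] (g : ℕ → Γ) (Δ' : Subgroup Γ) (R R' : R2) (x x' : ℕ)
  (p : Γ → Bool × Bool) (o : Ordinal.{0}), BF (lift R) (lift R') univ univ (o + 1) {(x, x')} →
  BF (lift (der g Δ' R)) (lift (der g Δ' R')) (I g R x p) (I g R' x' p) o ∅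

/-! ### Replacement -/

/-- REP1 -/
def S_REP1 : Prop := ∀ (Γ : Type) [Group Γ] (g : ℕ → Γ) (Δ : Subgroup Γ) (R : R2)
  (t : Γ → ℕ → ℕ), Function.Surjective g → LA g Δ R t → ∀ (x : ℕ) (p : Γ → Bool × Bool)
  (f : ℕ → ℕ), Function.Injective f → range f = I g R x p → ∀ (D : R2) (o : Ordinal.{0}),
  BF (lift (pull (der g (stb Δ p) R) f)) (lift D) univ univ o ∅ →
  BF (lift R) (lift (Rep g Δ R x p f D)) univ univ o ∅

/-- REP2 -/
def S_REP2 : Prop := ∀ (Γ : Type) [Group Γ] (g : ℕ → Γ) (Δ : Subgroup Γ) (R : R2)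
  (t t' : Γ → ℕ → ℕ), Function.Surjective g → LA g Δ R t → ∀ (x : ℕ) (p : Γ → Bool × Bool)
  (f : ℕ → ℕ), Function.Injective f → range f = I g R x p → ∀ D : R2,
  BF (lift (pull (der g (stb Δ p) R) f)) (lift D) univ univ Ordinal.omega0 ∅ →
  LA g Δ (Rep g Δ R x p f D) t' →
  (∀ y, lab g (Rep g Δ R x p f D) x y = lab g R x y) ∧
  pull (der g (stb Δ p) (Rep g Δ R x p f D)) f = D

/-- REPC -/
def S_REPC : Prop := ∀ (Γ : Type) [Group Γ] (g : ℕ → Γ) (Δ : Subgroup Γ) (R : R2) (x : ℕ)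
  (p : Γ → Bool × Bool) (f : ℕ → ℕ), Continuous (Rep g Δ R x p f)

/-! ### Countability -/

/-- PV: variations of a piece -/
def S_PV : Prop := ∀ (Γ : Type) [Group Γ] (g : ℕ → Γ) (Δ : Subgroup Γ) (α : Ordinal.{0})
  (B : Set R2), Function.Surjective g → GB g Δ α B → ∀ R ∈ B, ∀ x y : ℕ,
  VC (LL g (stb Δ (lab g R x y))) → (I g R x (lab g R x y)).Infinite →
  ∃ f : ℕ → R2 × Set ℕ, ∀ (R' : R2) (Y : Set ℕ),
    BF (lift (der g (stb Δ (lab g R x y)) R)) (lift R') (I g R x (lab g R x y)) Y α ∅ →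
    ∃ n, IsoOn (lift (f n).1) (lift R') (f n).2 Y ∅

/-- PC: the pieces have countably many isomorphism types -/
def S_PC : Prop := ∀ (Γ : Type) [Group Γ] (g : ℕ → Γ) (Δ : Subgroup Γ) (α : Ordinal.{0})
  (B : Set R2), Function.Surjective g → GB g Δ α B →
  (∀ R ∈ B, ∀ x y : ℕ, VC (LL g (stb Δ (lab g R x y)))) → ∀ p : Γ → Bool × Bool,
  ∃ f : ℕ → R2 × Set ℕ, ∀ R ∈ B, ∀ x, ∃ n,
    IsoOn (lift (f n).1) (lift (der g (stb Δ p) R)) (f n).2 (I g R x p) ∅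

/-- LABC: countably many labels -/
def S_LABC : Prop := ∀ (Γ : Type) [Group Γ] (g : ℕ → Γ) (Δ : Subgroup Γ) (α : Ordinal.{0})
  (B : Set R2), Function.Surjective g → GB g Δ α B →
  {p | ∃ R ∈ B, ∃ x y, lab g R x y = p}.Countable

/-- GLU: gluing isomorphisms of the pieces -/
def S_GLU : Prop := ∀ (Γ : Type) [Group Γ] (g : ℕ → Γ) (Δ : Subgroup Γ) (R R' : R2)
  (t t' : Γ → ℕ → ℕ), Function.Surjective g → LA g Δ R t → LA g Δ R' t' → ∀ x x' : ℕ,
  (∀ p, IsoOn (lift (der g (stb Δ p) R)) (lift (der g (stb Δ p) R')) (I g R x p)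
    (I g R' x' p) ∅) → IsoOn (lift R) (lift R') univ univ ∅

/-- SCR: Scott rank of a structure -/
def S_SCR : Prop := ∀ (a : ℕ → ℕ) (N : St a) (Y : Set ℕ), ∃ β : Ordinal.{0},
  β < Ordinal.omega 1 ∧ ∀ (M : St a) (X : Set ℕ), BF N M Y X β ∅ → IsoOn N M Y X ∅

/-- MSG: measurability of back-and-forth equivalence with a fixed structure -/
def S_MSG : Prop := ∀ (a : ℕ → ℕ) (N : St a) (Y : Set ℕ) (Ω : Type) [MeasurableSpace Ω]
  (Φ : Ω → St a) (Z : Ω → Set ℕ), Measurable Φ → (∀ z, MeasurableSet {ω | z ∈ Z ω}) →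
  ∀ β : Ordinal.{0}, β < Ordinal.omega 1 → ∀ p : Set (ℕ × ℕ),
  MeasurableSet {ω | BF N (Φ ω) Y (Z ω) β p}

/-- TYP: measurability of the type of a piece -/
def S_TYP : Prop := ∀ (Γ : Type) [Group Γ] [Countable Γ] (g : ℕ → Γ) (Δ' : Subgroup Γ) (N : R2)
  (Y : Set ℕ) (x : ℕ) (p : Γ → Bool × Bool),
  MeasurableSet {R : R2 | IsoOn (lift N) (lift (der g Δ' R)) Y (I g R x p) ∅}

/-- CNT -/
def S_CNT : Prop := ∀ (Γ : Type) [Group Γ] (g : ℕ → Γ) (Δ : Subgroup Γ) (α : Ordinal.{0})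
  (B : Set R2), Function.Surjective g → GB g Δ α B →
  (∀ R ∈ B, ∀ x y : ℕ, VC (LL g (stb Δ (lab g R x y)))) →
  ∃ f : ℕ → R2, ∀ R ∈ B, ∃ n, RIso (f n) R

/-- VCM: minimal blocks -/
def S_VCM : Prop := ∀ (Γ : Type) [Group Γ] (g : ℕ → Γ) (Δ : Subgroup Γ), Function.Surjective g →
  (∀ Δ', Sm Δ' Δ → VC (LL g Δ')) → VC (MB g Δ)

/-! ### From minimal blocks to linear orders with an action -/

/-- `y` is between two points of the orbit of `x` -/
def sim (R : R2) (x y : ℕ) : Prop := ∃ n z m w, ac R n x z ∧ ac R m x w ∧ ¬ lt R y z ∧ ¬ lt R w y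

open Classical in
/-- the ordered sum of the convex invariant blocks -/
noncomputable def sharp (R : R2) : St ar :=
  (fun x y => decide (lt R x y ∧ ¬ sim R x y), mk (fun x y => lt R x y ∧ sim R x y) (ac R) (co R))

/-- the way back -/
noncomputable def flat (M : St ar) : R2 :=
  mk (fun x y => M.1 x y = true ∨ lt M.2 x y) (ac M.2) (co M.2)

/-- SH1 -/
def S_SH1 : Prop := ∀ (Γ : Type) [Group Γ] (g : ℕ → Γ) (Δ : Subgroup Γ) (R : R2),
  Function.Surjective g → LL g Δ R → OS (sharp R) ∧ BlkV (MB g Δ) (sharp R) ∧ flat (sharp R) = R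

/-- SH -/
def S_SH : Prop := ∀ (Γ : Type) [Group Γ] (g : ℕ → Γ) (Δ : Subgroup Γ), Function.Surjective g →
  VC (MB g Δ) → VC (LL g Δ)

/-- IND -/
def S_IND : Prop := ∀ (Γ : Type) [Group Γ] (g : ℕ → Γ), Function.Surjective g →
  WellFounded (Sm : Subgroup Γ → Subgroup Γ → Prop) → ∀ Δ : Subgroup Γ, VC (LL g Δ)

/-! ### The final theorem -/

/-- structures `(ℕ, <, (γ)_{γ ∈ Γ}, (U_n))` -/
abbrev XG (Γ : Type) : Type := (ℕ → ℕ → Bool) × (Γ → ℕ → ℕ) × (ℕ → ℕ → Bool)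

/-- `x` is a strict linear order on which `Γ` acts by automorphisms, with unary predicates -/
structure LO {Γ : Type} [Group Γ] (x : XG Γ) : Prop where
  irr : ∀ m, x.1 m m = false
  tr : ∀ m n k, x.1 m n = true → x.1 n k = true → x.1 m k = true
  tot : ∀ m n, m ≠ n → x.1 m n = true ∨ x.1 n m = true
  one : ∀ m, x.2.1 1 m = m
  mul : ∀ γ δ m, x.2.1 (γ * δ) m = x.2.1 γ (x.2.1 δ m)
  mono : ∀ γ m n, x.1 m n = true → x.1 (x.2.1 γ m) (x.2.1 γ n) = true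

/-- `σ` is an isomorphism from `x` to `y` -/
def Isom {Γ : Type} (σ : Equiv.Perm ℕ) (x y : XG Γ) : Prop :=
  (∀ m n, y.1 (σ m) (σ n) = x.1 m n) ∧ (∀ γ m, y.2.1 γ (σ m) = σ (x.2.1 γ m)) ∧
    ∀ i m, y.2.2 i (σ m) = x.2.2 i m

/-- OUT -/
def S_OUT : Prop := ∀ (Γ : Type) [Group Γ] [Countable Γ],
  WellFounded (Sm : Subgroup Γ → Subgroup Γ → Prop) → ∀ B : Set (XG Γ), MeasurableSet B →
  (∀ x ∈ B, LO x) → (∀ x ∈ B, ∀ (y : XG Γ) (σ : Equiv.Perm ℕ), Isom σ x y → y ∈ B) →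
  (∃ f : ℕ → XG Γ, ∀ x ∈ B, ∃ n, ∃ σ : Equiv.Perm ℕ, Isom σ (f n) x) ∨
  (∃ c : (ℕ → Bool) → XG Γ, Continuous c ∧ (∀ A, c A ∈ B) ∧
    ∀ A A', (∃ σ : Equiv.Perm ℕ, Isom σ (c A) (c A')) → A = A')

/-- ZN: the chain condition for free abelian groups of finite rank -/
def S_ZN : Prop := ∀ n : ℕ, WellFounded
  (Sm : Subgroup (Multiplicative (Fin n → ℤ)) → Subgroup (Multiplicative (Fin n → ℤ)) → Prop)

end Pool.Agent.H566P
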